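import Mathlib

/-! Balanced two-colourings of even edge sets of bipartite multigraphs. -/

namespace Pool.Agent.Lib.IC4
open Finset

theorem euler_sign {V E : Type*} [DecidableEq V] [DecidableEq E] (x : E → V) (n : ℕ) :
    ∀ (y : E → V) (Z : Finset E), Z.card = n →
      (∀ w, Even (∑ e ∈ Z, if x e = w then (1 : ℤ) else 0)) →
      (∀ w, Even (∑ e ∈ Z, if y e = w then (1 : ℤ) else 0)) →
      ∃ s : E → ℤ, (∀ e, s e = 1 ∨ s e = -1) ∧
        (∀ w, (∑ e ∈ Z, if x e = w then s e else 0) = 0) ∧
        ∀ w, (∑ e ∈ Z, if y e = w then s e else 0) = 0 := by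
  induction n using Nat.strong_induction_on with
  | _ n ih =>
  intro y Z hn hx hy
  have two : ∀ (u : E → V), (∀ w, Even (∑ e ∈ Z, if u e = w then (1 : ℤ) else 0)) →
      ∀ e ∈ Z, ∃ f ∈ Z, f ≠ e ∧ u f = u e := by
    intro u hu e he
    by_contra h
    push Not at h
    have := hu (u e)
    rw [← add_sum_erase _ _ he, sum_eq_zero fun f hf =>
      if_neg (h f (mem_erase.1 hf).2 (mem_erase.1 hf).1)] at this
    simp at this
  rcases Z.eq_empty_or_nonempty with rfl | ⟨e, he⟩
  · exact ⟨fun _ => 1, fun _ => .inl rfl, fun _ => by simp, fun _ => by simp⟩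
  obtain ⟨g, hg, hge, hxg⟩ := two x hx e he
  have hg' : g ∈ Z.erase e := mem_erase.2 ⟨hge, hg⟩
  have sp : ∀ φ : E → ℤ, ∑ a ∈ Z, φ a = φ e + φ g + ∑ a ∈ (Z.erase e).erase g, φ a := fun φ => by
    rw [← add_sum_erase _ _ he, ← add_sum_erase _ _ hg', add_assoc]
  have hlt : ((Z.erase e).erase g).card < n :=
    hn ▸ (card_erase_le.trans_lt (card_erase_lt_of_mem he))
  have hx' : ∀ w, Even (∑ a ∈ (Z.erase e).erase g, if x a = w then (1 : ℤ) else 0) := fun w => by
    have := hx w
    rw [sp, hxg] at this
    exact (Int.even_add.1 this).1 ⟨_, rfl⟩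
  have out : ∀ (s : E → ℤ) (t : ℤ) (u : E → V) (w : V),
      (∑ a ∈ (Z.erase e).erase g,
        if u a = w then Function.update (Function.update s e (-t)) g t a else 0) =
      ∑ a ∈ (Z.erase e).erase g, if u a = w then s a else 0 := fun s t u w =>
    sum_congr rfl fun a ha => by
      rw [Function.update_of_ne (mem_erase.1 ha).1,
        Function.update_of_ne (mem_erase.1 (mem_erase.1 ha).2).1]
  have val : ∀ (s : E → ℤ) (t : ℤ), (∀ a, s a = 1 ∨ s a = -1) → (t = 1 ∨ t = -1) → ∀ a,
      Function.update (Function.update s e (-t)) g t a = 1 ∨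
      Function.update (Function.update s e (-t)) g t a = -1 := fun s t hs ht a => by
    by_cases h1 : a = g
    · rw [h1, Function.update_self]; exact ht
    rw [Function.update_of_ne h1]
    by_cases h2 : a = e
    · rw [h2, Function.update_self]; omega
    · rw [Function.update_of_ne h2]; exact hs a
  by_cases hyg : y g = y e
  · obtain ⟨s, s1, s2, s3⟩ := ih _ hlt y _ rfl hx' fun w => by
      have := hy w
      rw [sp, hyg] at this
      exact (Int.even_add.1 this).1 ⟨_, rfl⟩
    refine ⟨_, val s 1 s1 (.inl rfl), fun w => ?_, fun w => ?_⟩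
    · rw [sp, out, s2, hxg, Function.update_self, Function.update_of_ne hge.symm,
        Function.update_self]
      split_ifs <;> simp
    · rw [sp, out, s3, hyg, Function.update_self, Function.update_of_ne hge.symm,
        Function.update_self]
      split_ifs <;> simp
  obtain ⟨f, hf, hfe, hyf⟩ := two y hy e he
  have hf' : f ∈ (Z.erase e).erase g :=
    mem_erase.2 ⟨fun h => hyg (h ▸ hyf), mem_erase.2 ⟨hfe, hf⟩⟩
  have up : ∀ (s : E → ℤ) (w : V),
      (∑ a ∈ (Z.erase e).erase g, if Function.update y f (y g) a = w then s a else 0) =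
      (if y g = w then s f else 0) - (if y e = w then s f else 0) +
        ∑ a ∈ (Z.erase e).erase g, if y a = w then s a else 0 := fun s w => by
    rw [← add_sum_erase _ _ hf', ← add_sum_erase _ _ hf', Function.update_self, hyf,
      sum_congr rfl fun a ha => by rw [Function.update_of_ne (mem_erase.1 ha).1]]
    ring
  obtain ⟨s, s1, s2, s3⟩ := ih _ hlt (Function.update y f (y g)) _ rfl hx' fun w => by
    have := hy w
    rw [sp] at this
    rw [up (fun _ => 1)]
    obtain ⟨k, hk⟩ := this
    exact ⟨k - if y e = w then 1 else 0, by linarith⟩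
  refine ⟨_, val s (s f) s1 (s1 f), fun w => ?_, fun w => ?_⟩
  · rw [sp, out, s2, hxg, Function.update_self, Function.update_of_ne hge.symm,
      Function.update_self]
    split_ifs <;> simp
  · have := s3 w
    rw [up] at this
    rw [sp, out, Function.update_self, Function.update_of_ne hge.symm, Function.update_self]
    revert this
    split_ifs <;> intro this <;> linarith

/-- An edge set of a bipartite multigraph with all degrees even has a two-colouring in which the
two colours occur equally often at every vertex. -/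
theorem euler_split {V E : Type*} [DecidableEq V] [DecidableEq E] (p : E → Bool → V)
    (side : V → Bool) (hs : ∀ e b, side (p e b) = b) (Z : Finset E)
    (hZ : ∀ w, Even (Z.filter fun e => p e true = w ∨ p e false = w).card) :
    ∃ c : E → Bool, ∀ w,
      (Z.filter fun e => (p e true = w ∨ p e false = w) ∧ c e = true).card =
      (Z.filter fun e => (p e true = w ∨ p e false = w) ∧ c e = false).card := by
  have key : ∀ e w, (p e true = w ∨ p e false = w) ↔ p e (side w) = w := fun e w => by
    constructor
    · rintro (h | h) <;> rw [← h, hs]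
    · intro h
      cases hw : side w
      · exact .inr (hw ▸ h)
      · exact .inl (hw ▸ h)
  have ev : ∀ b w, Even (∑ e ∈ Z, if p e b = w then (1 : ℤ) else 0) := fun b w => by
    by_cases h : side w = b
    · have := hZ w
      simp only [key, h] at this
      rw [← sum_filter, sum_const, nsmul_one]
      exact_mod_cast this
    · rw [sum_eq_zero fun e _ => if_neg fun k => h (by rw [← k, hs])]
      exact Even.zero
  obtain ⟨s, s1, s2, s3⟩ := euler_sign (fun e => p e true) _ (fun e => p e false) Z rfl
    (ev true) (ev false)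
  refine ⟨fun e => decide (s e = 1), fun w => ?_⟩
  have h0 : (∑ e ∈ Z, if p e (side w) = w then s e else 0) = 0 := by
    cases side w
    · exact s3 w
    · exact s2 w
  simp only [key]
  rw [card_filter, card_filter]
  have : (∑ e ∈ Z, if p e (side w) = w then s e else 0) =
      ((∑ e ∈ Z, if p e (side w) = w ∧ decide (s e = 1) = true then 1 else 0 : ℕ) : ℤ) -
      ((∑ e ∈ Z, if p e (side w) = w ∧ decide (s e = 1) = false then 1 else 0 : ℕ) : ℤ) := by
    push_cast
    rw [← sum_sub_distrib]
    refine sum_congr rfl fun e _ => ?_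
    by_cases h : p e (side w) = w <;> rcases s1 e with k | k <;> simp [h, k]
  omega

end Pool.Agent.Lib.IC4
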