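import Pool.Agent.Lib.IC4.Blue
import Pool.Agent.Lib.IC4.Eul96

/-! Block BAL: the Euler split of the complement of `F`. -/

set_option linter.unusedSectionVars false

namespace Pool.Agent.Lib.IC4
open Finset

universe u v

namespace BAL
variable {V : Type u} {E : Type v} [Fintype V] [Fintype E] [DecidableEq V]

/-- the cost of a labelling depends only on the labels on `F` -/
lemma TL_congr (p : E → Bool → V) (F L L' : E → Bool) (h : ∀ e, F e = true → L' e = L e) :
    TL p F L' = TL p F L := by
  classical
  have h1 : (fun e => F e && L' e) = fun e => F e && L e := funext fun e => by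
    cases k : F e
    · rfl
    · rw [h e k]
  have h2 : (fun e => F e && !L' e) = fun e => F e && !L e := funext fun e => by
    cases k : F e
    · rfl
    · rw [h e k]
  have h3 : ∀ e, Paid p F L' e ↔ Paid p F L e := fun e =>
    and_congr_right fun ⟨_, k, _⟩ => by rw [h e k]
  simp only [TL, nviol, npaid, Viol, h1, h2, h3]

lemma cnt_add (p : E → Bool → V) (F : E → Bool) (w : V) :
    cnt p F w + cnt p (fun e => !F e) w = deg p w := by
  rw [cnt, cnt, deg, ← card_filter_add_card_filter_not (s := incS p w) fun e => F e = true]
  simp

end BAL

theorem stBAL : St_BAL.{u, v} := by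
  intro V E _ _ _ _ p side F L g fam m
  obtain ⟨c, hc⟩ := euler_split p side g.hs (univ.filter fun e => F e = false) fun w => by
    have e1 : ((univ.filter fun e => F e = false).filter
        fun e => p e true = w ∨ p e false = w).card = cnt p (fun e => !F e) w := by
      rw [cnt, incS, filter_comm]; simp
    have e2 := BAL.cnt_add p F w
    have e3 := g.le w
    have e4 : deg p w ≠ 1 := fun h => by
      obtain ⟨e, he⟩ := card_pos.1 (show 0 < (incS p w).card from Nat.one_pos.trans_eq h.symm)
      rcases (mem_filter.1 he).2 with k | k
      · have := g.two e true; rw [k] at this; omega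
      · have := g.two e false; rw [k] at this; omega
    rw [e1, Nat.even_iff]
    by_cases h : deg p w = 3
    · have := fam.f3 w h; omega
    · have := fam.f24 w h; omega
  have hL : ∀ e, F e = true → (if F e = true then L e else c e) = L e := fun e h => if_pos h
  have hT := BAL.TL_congr p F L _ hL
  refine ⟨fun e => if F e = true then L e else c e,
    ⟨fun e h r => (hL e h).trans (m.1 e h r), fun L' h => hT.le.trans (m.2 L' h)⟩, hT, fun w => ?_⟩
  have := hc w
  rw [filter_filter, filter_filter] at this
  rw [cnt, cnt, incS, filter_filter, filter_filter]
  have a1 : ∀ e, (!F e && if F e = true then L e else c e) = true ↔ F e = false ∧ c e = true :=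
    fun e => by cases F e <;> simp
  have a2 : ∀ e, (!F e && !if F e = true then L e else c e) = true ↔ F e = false ∧ c e = false :=
    fun e => by cases F e <;> simp
  simp only [a1, a2]
  convert this using 3 <;> tauto

end Pool.Agent.Lib.IC4
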