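import Pool.Agent.Lib.MP_fb9257_co.Stmt

/-! Reduction to bridgeless multigraphs. -/

set_option linter.unusedSectionVars false

namespace Pool.Agent.Lib.IC4
open Finset Pool.Agent.Lib.IC34

universe u v

/-- integer-valued interval colouring -/
def ICZ {V E : Type*} [Fintype E] [DecidableEq V] (ends : E → Sym2 V) (c : E → ℤ) : Prop :=
  ∀ w, ∃ a : ℤ, ∀ e, w ∈ ends e →
    (a ≤ c e ∧ c e < a + mdeg ends w) ∧ ∀ e', w ∈ ends e' → c e = c e' → e = e'

/-- no edge is the only edge leaving a vertex set -/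
def NoBridge {V E : Type*} (ends : E → Sym2 V) : Prop :=
  ∀ (K : V → Prop) e₀, (∀ e, e ≠ e₀ → ∀ x y, ends e = s(x, y) → (K x ↔ K y)) →
    ∀ x y, ends e₀ = s(x, y) → (K x ↔ K y)

theorem ICZ.final {V E : Type*} [Fintype E] [DecidableEq V] {ends : E → Sym2 V} {c : E → ℤ}
    (h : ICZ ends c) : ∃ c, IsIntervalColoring ends c := by
  classical
  obtain ⟨M, hM⟩ := Finite.bddBelow_range c
  have hM' : ∀ e, M ≤ c e := fun e => hM ⟨e, rfl⟩
  refine ⟨fun e => (c e - M + 1).toNat, fun e => by have := hM' e; beta_reduce; omega, fun w => ?_⟩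
  obtain ⟨a, ha⟩ := h w
  by_cases k : ∃ e, w ∈ ends e
  swap
  · have : ∀ e, w ∉ ends e := fun e he => k ⟨_, he⟩
    exact ⟨fun e he => absurd he (this e), 0, by simp [this, mdeg]⟩
  have inj : Set.InjOn (fun e => (c e - M + 1).toNat) {e | w ∈ ends e} :=
    fun e he e' he' j => by
      have j1 := hM' e
      have j2 := hM' e'
      refine (ha e he).2 e' he' ?_
      simp only at j
      omega
  refine ⟨inj, (a - M + 1).toNat, ?_⟩
  have e1 : {e | w ∈ ends e} = ((univ.filter fun e => w ∈ ends e : Finset E) : Set E) := by simp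
  rw [e1] at inj ⊢
  rw [← coe_image, ← coe_Ico, coe_inj]
  refine eq_of_subset_of_card_le (fun n hn => ?_) ?_
  · obtain ⟨e, he, rfl⟩ := mem_image.1 hn
    have j1 := (ha _ (mem_filter.1 he).2).1
    have j2 := hM' e
    rw [mem_Ico]
    omega
  · rw [card_image_of_injOn inj, Nat.card_Ico, add_tsub_cancel_left, mdeg]

theorem mdeg_del {V E : Type*} [Fintype E] [DecidableEq E] [DecidableEq V] (ends : E → Sym2 V)
    (e₀ : E) (w : V) : mdeg ends w =
      mdeg (fun e : {e // e ≠ e₀} => ends e.1) w + if w ∈ ends e₀ then 1 else 0 := by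
  unfold mdeg
  rw [card_filter, card_filter, ← sum_erase_add _ _ (mem_univ e₀)]
  congr 1
  exact sum_subtype _ (by simp) fun e => if w ∈ ends e then 1 else 0

theorem of_noBridge {V : Type u} [DecidableEq V] (side : V → Prop)
    (H : ∀ (E : Type v) [Fintype E] (ends : E → Sym2 V),
      (∀ e, ∃ x y, ends e = s(x, y) ∧ side x ∧ ¬ side y) → (∀ w, mdeg ends w ≤ 4) →
      NoBridge ends → ∃ c, ICZ ends c) (n : ℕ) :
    ∀ (E : Type v) [Fintype E] (ends : E → Sym2 V), Fintype.card E = n →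
      (∀ e, ∃ x y, ends e = s(x, y) ∧ side x ∧ ¬ side y) → (∀ w, mdeg ends w ≤ 4) →
      ∃ c, ICZ ends c := by
  classical
  induction n with
  | zero =>
    intro E _ ends hn hb hd
    have := Fintype.card_eq_zero_iff.1 hn
    exact ⟨fun _ => 0, fun w => ⟨0, fun e => isEmptyElim e⟩⟩
  | succ n ih =>
  intro E _ ends hn hb hd
  by_cases k : NoBridge ends
  · exact H E ends hb hd k
  unfold NoBridge at k
  simp only [not_forall] at k
  obtain ⟨K, e₀, hK, x, y, hxy, hne⟩ := k
  obtain ⟨c, hc⟩ := ih {e // e ≠ e₀} (fun e => ends e.1) (by simp [hn]) (fun e => hb e.1)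
    fun w => by have := hd w; rw [mdeg_del ends e₀] at this; omega
  choose a ha using hc
  set m := mdeg (fun e : {e // e ≠ e₀} => ends e.1) with hm
  let t : V → ℤ := fun w => if (K w ↔ K x) then -(a x + m x) else -(a y + m y)
  have hK' : ∀ e, e ≠ e₀ → ∀ w w', w ∈ ends e → w' ∈ ends e → t w = t w' := by
    intro e he w w' hw hw'
    obtain ⟨p, q, hpq, -⟩ := hb e
    have := hK e he p q hpq
    rw [hpq, Sym2.mem_iff] at hw hw'
    rcases hw with rfl | rfl <;> rcases hw' with rfl | rfl <;> simp only [t, this]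
  let c' : E → ℤ := fun e => if h : e = e₀ then 0 else c ⟨e, h⟩ + t (ends e).out.1
  have hc' : ∀ e (h : e ≠ e₀) w, w ∈ ends e → c' e = c ⟨e, h⟩ + t w := by
    intro e h w hw
    simp only [c', dif_neg h]
    rw [hK' e h _ w (Sym2.out_fst_mem _) hw]
  have h0 : c' e₀ = 0 := by simp [c']
  have ht : ∀ w, w ∈ ends e₀ → t w = -(a w + m w) := by
    intro w hw
    rw [hxy, Sym2.mem_iff] at hw
    rcases hw with rfl | rfl
    · simp [t]
    · simp only [t]; rw [if_neg fun h => hne h.symm]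
  refine ⟨c', fun w => ⟨a w + t w, fun e he => ?_⟩⟩
  rw [mdeg_del ends e₀, ← hm]
  by_cases h : e = e₀
  · subst h
    have := ht w he
    refine ⟨by rw [h0, if_pos he]; push_cast; omega, fun e' he' j => ?_⟩
    by_contra h'
    have := (ha w ⟨e', fun k => h' k.symm⟩ he').1
    rw [h0, hc' e' (fun k => h' k.symm) w he'] at j
    omega
  · have j1 := (ha w ⟨e, h⟩ he).1
    rw [hc' e h w he]
    refine ⟨by split_ifs <;> push_cast <;> omega, fun e' he' j => ?_⟩
    by_cases h' : e' = e₀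
    · subst h'
      have := ht w he'
      rw [h0] at j
      omega
    · rw [hc' e' h' w he'] at j
      exact congrArg Subtype.val ((ha w ⟨e, h⟩ he).2 ⟨e', h'⟩ he' (by omega))

end Pool.Agent.Lib.IC4
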