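import Pool.Agent.Lib.MP_fb9257_co.Stmt

/-! Reduction of interval colourability to graphs without bridges. -/

set_option linter.unusedSectionVars false

namespace Pool.Agent.Lib.IC4
open Finset Pool.Agent.Lib.IC34

universe u v

/-- the edges at a vertex -/
def incS {V : Type u} {E : Type v} [Fintype E] [DecidableEq V] (p : E → Bool → V) (w : V) :
    Finset E := univ.filter fun e => p e true = w ∨ p e false = w

/-- integer interval colouring -/
def ZCol {V : Type u} {E : Type v} [Fintype E] [DecidableEq V] (p : E → Bool → V) (c : E → ℤ) :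
    Prop := ∀ w, ∃ a : ℤ, (∀ e ∈ incS p w, a ≤ c e ∧ c e < a + (incS p w).card) ∧
      ∀ e ∈ incS p w, ∀ f ∈ incS p w, c e = c f → e = f

/-- no vertex set is left by exactly one edge -/
def NoBridge {V : Type u} {E : Type v} (p : E → Bool → V) : Prop :=
  ∀ (K : Finset V) (e : E) (b : Bool), p e b ∈ K → p e (!b) ∉ K →
    ∃ f, f ≠ e ∧ ¬ (p f true ∈ K ↔ p f false ∈ K)

theorem zcol_of_noBridge {V : Type u} [DecidableEq V] (side : V → Bool) (Δ : ℕ)
    (H : ∀ (E : Type v) [Fintype E] [DecidableEq E] (p : E → Bool → V),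
      (∀ e b, side (p e b) = b) → (∀ w, (incS p w).card ≤ Δ) → NoBridge p → ∃ c, ZCol p c)
    (n : ℕ) : ∀ (E : Type v) [Fintype E] [DecidableEq E] (p : E → Bool → V),
      Fintype.card E = n → (∀ e b, side (p e b) = b) → (∀ w, (incS p w).card ≤ Δ) →
      ∃ c, ZCol p c := by
  induction n using Nat.strong_induction_on with
  | _ n ih =>
  intro E _ _ p hn hs hd
  by_cases hb : NoBridge p
  · exact H E p hs hd hb
  simp only [NoBridge, not_forall, not_exists, not_and, not_not] at hb
  obtain ⟨K, e, b, hK, hK', hb⟩ := hb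
  let E' := {f : E // f ≠ e}
  let p' : E' → Bool → V := fun f => p f.1
  have hmap : ∀ w, (incS p' w).map (Function.Embedding.subtype _) = (incS p w).erase e := by
    intro w
    ext f
    simp only [incS, mem_map, mem_filter, mem_univ, true_and, Function.Embedding.coe_subtype,
      mem_erase, p']
    exact ⟨fun ⟨g, hg, h⟩ => h ▸ ⟨g.2, hg⟩, fun ⟨h1, h2⟩ => ⟨⟨f, h1⟩, h2, rfl⟩⟩
  have hcard : ∀ w, (incS p' w).card = ((incS p w).erase e).card := fun w => by
    rw [← hmap, card_map]
  have hlt : Fintype.card E' < n := hn ▸ Fintype.card_subtype_lt (x := e) (by simp)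
  obtain ⟨c, hc⟩ := ih _ hlt E' p' rfl (fun f => hs f.1)
    (fun w => (hcard w).le.trans (card_erase_le.trans (hd w)))
  choose a ha hi using hc
  -- top colours at the two ends of the bridge
  let tu : ℤ := a (p e b) + (incS p' (p e b)).card
  let tv : ℤ := a (p e (!b)) + (incS p' (p e (!b))).card
  let sh : V → ℤ := fun w => if w ∈ K then tv - tu else 0
  have hsh : ∀ (f : E') (w : V), f ∈ incS p' w → sh (p f.1 true) = sh w := by
    intro f w hf
    have := hb f.1 f.2
    simp only [incS, mem_filter, mem_univ, true_and, p'] at hf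
    rcases hf with rfl | rfl
    · rfl
    · simp only [sh, this]
  have hin : ∀ (f : E) (h : f ≠ e) (w : V), f ∈ incS p w → (⟨f, h⟩ : E') ∈ incS p' w := by
    intro f h w hf
    simpa [incS, p'] using hf
  refine ⟨fun f => if h : f = e then tv else c ⟨f, h⟩ + sh (p f true), fun w => ?_⟩
  by_cases he : e ∈ incS p w
  · have hw : a w + (incS p' w).card + sh w = tv := by
      simp only [incS, mem_filter, mem_univ, true_and] at he
      have : w = p e b ∨ w = p e (!b) := by cases b <;> rcases he with h | h <;> simp [h]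
      rcases this with rfl | rfl
      · simp only [sh, if_pos hK, tu]; ring
      · simp only [sh, if_neg hK', tv]; ring
    have hc1 : ((incS p w).card : ℤ) = (incS p' w).card + 1 := by
      rw [hcard, card_erase_of_mem he]
      have := card_pos.2 ⟨e, he⟩
      omega
    refine ⟨a w + sh w, fun f hf => ?_, fun f hf g hg => ?_⟩
    · by_cases h : f = e
      · simp only [dif_pos h]; omega
      · have := ha w _ (hin f h w hf)
        have h2 := hsh ⟨f, h⟩ w (hin f h w hf)
        simp only [dif_neg h] at h2 ⊢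
        omega
    · by_cases h : f = e <;> by_cases h' : g = e
      · exact fun _ => h.trans h'.symm
      · have := ha w _ (hin g h' w hg)
        have h2 := hsh ⟨g, h'⟩ w (hin g h' w hg)
        simp only [dif_pos h, dif_neg h'] at h2 ⊢
        omega
      · have := ha w _ (hin f h w hf)
        have h2 := hsh ⟨f, h⟩ w (hin f h w hf)
        simp only [dif_neg h, dif_pos h'] at h2 ⊢
        omega
      · have h2 := hsh ⟨f, h⟩ w (hin f h w hf)
        have h3 := hsh ⟨g, h'⟩ w (hin g h' w hg)
        simp only [dif_neg h, dif_neg h'] at h2 h3 ⊢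
        intro j
        exact congrArg Subtype.val (hi w _ (hin f h w hf) _ (hin g h' w hg) (by omega))
  · have hc1 : (incS p w).card = (incS p' w).card := by rw [hcard, erase_eq_of_notMem he]
    have ne : ∀ f ∈ incS p w, f ≠ e := fun f hf h => he (h ▸ hf)
    refine ⟨a w + sh w, fun f hf => ?_, fun f hf g hg => ?_⟩
    · have := ha w _ (hin f (ne f hf) w hf)
      have h2 := hsh ⟨f, ne f hf⟩ w (hin f _ w hf)
      simp only [dif_neg (ne f hf)] at h2 ⊢
      omega
    · have h2 := hsh ⟨f, ne f hf⟩ w (hin f _ w hf)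
      have h3 := hsh ⟨g, ne g hg⟩ w (hin g _ w hg)
      simp only [dif_neg (ne f hf), dif_neg (ne g hg)] at h2 h3 ⊢
      intro j
      exact congrArg Subtype.val (hi w _ (hin f _ w hf) _ (hin g _ w hg) (by omega))

/-- From the bridgeless case to the statement about arbitrary bipartite multigraphs. -/
theorem final_of_noBridge {V : Type u} {E : Type v} [Fintype E] [DecidableEq V] (Δ : ℕ)
    (H : ∀ (side : V → Bool) (E : Type v) [Fintype E] [DecidableEq E] (p : E → Bool → V),
      (∀ e b, side (p e b) = b) → (∀ w, (incS p w).card ≤ Δ) → NoBridge p → ∃ c, ZCol p c)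
    (ends : E → Sym2 V) (side : V → Prop)
    (hb : ∀ e, ∃ x y, ends e = s(x, y) ∧ side x ∧ ¬ side y) (hd : ∀ w, mdeg ends w ≤ Δ) :
    ∃ c, IsIntervalColoring ends c := by
  classical
  choose x y hxy hx hy using hb
  let p : E → Bool → V := fun e b => if b then x e else y e
  have hI : ∀ w, incS p w = univ.filter fun e => w ∈ ends e := fun w => by
    ext e
    simp [incS, p, hxy, eq_comm]
  obtain ⟨c, hc⟩ := zcol_of_noBridge (fun w => decide (side w)) Δ (H fun w => decide (side w)) _ E p rfl
    (fun e b => by cases b <;> simp [p, hx, hy]) (fun w => by rw [hI]; exact hd w)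
  obtain ⟨M, hM⟩ := Finite.bddBelow_range c
  have hM' : ∀ e, M ≤ c e := fun e => hM ⟨e, rfl⟩
  refine ⟨fun e => (c e - M + 1).toNat, fun e => by have := hM' e; beta_reduce; omega, fun w => ?_⟩
  obtain ⟨a, ha, hi⟩ := hc w
  have e1 : {e | w ∈ ends e} = ((incS p w : Finset E) : Set E) := by rw [hI]; simp
  have e2 : mdeg ends w = (incS p w).card := by rw [hI]; rfl
  rw [e1, e2]
  have inj : Set.InjOn (fun e => (c e - M + 1).toNat) (incS p w) := fun e he f hf j => by
    have j1 := hM' e
    have j2 := hM' f
    refine hi e he f hf ?_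
    simp only at j
    omega
  refine ⟨inj, ?_⟩
  rcases (incS p w).eq_empty_or_nonempty with h0 | ⟨e0, he0⟩
  · exact ⟨0, by simp [h0]⟩
  -- the lower end of the interval is attained
  have hsub : (incS p w).image c ⊆ Ico a (a + (incS p w).card) := by
    intro z hz
    obtain ⟨e, he, rfl⟩ := mem_image.1 hz
    exact mem_Ico.2 (ha e he)
  have heq : (incS p w).image c = Ico a (a + (incS p w).card) := by
    refine eq_of_subset_of_card_le hsub ?_
    rw [card_image_of_injOn fun e he f hf j => hi e he f hf j]
    simp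
  have haM : M ≤ a := by
    have : a ∈ (incS p w).image c := by
      rw [heq]
      have := card_pos.2 ⟨e0, he0⟩
      exact mem_Ico.2 ⟨le_rfl, by omega⟩
    obtain ⟨e, -, rfl⟩ := mem_image.1 this
    exact hM' e
  refine ⟨(a - M + 1).toNat, ?_⟩
  ext z
  simp only [Set.mem_image, mem_coe, Set.mem_Ico]
  constructor
  · rintro ⟨e, he, rfl⟩
    have := ha e he
    omega
  · rintro ⟨h1, h2⟩
    have : (z : ℤ) + M - 1 ∈ (incS p w).image c := by
      rw [heq]
      exact mem_Ico.2 ⟨by omega, by omega⟩
    obtain ⟨e, he, h⟩ := mem_image.1 this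
    exact ⟨e, he, by omega⟩

end Pool.Agent.Lib.IC4
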