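import Pool.Agent.Lib.IC4.Blue

/-! Elementary tools for the blocks. -/

set_option linter.unusedSectionVars false

namespace Pool.Agent.Lib.IC4
open Finset

universe u v
variable {V : Type u} {E : Type v} [Fintype E] [DecidableEq V] [DecidableEq E]
  {p : E → Bool → V} {side : V → Bool} {F L J P Q : E → Bool} {w : V}

lemma mem_incS {e : E} : e ∈ incS p w ↔ p e true = w ∨ p e false = w := by simp [incS]

lemma mem_incS' {e : E} : e ∈ incS p w ↔ ∃ b, p e b = w := by
  rw [mem_incS, Bool.exists_bool, or_comm]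

lemma self_mem_incS (p : E → Bool → V) (e : E) (b : Bool) : e ∈ incS p (p e b) :=
  mem_incS'.2 ⟨b, rfl⟩

lemma mem_incS_side (hs : ∀ e b, side (p e b) = b) {e : E} :
    e ∈ incS p w ↔ p e (side w) = w := by
  rw [mem_incS']
  exact ⟨fun ⟨b, h⟩ => by rw [← h, hs], fun h => ⟨_, h⟩⟩

lemma side_eq (hs : ∀ e b, side (p e b) = b) {e f : E} {a b : Bool} (h : p e a = p f b) : a = b := by
  rw [← hs e a, h, hs]

lemma ends_ne (hs : ∀ e b, side (p e b) = b) (e f : E) (b : Bool) : p e b ≠ p f (!b) := fun h => by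
  have := side_eq hs h
  cases b <;> simp at this

lemma cnt_eq_sum (p : E → Bool → V) (P : E → Bool) (w : V) :
    cnt p P w = ∑ e ∈ incS p w, (P e).toNat := by
  rw [cnt, card_filter]
  exact sum_congr rfl fun e _ => by cases P e <;> simp

lemma cnt_congr (h : ∀ e ∈ incS p w, P e = Q e) : cnt p P w = cnt p Q w := by
  simp only [cnt_eq_sum]
  exact sum_congr rfl fun e he => by rw [h e he]

lemma cnt_mono (h : ∀ e ∈ incS p w, P e = true → Q e = true) : cnt p P w ≤ cnt p Q w :=
  card_le_card fun e he => mem_filter.2 ⟨(mem_filter.1 he).1, h e (mem_filter.1 he).1 (mem_filter.1 he).2⟩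

lemma cnt_le_deg (p : E → Bool → V) (P : E → Bool) (w : V) : cnt p P w ≤ deg p w :=
  card_filter_le _ _

lemma cnt_true (p : E → Bool → V) (w : V) : cnt p (fun _ => true) w = deg p w := by
  simp [cnt, deg]

lemma cnt_split (p : E → Bool → V) (P Q : E → Bool) (w : V) :
    cnt p P w = cnt p (fun e => P e && Q e) w + cnt p (fun e => P e && !Q e) w := by
  simp only [cnt_eq_sum, ← sum_add_distrib]
  exact sum_congr rfl fun e _ => by cases P e <;> cases Q e <;> rfl

lemma cnt_add_not (p : E → Bool → V) (P : E → Bool) (w : V) :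
    cnt p P w + cnt p (fun e => !P e) w = deg p w := by
  rw [← cnt_true, cnt_split p (fun _ => true) P w]
  simp

lemma cnt_eq_zero : cnt p P w = 0 ↔ ∀ e ∈ incS p w, P e = false := by
  simp [cnt, card_eq_zero, filter_eq_empty_iff]

lemma cnt_pos {e : E} (he : e ∈ incS p w) (h : P e = true) : 1 ≤ cnt p P w :=
  card_pos.2 ⟨e, mem_filter.2 ⟨he, h⟩⟩

lemma exists_of_cnt (h : cnt p P w ≠ 0) : ∃ e ∈ incS p w, P e = true := by
  by_contra k
  push Not at k
  exact h (cnt_eq_zero.2 fun e he => by simpa using k e he)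

lemma eq_of_cnt_le_one (h : cnt p P w ≤ 1) {e f : E} (he : e ∈ incS p w) (hf : f ∈ incS p w)
    (h1 : P e = true) (h2 : P f = true) : e = f :=
  card_le_one.1 h e (mem_filter.2 ⟨he, h1⟩) f (mem_filter.2 ⟨hf, h2⟩)

lemma two_le_cnt {e f : E} (he : e ∈ incS p w) (hf : f ∈ incS p w) (ne : e ≠ f)
    (h1 : P e = true) (h2 : P f = true) : 2 ≤ cnt p P w := by
  by_contra k
  exact ne (eq_of_cnt_le_one (by omega) he hf h1 h2)

/-- the count of a single edge -/
lemma cnt_single (p : E → Bool → V) (P : E → Bool) (t : E) (w : V) :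
    cnt p (fun e => decide (e = t) && P e) w = if t ∈ incS p w ∧ P t = true then 1 else 0 := by
  split_ifs with h
  · refine card_eq_one.2 ⟨t, eq_singleton_iff_unique_mem.2 ⟨mem_filter.2 ⟨h.1, by simp [h.2]⟩, ?_⟩⟩
    intro e he
    have := (mem_filter.1 he).2
    simp only [Bool.and_eq_true, decide_eq_true_eq] at this
    exact this.1
  · refine cnt_eq_zero.2 fun e he => ?_
    by_cases k : e = t
    · subst k
      simpa [he] using h
    · simp [k]

/-- counts add over disjoint properties -/
lemma cnt_or (h : ∀ e ∈ incS p w, P e = true → Q e = false) :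
    cnt p (fun e => P e || Q e) w = cnt p P w + cnt p Q w := by
  simp only [cnt_eq_sum, ← sum_add_distrib]
  refine sum_congr rfl fun e he => ?_
  have := h e he
  revert this
  cases P e <;> cases Q e <;> simp

lemma enum2 (h : deg p w = 2) : ∃ a b, a ≠ b ∧ (∀ e, e ∈ incS p w ↔ e = a ∨ e = b) ∧
    ∀ P : E → Bool, cnt p P w = (P a).toNat + (P b).toNat := by
  obtain ⟨a, b, ab, e⟩ := card_eq_two.1 h
  exact ⟨a, b, ab, fun x => by simp [e], fun P => by rw [cnt_eq_sum, e, sum_pair ab]⟩

lemma enum3 (h : deg p w = 3) : ∃ a b c, a ≠ b ∧ a ≠ c ∧ b ≠ c ∧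
    (∀ e, e ∈ incS p w ↔ e = a ∨ e = b ∨ e = c) ∧
    ∀ P : E → Bool, cnt p P w = (P a).toNat + (P b).toNat + (P c).toNat := by
  obtain ⟨a, b, c, ab, ac, bc, e⟩ := card_eq_three.1 h
  refine ⟨a, b, c, ab, ac, bc, fun x => by simp [e], fun P => ?_⟩
  rw [cnt_eq_sum, e, sum_insert (by simp [ab, ac]), sum_pair bc, add_assoc]

lemma enum4 (h : deg p w = 4) : ∃ a b c d, a ≠ b ∧ a ≠ c ∧ a ≠ d ∧ b ≠ c ∧ b ≠ d ∧ c ≠ d ∧
    (∀ e, e ∈ incS p w ↔ e = a ∨ e = b ∨ e = c ∨ e = d) ∧
    ∀ P : E → Bool, cnt p P w = (P a).toNat + (P b).toNat + (P c).toNat + (P d).toNat := by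
  obtain ⟨a, b, c, d, ab, ac, ad, bc, bd, cd, e⟩ := card_eq_four.1 h
  refine ⟨a, b, c, d, ab, ac, ad, bc, bd, cd, fun x => by simp [e], fun P => ?_⟩
  rw [cnt_eq_sum, e, sum_insert (by simp [ab, ac, ad]), sum_insert (by simp [bc, bd]), sum_pair cd,
    add_assoc, add_assoc]

/-- every vertex has degree 0, 2, 3 or 4 -/
lemma Gr.deg_cases (g : Gr p side) (w : V) :
    incS p w = ∅ ∨ deg p w = 2 ∨ deg p w = 3 ∨ deg p w = 4 := by
  rcases (incS p w).eq_empty_or_nonempty with h | ⟨e, he⟩
  · exact Or.inl h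
  · obtain ⟨b, rfl⟩ := mem_incS'.1 he
    have := g.two e b
    have := g.le (p e b)
    omega

lemma Gr.deg_end (g : Gr p side) (e : E) (b : Bool) :
    deg p (p e b) = 2 ∨ deg p (p e b) = 3 ∨ deg p (p e b) = 4 := by
  have := g.two e b
  have := g.le (p e b)
  omega

lemma rigid_iff (e : E) (b : Bool) :
    Rigid p e ↔ deg p (p e b) = deg p (p e (!b)) ∧ deg p (p e b) ≠ 4 := by
  cases b
  · simp only [Rigid, Bool.not_false]
    constructor <;> rintro ⟨h1, h2⟩ <;> constructor <;> omega
  · rfl

lemma Fam.deg_hub (hF : Fam p F) (h : cnt p F w = 3) : deg p w = 3 := by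
  by_contra k
  have := hF.f24 w k
  omega

/-- flipping the labels on `J ⊆ F`: the number of A-edges -/
lemma cnt_flipA (hJ : ∀ e, J e = true → F e = true) (L : E → Bool) (w : V) :
    cnt p (fun e => F e && xor (L e) (J e)) w + cnt p (fun e => J e && L e) w =
      cnt p (fun e => F e && L e) w + cnt p (fun e => J e && !L e) w := by
  simp only [cnt_eq_sum, ← sum_add_distrib]
  refine sum_congr rfl fun e _ => ?_
  have := hJ e
  revert this
  cases F e <;> cases L e <;> cases J e <;> simp

/-- flipping the labels on `J ⊆ F`: the number of D-edges -/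
lemma cnt_flipD (hJ : ∀ e, J e = true → F e = true) (L : E → Bool) (w : V) :
    cnt p (fun e => F e && !xor (L e) (J e)) w + cnt p (fun e => J e && !L e) w =
      cnt p (fun e => F e && !L e) w + cnt p (fun e => J e && L e) w := by
  simp only [cnt_eq_sum, ← sum_add_distrib]
  refine sum_congr rfl fun e _ => ?_
  have := hJ e
  revert this
  cases F e <;> cases L e <;> cases J e <;> simp

lemma Lab.flip (h : Lab p F L) (hJ : ∀ e, J e = true → Rev p F e) :
    Lab p F fun e => xor (L e) (J e) := fun e he hr => by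
  have : J e = false := by
    by_contra k
    exact (hJ e (by simpa using k)).2 hr
  simp [this, h e he hr]

lemma Inn.not_pay (hF : Fam p F) {e : E} (h : Inn p F e) : ¬ Pay p F e := by
  rintro ⟨b, -, h1, h2⟩
  have i1 : Inner p F (p e b) := by cases b; exacts [h.2.2, h.2.1]
  have i2 : Inner p F (p e (!b)) := by cases b; exacts [h.2.1, h.2.2]
  rcases i1 with i1 | i1
  · rcases i2 with i2 | i2
    · have := hF.deg_hub i2
      omega
    · omega
  · omega

lemma PayD.unique {e : E} {a b : Bool} (hr : ¬ Rigid p e) (h1 : PayD p F e a) (h2 : PayD p F e b) :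
    a = b := by
  by_contra k
  have : b = !a := by cases a <;> cases b <;> simp at k ⊢
  subst this
  exact hr ((rigid_iff e a).2 ⟨h1.2.1.trans h2.2.1.symm, by rw [h1.2.1]; omega⟩)

lemma Paid.rev (hL : Lab p F L) {e : E} (h : Paid p F L e) : Rev p F e := by
  obtain ⟨⟨b, h1, -⟩, h2⟩ := h
  exact ⟨h1, fun k => by simp [hL e h1 k] at h2⟩

open Classical in
/-- the cost of a vertex -/
noncomputable def cost (p : E → Bool → V) (side : V → Bool) (F L : E → Bool) (w : V) : ℕ :=
  (if cnt p F w = 3 then 1 else 0) + 2 * (if Z4 p F w then 1 else 0) +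
    2 * (if Viol p F L w then 1 else 0) +
    cnt p (fun e => decide (PayD p F e (side w)) && !L e) w

lemma T_eq_sum [Fintype V] (hs : ∀ e b, side (p e b) = b) (hL : Lab p F L) :
    TF p F + TL p F L = ∑ w, cost p side F L w := by
  classical
  have key : npaid p F L = ∑ w, cnt p (fun e => decide (PayD p F e (side w)) && !L e) w := by
    let f : E → V := fun e => if PayD p F e true then p e true else p e false
    unfold npaid
    rw [card_eq_sum_card_fiberwise (f := f) (t := univ) (fun _ _ => by simp)]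
    refine sum_congr rfl fun w _ => ?_
    unfold cnt
    congr 1
    ext e
    simp only [mem_filter, mem_univ, true_and, Bool.and_eq_true, decide_eq_true_eq,
      Bool.not_eq_true', mem_incS_side hs]
    constructor
    · rintro ⟨⟨⟨b, hb⟩, h2⟩, rfl⟩
      by_cases k : PayD p F e true
      · simp only [f, if_pos k, hs]
        exact ⟨trivial, k, h2⟩
      · simp only [f, if_neg k, hs]
        cases b
        exacts [⟨trivial, hb, h2⟩, absurd hb k]
    · rintro ⟨h1, h2, h3⟩
      have hp : Paid p F L e := ⟨⟨_, h2⟩, h3⟩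
      refine ⟨hp, ?_⟩
      by_cases k : PayD p F e true
      · rw [← h1, PayD.unique (hp.rev hL).2 h2 k]
        exact if_pos k
      · have : side w = false := by
          by_contra j
          rw [Bool.not_eq_false] at j
          exact k (j ▸ h2)
        rw [← h1, this]
        exact if_neg k
  simp only [TF, TL, nviol, key, cost, sum_add_distrib, ← mul_sum, card_filter]
  ring

end Pool.Agent.Lib.IC4
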