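import Pool.Agent.Lib.IC4.Defs

/-! Blueprint: the statements of the blocks. -/

namespace Pool.Agent.Lib.IC4
open Finset

universe u v

/-- Tutte: a member of the family without hubs. -/
def St_EX : Prop := ∀ (V : Type u) (E : Type v) [Fintype V] [Fintype E] [DecidableEq V]
  [DecidableEq E] (p : E → Bool → V) (side : V → Bool), Gr p side →
  ∃ F : E → Bool, ∀ w, (deg p w = 3 → cnt p F w = 1) ∧ (deg p w ≠ 3 → cnt p F w = 0 ∨ cnt p F w = 2)

/-- Euler split of the complement of `F` (all its degrees are even); the labels on `F` are kept. -/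
def St_BAL : Prop := ∀ (V : Type u) (E : Type v) [Fintype V] [Fintype E] [DecidableEq V]
  [DecidableEq E] (p : E → Bool → V) (side : V → Bool) (F L : E → Bool), Gr p side → Fam p F →
  MinL p F L → ∃ L', MinL p F L' ∧ TL p F L' = TL p F L ∧ Bal p F L'

/-- a directed path as a unit flow (`o e = side z` means that `e` leaves `z`) -/
def St_PATH : Prop := ∀ (V : Type u) (E : Type v) [Fintype V] [Fintype E] [DecidableEq V]
  [DecidableEq E] (p : E → Bool → V) (side : V → Bool) (o : E → Bool) (R : E → Prop) (w0 w : V),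
  (∀ e b, side (p e b) = b) → Relation.ReflTransGen (Step p o R) w0 w →
  ∃ J : E → Bool, (∀ e, J e = true → R e ∧ ∀ b, Relation.ReflTransGen (Step p o R) w0 (p e b)) ∧
    ∀ z, cnt p (fun e => J e && (o e == side z)) z + (if z = w then 1 else 0) =
      cnt p (fun e => J e && !(o e == side z)) z + (if z = w0 then 1 else 0)

/-- counting: if no reachable vertex has two incoming `F`-edges and no inner edge enters `w0`,
then a reversible edge leaves the reachable set towards a vertex that is not inner -/
def St_KEY : Prop := ∀ (V : Type u) (E : Type v) [Fintype V] [Fintype E] [DecidableEq V]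
  [DecidableEq E] (p : E → Bool → V) (side : V → Bool) (F o : E → Bool) (w0 : V), Gr p side →
  Fam p F → Inner p F w0 →
  (∀ z, Relation.ReflTransGen (Step p o (Inn p F)) w0 z →
    cnt p (fun e => F e && !(o e == side z)) z ≤ 1) →
  (∀ e, Inn p F e → p e (!o e) ≠ w0) →
  ∃ e, Rev p F e ∧ Relation.ReflTransGen (Step p o (Inn p F)) w0 (p e (o e)) ∧
    ¬ Inner p F (p e (!o e))

/-- a cheapest labelling has no violation -/
def St_NOV : Prop := ∀ (V : Type u) (E : Type v) [Fintype V] [Fintype E] [DecidableEq V]
  [DecidableEq E] (p : E → Bool → V) (side : V → Bool) (F L : E → Bool), Gr p side → Fam p F →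
  MinL p F L → ∀ w, ¬ Viol p F L w

/-- single edge flips -/
def St_LOC : Prop := ∀ (V : Type u) (E : Type v) [Fintype V] [Fintype E] [DecidableEq V]
  [DecidableEq E] (p : E → Bool → V) (side : V → Bool) (F L : E → Bool), Gr p side → Fam p F →
  MinL p F L → D3 p F L

/-- every payment can be moved to a second edge, along pairwise disjoint edge sets -/
def St_OPT : Prop := ∀ (V : Type u) (E : Type v) [Fintype V] [Fintype E] [DecidableEq V]
  [DecidableEq E] (p : E → Bool → V) (side : V → Bool) (F L : E → Bool), Gr p side → Fam p F →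
  MinL p F L → ∃ (J : E → E → Bool) (τ : E → E),
    (∀ e, Paid p F L e → (∀ f, J e f = true → Rev p F f) ∧ J e e = true ∧ J e (τ e) = true ∧
      Pay p F (τ e) ∧ L (τ e) = true ∧ (∀ f, J e f = true → Pay p F f → f = e ∨ f = τ e) ∧
      ∀ w, Inner p F w → cnt p (fun f => J e f && L f) w = cnt p (fun f => J e f && !L f) w) ∧
    ∀ e e' f, Paid p F L e → Paid p F L e' → J e f = true → J e' f = true → e = e'

/-- choice of one option per payment without conflicts -/
def St_SEL : Prop := ∀ (V : Type u) (E : Type v) [Fintype V] [Fintype E] [DecidableEq V]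
  [DecidableEq E] (p : E → Bool → V) (side : V → Bool) (F L : E → Bool), Gr p side → Fam p F →
  MinL p F L → Bal p F L → ∃ L', Nice p F L' ∧ TL p F L' ≤ TL p F L

/-- the constraints are solvable, or an admissible set passes a root by C and D -/
def St_PAR : Prop := ∀ (V : Type u) (E : Type v) [Fintype V] [Fintype E] [DecidableEq V]
  [DecidableEq E] (p : E → Bool → V) (side : V → Bool) (F L : E → Bool), Gr p side → Nice p F L →
  (∃ b : E → Bool, ∀ w e f, Cn p F L w e f → b e ≠ b f) ∨
    ∃ W, Adm p F L W ∧ ∃ g, Gain p F L W g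

/-- a smallest admissible set with a gain contains no ZZZZ vertex completely -/
def St_MINW : Prop := ∀ (V : Type u) (E : Type v) [Fintype V] [Fintype E] [DecidableEq V]
  [DecidableEq E] (p : E → Bool → V) (side : V → Bool) (F L W : E → Bool), Gr p side →
  Nice p F L → Adm p F L W → (∃ g, Gain p F L W g) →
  ∃ W', Adm p F L W' ∧ (∃ g, Gain p F L W' g) ∧ ∀ w, Z4 p F w → cnt p W' w ≠ 4

/-- toggling along `W` lowers the potential -/
def St_TOG : Prop := ∀ (V : Type u) (E : Type v) [Fintype V] [Fintype E] [DecidableEq V]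
  [DecidableEq E] (p : E → Bool → V) (side : V → Bool) (F L W : E → Bool), Gr p side →
  Nice p F L → Adm p F L W → (∃ g, Gain p F L W g) → (∀ w, Z4 p F w → cnt p W w ≠ 4) →
  ∃ F' L', Fam p F' ∧ Lab p F' L' ∧ TF p F' + TL p F' L' < TF p F + TL p F L

/-- the colour table -/
def St_COL : Prop := ∀ (V : Type u) (E : Type v) [Fintype V] [Fintype E] [DecidableEq V]
  [DecidableEq E] (p : E → Bool → V) (side : V → Bool) (F L b : E → Bool), Gr p side →
  Nice p F L → (∀ w e f, Cn p F L w e f → b e ≠ b f) → ∃ c, ZCol p c

end Pool.Agent.Lib.IC4
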