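import Pool.Agent.Lib.IC4.BR81

/-! Blueprint for: bridgeless bipartite multigraphs of maximum degree at most four are interval
colourable. `F e` = the edge is frozen, `r e` = the edge is an `R`-edge. Labels: `A` = `F`, not `r`;
`D` = `F`, `r`; `B` = not `F`, `r`; `C` = not `F`, not `r`. -/

set_option linter.unusedSectionVars false

namespace Pool.Agent.Lib.IC4.B
open Finset

universe u v

/-- bipartite multigraph with degrees `0, 2, 3, 4` -/
structure Gr (V : Type u) (E : Type v) [Fintype E] [DecidableEq V] where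
  p : E → Bool → V
  side : V → Bool
  hs : ∀ e b, side (p e b) = b
  hd : ∀ w, (incS p w).card ≤ 4
  h1 : ∀ w, (incS p w).card ≠ 1

variable {V : Type u} {E : Type v} [Fintype V] [Fintype E] [DecidableEq V] [DecidableEq E]

namespace Gr
variable (g : Gr V E)

/-- edges at a vertex -/
def inc (w : V) : Finset E := incS g.p w
/-- degree -/
def deg (w : V) : ℕ := (g.inc w).card
/-- number of `F`-edges at a vertex -/
def nF (F : E → Bool) (w : V) : ℕ := ((g.inc w).filter fun e => F e = true).card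
/-- number of edges at `w` with the label `(x, y)`: `A = (true,false)`, `D = (true,true)`,
`B = (false,true)`, `C = (false,false)` -/
def nL (F r : E → Bool) (x y : Bool) (w : V) : ℕ :=
  ((g.inc w).filter fun e => F e = x ∧ r e = y).card
/-- both ends have degree `k` -/
def Both (k : ℕ) (e : E) : Prop := g.deg (g.p e true) = k ∧ g.deg (g.p e false) = k
instance (k : ℕ) : DecidablePred (g.Both k) := fun _ => inferInstanceAs (Decidable (_ ∧ _))
/-- a `D`-edge without an end of degree four -/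
def Dp (F r : E → Bool) (e : E) : Prop :=
  F e = true ∧ r e = true ∧ g.deg (g.p e true) ≠ 4 ∧ g.deg (g.p e false) ≠ 4
instance (F r : E → Bool) : DecidablePred (g.Dp F r) :=
  fun _ => inferInstanceAs (Decidable (_ ∧ _))
/-- the family of admissible `F` -/
def Fam (F : E → Bool) : Prop := ∀ w,
  (g.deg w = 3 → g.nF F w = 1 ∨ (g.nF F w = 3 ∧ ((g.inc w).filter (g.Both 3)).card ≤ 1)) ∧
  (g.deg w ≠ 3 → g.nF F w = 0 ∨ g.nF F w = 2)
/-- rigid `F`-edges are `A`-edges -/
def Lab (F r : E → Bool) : Prop := ∀ e, F e = true → g.Both 3 e ∨ g.Both 2 e → r e = false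
/-- cost of a vertex -/
def cost (F r : E → Bool) (w : V) : ℕ :=
  if g.deg w = 4 then (if g.nL F r true false w = 1 ∧ g.nL F r true true w = 1 then 0 else 1)
  else if g.deg w = 3 then
    (if g.nF F w = 1 then g.nL F r true true w
     else 1 + (if g.nL F r true false w = 0 ∨ g.nL F r true true w = 0 then 1 else 0) +
       ((g.inc w).filter (g.Dp F r)).card)
  else 0
/-- total cost -/
def T (F r : E → Bool) : ℕ := ∑ w, g.cost F r w
/-- vertex of type `BCD` -/
def Root (F r : E → Bool) (w : V) : Prop :=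
  g.deg w = 3 ∧ g.nF F w = 1 ∧ g.nL F r true true w = 1

/-- the normal form of a labelling -/
structure Good (F r : E → Bool) : Prop where
  fam : g.Fam F
  lab : g.Lab F r
  bal : ∀ w, g.nL F r false true w = g.nL F r false false w
  nv : ∀ w, 3 ≤ g.deg w → 2 ≤ g.nF F w → 1 ≤ g.nL F r true false w ∧ 1 ≤ g.nL F r true true w
  rr : ∀ e, F e = false → r e = true → ¬ (g.Root F r (g.p e true) ∧ g.Root F r (g.p e false))
  dd : ∀ w, g.deg w = 2 → ∀ e ∈ g.inc w, ∀ f ∈ g.inc w, g.Dp F r e → g.Dp F r f → e = f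
  dp : ∀ e, g.Dp F r e → ∀ b, g.deg (g.p e b) = 2 ∨ g.nL F r true false (g.p e b) = 2

/-- the constraints that two parity bits differ -/
def R (F r : E → Bool) (w : V) (e f : E) : Prop :=
  e ∈ g.inc w ∧ f ∈ g.inc w ∧ e ≠ f ∧
    ((3 ≤ g.deg w ∧ r e = r f) ∨ (g.Root F r w ∧ F e = false ∧ F f = false) ∨
      (g.deg w = 2 ∧ ¬ g.Dp F r e ∧ ¬ g.Dp F r f))

/-- an edge set that can be toggled with a gain -/
structure Adm (F r : E → Bool) (W : Finset E) : Prop where
  even : ∀ w, Even ((g.inc w).filter (· ∈ W)).card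
  pair : ∀ w, 3 ≤ g.deg w → 1 ≤ g.nF F w → ¬ g.Root F r w →
    ∀ e ∈ g.inc w, ∀ f ∈ g.inc w, r e = r f → (e ∈ W ↔ f ∈ W)
  four : ∀ w, g.deg w = 4 → g.nF F w = 0 → ((g.inc w).filter (· ∈ W)).card ≠ 4
  noDp : ∀ e, g.Dp F r e → e ∉ W
  gain : ∃ w, g.Root F r w ∧ ∀ e ∈ g.inc w, e ∈ W ↔ ¬ (F e = false ∧ r e = true)

end Gr

def St_EUL (g : Gr V E) : Prop :=
  ∀ F, g.Fam F → ∃ r, ∀ w, g.nL F r false true w = g.nL F r false false w

def St_SEL (g : Gr V E) : Prop :=
  ∀ F r, g.Fam F → g.Lab F r → (∀ r', g.Lab F r' → g.T F r ≤ g.T F r') →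
    ∃ r', g.Good F r' ∧ g.T F r' ≤ g.T F r

def St_PAR (g : Gr V E) : Prop :=
  ∀ F r, g.Good F r → (∃ b : E → Bool, ∀ w e f, g.R F r w e f → b e ≠ b f) ∨ ∃ W, g.Adm F r W

def St_TOG (g : Gr V E) : Prop :=
  ∀ F r W, g.Good F r → g.Adm F r W → ∃ F' r', g.Fam F' ∧ g.Lab F' r' ∧ g.T F' r' < g.T F r

def St_COL (g : Gr V E) : Prop :=
  ∀ F r (b : E → Bool), g.Good F r → (∀ w e f, g.R F r w e f → b e ≠ b f) → ∃ c, ZCol g.p c

theorem main_of (g : Gr V E) (hE : ∃ F, g.Fam F) (hS : St_SEL g) (hP : St_PAR g) (hT : St_TOG g)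
    (hC : St_COL g) : ∃ c, ZCol g.p c := by
  classical
  obtain ⟨F0, h0⟩ := hE
  have hex : ∃ n, ∃ F r, g.Fam F ∧ g.Lab F r ∧ g.T F r = n :=
    ⟨_, F0, fun _ => false, h0, fun _ _ _ => rfl, rfl⟩
  obtain ⟨F, r, hF, hr, hn⟩ := Nat.find_spec hex
  have hmin : ∀ F' r', g.Fam F' → g.Lab F' r' → g.T F r ≤ g.T F' r' := fun F' r' h1 h2 =>
    hn ▸ Nat.find_min' hex ⟨F', r', h1, h2, rfl⟩
  obtain ⟨r', hg, ht⟩ := hS F r hF hr fun r' => hmin F r' hF
  rcases hP F r' hg with ⟨b, hb⟩ | ⟨W, hW⟩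
  · exact hC F r' b hg hb
  · obtain ⟨F2, r2, h1, h2, h3⟩ := hT F r' W hg hW
    exact absurd (hmin F2 r2 h1 h2) (by omega)

lemma Gr.mem_inc (g : Gr V E) {w : V} {e : E} : e ∈ g.inc w ↔ g.p e (g.side w) = w := by
  simp only [Gr.inc, incS, mem_filter, mem_univ, true_and]
  refine ⟨?_, fun h => ?_⟩
  · rintro (h | h) <;> rw [← h, g.hs]
  · revert h; cases g.side w <;> tauto

lemma Gr.inc_end (g : Gr V E) (e : E) (b : Bool) : e ∈ g.inc (g.p e b) := by
  rw [g.mem_inc, g.hs]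

end Pool.Agent.Lib.IC4.B
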