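import Pool.Agent.Lib.IC4.TOG2

/-! Block COL: the colour table. -/

set_option linter.unusedSectionVars false

namespace Pool.Agent.Lib.IC4
open Finset

universe u v

namespace COL2
open TOG2
variable {V : Type u} {E : Type v} [Fintype V] [Fintype E] [DecidableEq V] [DecidableEq E]
  {p : E → Bool → V} {side : V → Bool} {F L : E → Bool}

/-- the colour of an edge from its type, its bit and the flag `o` (outer value of a D-edge) -/
def val (f l b o : Bool) : ℤ :=
  if l then (if b then 3 else 4) else if f && o then (if b then 1 else 6) else (if b then 5 else 2)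

/-- the colours `c` are distinct and consecutive at `w` -/
def Ok (p : E → Bool → V) (c : E → ℤ) (w : V) : Prop :=
  ∃ a : ℤ, (∀ e ∈ incS p w, a ≤ c e ∧ c e < a + (incS p w).card) ∧
    ∀ e ∈ incS p w, ∀ f ∈ incS p w, c e = c f → e = f

/-- a list of distinct consecutive colours -/
def Iv (l : List ℤ) : Prop := l.Nodup ∧ ∃ a ∈ [(1 : ℤ), 2, 3, 4, 5], ∀ x ∈ l, a ≤ x ∧ x < a + l.length

instance (l : List ℤ) : Decidable (Iv l) := by unfold Iv; infer_instance

theorem ok_of {c : E → ℤ} {w : V} (l : List E) (h : incS p w = l.toFinset)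
    (hl : l.length = deg p w) (k : Iv (l.map c)) : Ok p c w := by
  obtain ⟨k1, a, -, k2⟩ := k
  refine ⟨a, fun e he => ?_, fun e he f hf j => ?_⟩
  · have := k2 (c e) (List.mem_map_of_mem (by simpa [h] using he))
    rwa [List.length_map, hl] at this
  · exact List.inj_on_of_nodup_map k1 (by simpa [h] using he) (by simpa [h] using hf) j

theorem col4 : ∀ f1 f2 f3 f4 : Bool, (n4 f1 f2 f3 f4 = 0 ∨ n4 f1 f2 f3 f4 = 2) →
    ∀ l1 l2 l3 l4 : Bool, n4 (!f1 && l1) (!f2 && l2) (!f3 && l3) (!f4 && l4) =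
      n4 (!f1 && !l1) (!f2 && !l2) (!f3 && !l3) (!f4 && !l4) →
    ¬ (n4 f1 f2 f3 f4 = 2 ∧ (n4 (f1 && l1) (f2 && l2) (f3 && l3) (f4 && l4) = 0 ∨
      n4 (f1 && !l1) (f2 && !l2) (f3 && !l3) (f4 && !l4) = 0)) →
    ∀ b1 b2 b3 b4 : Bool,
    (((l1 = l2 → b1 ≠ b2) ∧ (l1 = l3 → b1 ≠ b3) ∧ (l1 = l4 → b1 ≠ b4)) ∧
        (l2 = l3 → b2 ≠ b3) ∧ (l2 = l4 → b2 ≠ b4) ∧ (l3 = l4 → b3 ≠ b4)) →
    ∀ o1 o2 o3 o4 : Bool,
      Iv [val f1 l1 b1 o1, val f2 l2 b2 o2, val f3 l3 b3 o3, val f4 l4 b4 o4] := by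
  intro f1 f2 f3 f4 h l1 l2 l3 l4 h1 h2
  cases f1 <;> cases f2 <;> cases f3 <;> cases f4 <;> cases l1 <;> cases l2 <;> cases l3 <;>
    cases l4 <;> first | (exfalso; revert h h1 h2; decide) | decide +kernel

theorem col3 : ∀ f1 f2 f3 : Bool, (n3 f1 f2 f3 = 1 ∨ n3 f1 f2 f3 = 3) →
    ∀ l1 l2 l3 : Bool, n3 (!f1 && l1) (!f2 && l2) (!f3 && l3) =
      n3 (!f1 && !l1) (!f2 && !l2) (!f3 && !l3) →
    ¬ (n3 f1 f2 f3 = 3 ∧ (n3 (f1 && l1) (f2 && l2) (f3 && l3) = 0 ∨
      n3 (f1 && !l1) (f2 && !l2) (f3 && !l3) = 0)) →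
    ∀ b1 b2 b3 : Bool, ((l1 = l2 → b1 ≠ b2) ∧ (l1 = l3 → b1 ≠ b3) ∧ (l2 = l3 → b2 ≠ b3)) →
    (n3 f1 f2 f3 = 1 ∧ n3 (f1 && l1) (f2 && l2) (f3 && l3) = 0 →
      ((f1 || f2) = false → b1 ≠ b2) ∧ ((f1 || f3) = false → b1 ≠ b3) ∧
        ((f2 || f3) = false → b2 ≠ b3)) →
    ∃ o1 o2 o3 : Bool, (n3 f1 f2 f3 = 3 ∧ n3 (f1 && !l1) (f2 && !l2) (f3 && !l3) = 1 →
      (o1 || o2 || o3) = false) ∧ Iv [val f1 l1 b1 o1, val f2 l2 b2 o2, val f3 l3 b3 o3] := by
  intro f1 f2 f3 h l1 l2 l3 h1 h2 b1 b2 b3 h3 h4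
  cases f1 <;> cases f2 <;> cases f3 <;> cases l1 <;> cases l2 <;> cases l3 <;>
    first | (exfalso; revert h h1 h2; decide) | (cases b1 <;> cases b2 <;> cases b3 <;>
      first | decide +kernel | (exfalso; revert h3; decide) | (exfalso; revert h4; decide))

theorem col2 : ∀ f1 f2 l1 l2 : Bool, f1 = f2 →
    (!f1 && l1).toNat + (!f2 && l2).toNat = (!f1 && !l1).toNat + (!f2 && !l2).toNat →
    ∀ b1 b2 : Bool, b1 ≠ b2 → ∀ d1 d2 : Bool, (d1 && d2) = false →
    ∃ o1 o2 : Bool, (d1 && o1) = false ∧ (d2 && o2) = false ∧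
      Iv [val f1 l1 b1 o1, val f2 l2 b2 o2] := by decide +kernel

theorem dp_ends (g : Gr p side) (N : Nice p F L) {e : E} (h : Dp p F L e) (s : Bool) :
    (deg p (p e s) = 2 ∧ deg p (p e (!s)) = 3) ∨ (deg p (p e s) = 3 ∧ deg p (p e (!s)) = 2) := by
  obtain ⟨h1, h2, h3, h4⟩ := h
  have : deg p (p e true) ≠ deg p (p e false) := fun k => by
    have := N.lab e h1 ⟨k, h3⟩
    simp [h2] at this
  have := g.two e true
  have := g.two e false
  have := g.le (p e true)
  have := g.le (p e false)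
  cases s <;> simp only [Bool.not_true, Bool.not_false] <;> omega

theorem dp_hub (g : Gr p side) (N : Nice p F L) {e : E} (h : Dp p F L e) {w : V}
    (he : e ∈ incS p w) (hw : deg p w = 3) :
    cnt p F w = 3 ∧ cnt p (fun f => F f && !L f) w = 1 := by
  have m := (mem_inc g.hs).1 he
  have := dp_ends g N h (side w)
  rcases N.d3 e (side w) h.1 h.2.1 (by rw [m, hw]) with k | k
  · omega
  · rw [m] at k; exact k.2

/-- bits for the edges of type D' -/
theorem bits (g : Gr p side) (N : Nice p F L) (b : E → Bool)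
    (hb : ∀ w e f, Cn p F L w e f → b e ≠ b f) : ∃ β : E → Bool, ∀ w, ∀ e ∈ incS p w,
      ∀ f ∈ incS p w, e ≠ f → (L e = L f ∨ deg p w = 2 ∨
        (Root p F L w ∧ F e = false ∧ F f = false)) → β e ≠ β f := by
  classical
  let β : E → Bool := fun e => if Dp p F L e then
    !decide (∃ f s, f ≠ e ∧ deg p (p e s) = 2 ∧ p f s = p e s ∧ b f = true) else b e
  have key : ∀ w, ∀ e ∈ incS p w, ∀ f ∈ incS p w, e ≠ f → Dp p F L e →
      (L e = L f ∨ deg p w = 2 ∨ (Root p F L w ∧ F e = false ∧ F f = false)) → β e ≠ β f := by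
    intro w e he f hf hne hd hc
    have me := (mem_inc g.hs).1 he
    have mf := (mem_inc g.hs).1 hf
    have t := dp_ends g N hd (side w)
    rw [me] at t
    rcases t with ⟨t1, t2⟩ | ⟨t1, t2⟩
    · have nf : ¬ Dp p F L f := fun k =>
        hne (N.pp e f (side w) (me.trans mf.symm) (by rw [me, t1]) hd k)
      have : (∃ f s, f ≠ e ∧ deg p (p e s) = 2 ∧ p f s = p e s ∧ b f = true) ↔ b f = true := by
        refine ⟨?_, fun k => ⟨f, side w, hne.symm, by rw [me, t1], mf.trans me.symm, k⟩⟩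
        rintro ⟨f', s, j1, j2, j3, j4⟩
        have hs : s = side w := by
          by_contra c
          rw [show s = !side w by revert c; cases s <;> cases side w <;> simp] at j2
          omega
        subst hs
        have hf' := (mem_inc g.hs).2 (j3.trans me)
        by_contra c
        have : 2 < (incS p w).card := two_lt_card_iff.2
          ⟨e, f, f', he, hf, hf', hne, j1.symm, fun k => c (k ▸ j4)⟩
        unfold deg at t1
        omega
      simp only [β, if_pos hd, if_neg nf, this]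
      cases b f <;> simp
    · obtain ⟨u1, u2⟩ := dp_hub g N hd he t1
      rcases hc with hc | hc | hc
      · have a1 : (incS p w).filter (fun e => F e = true) = incS p w :=
          eq_of_subset_of_card_le (filter_subset _ _) (by unfold cnt deg at *; omega)
        have a2 : F f = true := (mem_filter.1 (a1.ge hf)).2
        refine absurd (card_le_one.1 u2.le e ?_ f ?_) hne
        · simp [he, hd.1, hd.2.1]
        · simp [hf, a2, ← hc, hd.2.1]
      · omega
      · simp [hd.1] at hc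
  refine ⟨β, fun w e he f hf hne hc => ?_⟩
  by_cases h1 : Dp p F L e
  · exact key w e he f hf hne h1 hc
  by_cases h2 : Dp p F L f
  · exact (key w f hf e he hne.symm h2 (by tauto)).symm
  simp only [β, if_neg h1, if_neg h2]
  refine hb w e f ⟨he, hf, hne, ?_⟩
  rcases hc with hc | hc | hc
  · cases k : L f
    · exact Or.inr (Or.inl ⟨h1, h2, Or.inl ⟨hc.trans k, rfl⟩⟩)
    · exact Or.inl ⟨hc.trans k, rfl⟩
  · exact Or.inr (Or.inl ⟨h1, h2, Or.inr hc⟩)
  · exact Or.inr (Or.inr hc)

theorem low (g : Gr p side) (N : Nice p F L) {β : E → Bool} (w : V) (hβ : ∀ e ∈ incS p w,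
      ∀ f ∈ incS p w, e ≠ f → (L e = L f ∨ deg p w = 2 ∨
        (Root p F L w ∧ F e = false ∧ F f = false)) → β e ≠ β f) :
    ∃ o : E → Bool, (∀ e ∈ incS p w, Dp p F L e → o e = false) ∧
      (deg p w ≠ 4 → Ok p (fun e => val (F e) (L e) (β e) (o e)) w) := by
  classical
  by_cases h3 : deg p w = 3
  · obtain ⟨a, b, c, n1, n2, n3', q, k⟩ := inc3 h3
    have a1 := N.fam.f3 w h3
    have a2 := N.bal w
    have a3 := N.nov w
    simp only [Viol, Inner, k, h3] at a1 a2 a3
    have ma : a ∈ incS p w := by simp [q]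
    have mb : b ∈ incS p w := by simp [q]
    have mc : c ∈ incS p w := by simp [q]
    obtain ⟨o1, o2, o3, j1, j2⟩ := col3 _ _ _ a1 _ _ _ a2 (fun z => a3 ⟨Or.inl z.1, z.2⟩)
      (β a) (β b) (β c) ⟨fun z => hβ a ma b mb n1 (Or.inl z), fun z => hβ a ma c mc n2 (Or.inl z),
        fun z => hβ b mb c mc n3' (Or.inl z)⟩ fun z => by
      have r : Root p F L w := ⟨h3, by rw [k]; exact z.1, by rw [k]; exact z.2⟩
      simp only [Bool.or_eq_false_iff]
      exact ⟨fun z => hβ a ma b mb n1 (Or.inr (Or.inr ⟨r, z⟩)),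
        fun z => hβ a ma c mc n2 (Or.inr (Or.inr ⟨r, z⟩)),
        fun z => hβ b mb c mc n3' (Or.inr (Or.inr ⟨r, z⟩))⟩
    refine ⟨fun e => if e = a then o1 else if e = b then o2 else o3, fun e he hd => ?_, fun _ => ?_⟩
    · have := dp_hub g N hd he h3
      simp only [k] at this
      have := j1 this
      simp only [Bool.or_eq_false_iff] at this
      simp [this]
    · refine ok_of [a, b, c] (by simp [q]) h3.symm ?_
      simpa [n1.symm, n2.symm, n3'.symm] using j2
  by_cases h2 : deg p w = 2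
  · obtain ⟨a, b, n1, q⟩ := card_eq_two.1 h2
    have k : ∀ P, cnt p P w = (P a).toNat + (P b).toNat := fun P => by
      rw [cnt_sum, q, sum_pair n1]
    have a1 := N.fam.f24 w h3
    have a2 := N.bal w
    simp only [k] at a1 a2
    have ma : a ∈ incS p w := by simp [q]
    have mb : b ∈ incS p w := by simp [q]
    obtain ⟨o1, o2, j1, j2, j3⟩ := col2 (F a) (F b) (L a) (L b)
      (by revert a1; cases F a <;> cases F b <;> simp) a2 (β a) (β b)
      (hβ a ma b mb n1 (Or.inr (Or.inl h2))) (decide (Dp p F L a)) (decide (Dp p F L b)) (by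
        by_contra c
        simp only [Bool.not_eq_false, Bool.and_eq_true, decide_eq_true_eq] at c
        exact n1 (N.pp a b (side w) (((mem_inc g.hs).1 ma).trans ((mem_inc g.hs).1 mb).symm)
          (by rw [(mem_inc g.hs).1 ma, h2]) c.1 c.2))
    refine ⟨fun e => if e = a then o1 else o2, fun e he hd => ?_, fun _ => ?_⟩
    · simp only [q, mem_insert, mem_singleton] at he
      rcases he with rfl | rfl
      · simpa [hd] using j1
      · simpa [hd, n1.symm] using j2
    · refine ok_of [a, b] (by simp [q]) h2.symm ?_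
      simpa [n1.symm] using j3
  refine ⟨fun _ => false, fun _ _ _ => rfl, fun h4 => ⟨0, fun e he => ?_, fun e he => ?_⟩⟩ <;>
  · have := g.two e (side w)
    have := g.le w
    rw [(mem_inc g.hs).1 he] at *
    omega

end COL2

theorem stCOL2 : St_COL.{u, v} := by
  classical
  intro V E _ _ _ _ p side F L b g N hb
  obtain ⟨β, hβ⟩ := COL2.bits g N b hb
  choose o h1 h2 using fun w => COL2.low g N w (hβ w)
  let O : E → Bool := fun e => if deg p (p e true) = 4 then o (p e false) e else o (p e true) e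
  refine ⟨fun e => COL2.val (F e) (L e) (β e) (O e), fun w => ?_⟩
  by_cases h : deg p w = 4
  · obtain ⟨a, t, ha, e, ht⟩ := card_eq_succ.1 h
    obtain ⟨b, c, d, n1, n2, n3, rfl⟩ := card_eq_three.1 ht
    have k : ∀ P, cnt p P w = TOG2.n4 (P a) (P b) (P c) (P d) := fun P => by
      rw [TOG2.cnt_sum, ← e, sum_insert ha, sum_insert (by simp [n1, n2]), sum_pair n3, TOG2.n4]
    simp only [mem_insert, mem_singleton, not_or] at ha
    have a1 := N.fam.f24 w (by omega)
    have a2 := N.bal w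
    have a3 := N.nov w
    simp only [Viol, Inner, k, h, true_and] at a1 a2 a3
    have m := hβ w
    simp only [← e] at m
    exact COL2.ok_of [a, b, c, d] (by simp [← e]) h.symm
      (COL2.col4 _ _ _ _ a1 _ _ _ _ a2 (fun z => a3 ⟨Or.inr z.1, z.2⟩) _ _ _ _
        ⟨⟨fun z => m a (by simp) b (by simp) ha.1 (Or.inl z),
          fun z => m a (by simp) c (by simp) ha.2.1 (Or.inl z),
          fun z => m a (by simp) d (by simp) ha.2.2 (Or.inl z)⟩,
          fun z => m b (by simp) c (by simp) n1 (Or.inl z),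
          fun z => m b (by simp) d (by simp) n2 (Or.inl z),
          fun z => m c (by simp) d (by simp) n3 (Or.inl z)⟩ _ _ _ _)
  · have key : ∀ e ∈ incS p w, COL2.val (F e) (L e) (β e) (O e) =
        COL2.val (F e) (L e) (β e) (o w e) := by
      intro e he
      have m := (TOG2.mem_inc g.hs).1 he
      by_cases k : O e = o w e
      · rw [k]
      have : ¬ (F e = true ∧ L e = false) := by
        rintro ⟨k1, k2⟩
        refine k ?_
        by_cases j : deg p (p e true) = 4
        · have : side w = false := by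
            by_contra c
            rw [Bool.not_eq_false] at c
            rw [c] at m
            exact h (m ▸ j)
          rw [this] at m
          simp only [O, if_pos j, m]
        · simp only [O, if_neg j]
          cases c : side w <;> rw [c] at m
          · have d : Dp p F L e := ⟨k1, k2, j, m ▸ h⟩
            rw [h1 w e he d, h1 _ e (by simp [incS]) d]
          · rw [m]
      revert this
      cases F e <;> cases L e <;> simp [COL2.val]
    obtain ⟨a, k1, k2⟩ := h2 w h
    exact ⟨a, fun e he => by beta_reduce; rw [key e he]; exact k1 e he,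
      fun e he f hf j => k2 e he f hf (by beta_reduce; rw [← key e he, ← key f hf]; exact j)⟩

end Pool.Agent.Lib.IC4
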