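import Pool.Agent.Lib.IC4.BR81

/-! Definitions for the proof that bipartite multigraphs of maximum degree four are interval
colourable.  Model: edges `E`, the end of `e` on side `b` is `p e b`.
`F` = family subgraph, `L` = label.  Edge types: A = `F ∧ L`, D = `F ∧ ¬ L`, C = `¬ F ∧ L`,
B = `¬ F ∧ ¬ L`. -/

set_option linter.unusedSectionVars false

namespace Pool.Agent.Lib.IC4
open Finset

universe u v
variable {V : Type u} {E : Type v} [Fintype E] [DecidableEq V]

/-- number of edges at `w` -/
def deg (p : E → Bool → V) (w : V) : ℕ := (incS p w).card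

/-- number of edges at `w` with the property `P` -/
def cnt (p : E → Bool → V) (P : E → Bool) (w : V) : ℕ :=
  ((incS p w).filter fun e => P e = true).card

/-- bridgeless bipartite multigraph with degrees in `{0, 2, 3, 4}` -/
structure Gr (p : E → Bool → V) (side : V → Bool) : Prop where
  hs : ∀ e b, side (p e b) = b
  le : ∀ w, deg p w ≤ 4
  nb : NoBridge p
  two : ∀ e b, 2 ≤ deg p (p e b)

/-- the family; a hub is a vertex with `cnt p F w = 3` -/
structure Fam (p : E → Bool → V) (F : E → Bool) : Prop where
  f3 : ∀ w, deg p w = 3 → cnt p F w = 1 ∨ cnt p F w = 3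
  f24 : ∀ w, deg p w ≠ 3 → cnt p F w = 0 ∨ cnt p F w = 2
  hub : ∀ e f b, p e b = p f b → cnt p F (p e b) = 3 → deg p (p e (!b)) = 3 →
    deg p (p f (!b)) = 3 → e = f

/-- edges between two 3-vertices or two 2-vertices -/
def Rigid (p : E → Bool → V) (e : E) : Prop :=
  deg p (p e true) = deg p (p e false) ∧ deg p (p e true) ≠ 4

/-- reversible edges -/
def Rev (p : E → Bool → V) (F : E → Bool) (e : E) : Prop := F e = true ∧ ¬ Rigid p e

/-- rigid edges of `F` are labelled A -/
def Lab (p : E → Bool → V) (F L : E → Bool) : Prop := ∀ e, F e = true → Rigid p e → L e = true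

def Inner (p : E → Bool → V) (F : E → Bool) (w : V) : Prop :=
  cnt p F w = 3 ∨ (deg p w = 4 ∧ cnt p F w = 2)

def Viol (p : E → Bool → V) (F L : E → Bool) (w : V) : Prop :=
  Inner p F w ∧ (cnt p (fun e => F e && L e) w = 0 ∨ cnt p (fun e => F e && !L e) w = 0)

/-- `e` costs one unit at its end on side `b` when it is labelled D -/
def PayD (p : E → Bool → V) (F : E → Bool) (e : E) (b : Bool) : Prop :=
  F e = true ∧ deg p (p e b) = 3 ∧ (cnt p F (p e b) = 1 ∨ deg p (p e (!b)) = 2)

def Pay (p : E → Bool → V) (F : E → Bool) (e : E) : Prop := ∃ b, PayD p F e b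

def Paid (p : E → Bool → V) (F L : E → Bool) (e : E) : Prop := Pay p F e ∧ L e = false

/-- 4-vertices of type ZZZZ -/
def Z4 (p : E → Bool → V) (F : E → Bool) (w : V) : Prop := deg p w = 4 ∧ cnt p F w = 0

/-- 3-vertices whose only `F`-edge is labelled D -/
def Root (p : E → Bool → V) (F L : E → Bool) (w : V) : Prop :=
  deg p w = 3 ∧ cnt p F w = 1 ∧ cnt p (fun e => F e && L e) w = 0

open Classical in
noncomputable def nviol [Fintype V] (p : E → Bool → V) (F L : E → Bool) : ℕ :=
  (univ.filter fun w => Viol p F L w).card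

open Classical in
noncomputable def npaid (p : E → Bool → V) (F L : E → Bool) : ℕ :=
  (univ.filter fun e => Paid p F L e).card

/-- the part of the potential that depends on the labels -/
noncomputable def TL [Fintype V] (p : E → Bool → V) (F L : E → Bool) : ℕ :=
  2 * nviol p F L + npaid p F L

open Classical in
/-- the part of the potential that depends on `F` only -/
noncomputable def TF [Fintype V] (p : E → Bool → V) (F : E → Bool) : ℕ :=
  (univ.filter fun w => cnt p F w = 3).card + 2 * (univ.filter fun w => Z4 p F w).card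

/-- `L` is a cheapest labelling of `F` -/
def MinL [Fintype V] (p : E → Bool → V) (F L : E → Bool) : Prop :=
  Lab p F L ∧ ∀ L', Lab p F L' → TL p F L ≤ TL p F L'

/-- as many C-edges as B-edges at every vertex -/
def Bal (p : E → Bool → V) (F L : E → Bool) : Prop :=
  ∀ w, cnt p (fun e => !F e && L e) w = cnt p (fun e => !F e && !L e) w

/-- D-edges at 3-vertices: the other end has degree 4, or the vertex is a hub of type AAD' -/
def D3 (p : E → Bool → V) (F L : E → Bool) : Prop :=
  ∀ e b, F e = true → L e = false → deg p (p e b) = 3 → deg p (p e (!b)) = 4 ∨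
    (deg p (p e (!b)) = 2 ∧ cnt p F (p e b) = 3 ∧ cnt p (fun f => F f && !L f) (p e b) = 1)

/-- D-edges without an end of degree four (type D') -/
def Dp (p : E → Bool → V) (F L : E → Bool) (e : E) : Prop :=
  F e = true ∧ L e = false ∧ deg p (p e true) ≠ 4 ∧ deg p (p e false) ≠ 4

/-- vertex types: ABCD, BBCC; ABC, BCD (root), ADD, AAD, AAD'; BC, AA, AD, DD, AD', DD' -/
structure Nice (p : E → Bool → V) (F L : E → Bool) : Prop where
  fam : Fam p F
  lab : Lab p F L
  bal : Bal p F L
  nov : ∀ w, ¬ Viol p F L w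
  d3 : D3 p F L
  rr : ∀ e, F e = false → L e = false → Root p F L (p e true) → ¬ Root p F L (p e false)
  pp : ∀ e f b, p e b = p f b → deg p (p e b) = 2 → Dp p F L e → Dp p F L f → e = f

/-- the constraints: the bits of `e` and `f` must differ -/
def Cn (p : E → Bool → V) (F L : E → Bool) (w : V) (e f : E) : Prop :=
  e ∈ incS p w ∧ f ∈ incS p w ∧ e ≠ f ∧ ((L e = true ∧ L f = true) ∨
    (¬ Dp p F L e ∧ ¬ Dp p F L f ∧ ((L e = false ∧ L f = false) ∨ deg p w = 2)) ∨
    (Root p F L w ∧ F e = false ∧ F f = false))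

/-- admissible edge sets -/
structure Adm (p : E → Bool → V) (F L W : E → Bool) : Prop where
  ev : ∀ w, Even (cnt p W w)
  eq : ∀ w, ¬ Z4 p F w → ¬ Root p F L w → ∀ e ∈ incS p w, ∀ f ∈ incS p w, L e = L f → W e = W f

/-- the root `w` is passed by its C-edge and its D-edge -/
def Gain (p : E → Bool → V) (F L W : E → Bool) (w : V) : Prop :=
  Root p F L w ∧ cnt p (fun e => W e && L e) w = 1 ∧ cnt p (fun e => W e && F e) w = 1

/-- one step along an edge of `R`; the edge `e` is directed from `p e (o e)` to `p e (!o e)` -/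
def Step (p : E → Bool → V) (o : E → Bool) (R : E → Prop) (x y : V) : Prop :=
  ∃ e, R e ∧ p e (o e) = x ∧ p e (!o e) = y

/-- reversible edges between two inner vertices -/
def Inn (p : E → Bool → V) (F : E → Bool) (e : E) : Prop :=
  Rev p F e ∧ Inner p F (p e true) ∧ Inner p F (p e false)

end Pool.Agent.Lib.IC4
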