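import Pool.Agent.Lib.IC4.WT

/-! A bridgeless multigraph (darts `D`, edge involution `α`, vertex map `v`) with all degrees in
`{0, 2, 3, 4}` has a set of edges with degree one at the vertices of degree three and degree zero
or two at all other vertices. -/

set_option linter.unusedSectionVars false

namespace Pool.Agent.Lib.IC4
open Finset

variable {D V : Type*} [Fintype D] [Fintype V] [DecidableEq D] [DecidableEq V]

/-- the number of darts at `u` -/
def dg (v : D → V) (u : V) : ℕ := (univ.filter fun d => v d = u).card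

/-- nodes of the gadget graph -/
abbrev Nd (v : D → V) := D ⊕ (V ⊕ {u : V // dg v u ≠ 3})

/-- weights of the gadget graph -/
def gw (v : D → V) (α : D → D) : Nd v → Nd v → ℕ
  | .inl d, .inl d' => if d' = α d then 4 else 0
  | .inl d, .inr (.inl u) => if v d = u then (if dg v u = 3 then 2 else 1) else 0
  | .inl d, .inr (.inr t) => if v d = t.1 then 1 else 0
  | .inr (.inl u), .inl d => if v d = u then (if dg v u = 3 then 2 else 1) else 0
  | .inr (.inr t), .inl d => if v d = t.1 then 1 else 0
  | .inr (.inl u), .inr (.inr t) => if u = t.1 then 6 - dg v u else 0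
  | .inr (.inr t), .inr (.inl u) => if u = t.1 then 6 - dg v u else 0
  | .inr (.inl _), .inr (.inl _) => 0
  | .inr (.inr _), .inr (.inr _) => 0

theorem sum_t (v : D → V) (u : V) (f : {u : V // dg v u ≠ 3} → ℕ) :
    ∑ t : {u : V // dg v u ≠ 3}, (if u = t.1 then f t else 0) =
      if h : dg v u = 3 then 0 else f ⟨u, h⟩ := by
  split_ifs with h
  · exact sum_eq_zero fun t _ => if_neg fun (e : u = t.1) => t.2 (e ▸ h)
  · rw [sum_eq_single ⟨u, h⟩]
    · simp
    · intro t _ ht; exact if_neg fun e => ht (Subtype.ext e.symm)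
    · simp

theorem sum_d (v : D → V) (u : V) (c : ℕ) : ∑ d, (if v d = u then c else 0) = dg v u * c := by
  rw [← sum_filter]; simp [dg]

theorem gw_symm (v : D → V) (α : D → D) (hα : ∀ d, α (α d) = d) (a b : Nd v) :
    gw v α a b = gw v α b a := by
  rcases a with d | u | t <;> rcases b with d' | u' | t' <;> simp only [gw]
  by_cases h : d' = α d
  · rw [if_pos h, if_pos (by rw [h, hα])]
  · rw [if_neg h, if_neg fun e => h (by rw [e, hα])]

theorem gw_sum (v : D → V) (α : D → D) (hd : ∀ u, dg v u ≤ 4) (a : Nd v) :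
    ∑ b, gw v α a b = 6 := by
  rcases a with d | u | t <;> simp only [Fintype.sum_sum_type, gw]
  · rw [sum_t v (v d) fun _ => 1]
    simp only [sum_ite_eq, sum_ite_eq', mem_univ, if_true]
    split_ifs <;> rfl
  · rw [sum_d, sum_t v u fun _ => 6 - dg v u]
    have := hd u
    split_ifs with h <;> simp <;> omega
  · rw [sum_d]
    have := hd t.1
    simp; omega

theorem sep_comm {N : Type*} [DecidableEq N] (S : Finset N) (a b : N) : sep S a b = sep S b a := by
  unfold sep; simp only [iff_comm]

theorem gw_cut (v : D → V) (α : D → D) (S : Finset (Nd v)) :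
    ∑ a, ∑ b, gw v α a b * sep S a b =
      ∑ d, 4 * sep S (.inl d) (.inl (α d)) +
      2 * ∑ d, ((if dg v (v d) = 3 then 2 else 1) * sep S (.inl d) (.inr (.inl (v d))) +
        if h : dg v (v d) = 3 then 0 else sep S (.inl d) (.inr (.inr ⟨v d, h⟩))) +
      2 * ∑ t : {u : V // dg v u ≠ 3}, (6 - dg v t.1) * sep S (.inr (.inl t.1)) (.inr (.inr t)) := by
  simp only [Fintype.sum_sum_type, gw, ite_mul, zero_mul, sum_add_distrib, sum_const_zero,
    zero_add, add_zero, one_mul]
  have e1 : ∑ u : V, ∑ d : D, (if v d = u then (if dg v u = 3 then 2 * sep S (.inr (.inl u)) (.inl d)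
      else sep S (.inr (.inl u)) (.inl d)) else 0) = ∑ d : D, ∑ u : V, (if v d = u then
      (if dg v u = 3 then 2 * sep S (.inl d) (.inr (.inl u)) else sep S (.inl d) (.inr (.inl u)))
      else 0) := by
    rw [sum_comm]; simp only [sep_comm S (.inl _) (.inr _)]
  have e2 : ∑ t : {u : V // dg v u ≠ 3}, ∑ d : D, (if v d = t.1 then sep S (.inr (.inr t)) (.inl d)
      else 0) = ∑ d : D, ∑ t : {u : V // dg v u ≠ 3}, (if v d = t.1 then
      sep S (.inl d) (.inr (.inr t)) else 0) := by
    rw [sum_comm]; simp only [sep_comm S (.inl _) (.inr _)]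
  have e3 : ∑ u : V, ∑ t : {u : V // dg v u ≠ 3}, (if u = t.1 then
      (6 - dg v u) * sep S (.inr (.inl u)) (.inr (.inr t)) else 0) =
      ∑ t : {u : V // dg v u ≠ 3}, ∑ u : V, (if u = t.1 then
      (6 - dg v u) * sep S (.inr (.inr t)) (.inr (.inl u)) else 0) := by
    rw [sum_comm]; simp only [sep_comm S (.inr (.inl _)) (.inr (.inr _))]
  rw [e1, e2, e3]
  simp only [sum_t, sum_ite_eq, sum_ite_eq', mem_univ, if_true,
    sep_comm S (.inr (.inr _)) (.inr (.inl _))]
  ring

theorem sum_vd (v : D → V) (f : V → ℕ) : ∑ d, f (v d) = ∑ u, dg v u * f u := by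
  simp only [← sum_d]
  rw [sum_comm]
  simp

theorem gw_odd (v : D → V) (α : D → D) (hα : ∀ d, α (α d) = d) (hf : ∀ d, α d ≠ d)
    (hd : ∀ u, dg v u ≤ 4) (h1 : ∀ u, dg v u ≠ 1)
    (hb : ∀ (K : V → Prop) d₀, (∀ d, d ≠ d₀ → d ≠ α d₀ → (K (v d) ↔ K (v (α d)))) →
      (K (v d₀) ↔ K (v (α d₀))))
    (S : Finset (Nd v)) (hS : Odd S.card) : 2 * 6 ≤ ∑ a, ∑ b, gw v α a b * sep S a b := by
  rw [gw_cut]
  by_cases hA : ∃ t : {u : V // dg v u ≠ 3}, sep S (.inr (.inl t.1)) (.inr (.inr t)) = 1
  · obtain ⟨t, ht⟩ := hA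
    have a1 := single_le_sum (f := fun t : {u : V // dg v u ≠ 3} =>
      (6 - dg v t.1) * sep S (.inr (.inl t.1)) (.inr (.inr t))) (fun _ _ => Nat.zero_le _)
      (mem_univ t)
    have a2 : ∑ d, (if v d = t.1 then 1 else 0) ≤
        ∑ d, ((if dg v (v d) = 3 then 2 else 1) * sep S (.inl d) (.inr (.inl (v d))) +
        if h : dg v (v d) = 3 then 0 else sep S (.inl d) (.inr (.inr ⟨v d, h⟩))) := by
      refine sum_le_sum fun d _ => ?_
      by_cases e : v d = t.1
      · obtain ⟨u, hu⟩ := t
        subst e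
        rw [if_pos rfl, if_neg hu, dif_neg hu]
        revert ht
        unfold sep
        split_ifs <;> first | omega | tauto
      · simp [e]
    rw [sum_d] at a2
    have := hd t.1
    simp only [ht] at a1
    omega
  · have hA' : ∀ t : {u : V // dg v u ≠ 3},
        ((.inr (.inl t.1) : Nd v) ∈ S ↔ (.inr (.inr t) : Nd v) ∈ S) := by
      intro t
      by_contra h
      exact hA ⟨t, by simp only [sep, if_neg h]⟩
    have e1 : ∑ d, ((if dg v (v d) = 3 then 2 else 1) * sep S (.inl d) (.inr (.inl (v d))) +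
        if h : dg v (v d) = 3 then 0 else sep S (.inl d) (.inr (.inr ⟨v d, h⟩))) =
        2 * ∑ d, sep S (.inl d) (.inr (.inl (v d))) := by
      rw [mul_sum]
      refine sum_congr rfl fun d _ => ?_
      split_ifs with h
      · rfl
      · simp only [sep, ← hA' ⟨v d, h⟩]; omega
    rw [e1, ← mul_sum]
    have hP : Odd (∑ d, sep S (.inl d) (.inr (.inl (v d)))) := by
      let i : Nd v → ℕ := fun a => if a ∈ S then 1 else 0
      have c1 : S.card = ∑ a, i a := by simp [i]
      have c2 : ∑ t : {u : V // dg v u ≠ 3}, i (.inr (.inr t)) =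
          ∑ u, if dg v u = 3 then 0 else i (.inr (.inl u)) := by
        have : ∀ u, (if dg v u = 3 then 0 else i (.inr (.inl u))) =
            ∑ t : {u : V // dg v u ≠ 3}, (if u = t.1 then i (.inr (.inr t)) else 0) := by
          intro u
          rw [sum_t]
          split_ifs with h
          · rfl
          · simp only [i, hA' ⟨u, h⟩]
        simp only [this]
        rw [sum_comm]; simp
      have c3 : (∑ d, sep S (.inl d) (.inr (.inl (v d)))) % 2 =
          (∑ d, (i (.inl d) + i (.inr (.inl (v d))))) % 2 := by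
        rw [sum_nat_mod, sum_nat_mod _ _ fun d => i (.inl d) + _]
        congr 1
        refine sum_congr rfl fun d _ => ?_
        simp only [sep, i]
        split_ifs <;> first | rfl | tauto
      have c4 : (∑ u, dg v u * i (.inr (.inl u))) % 2 =
          (∑ u, (i (.inr (.inl u)) + if dg v u = 3 then 0 else i (.inr (.inl u)))) % 2 := by
        rw [sum_nat_mod, sum_nat_mod _ _ fun u => i (.inr (.inl u)) + _]
        congr 1
        refine sum_congr rfl fun u _ => ?_
        have := hd u
        have := h1 u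
        simp only [i]
        split_ifs <;> omega
      rw [c1, Fintype.sum_sum_type, Fintype.sum_sum_type, c2] at hS
      rw [sum_add_distrib, sum_vd v fun u => i (.inr (.inl u))] at c3
      rw [sum_add_distrib] at c4
      rw [Nat.odd_iff] at hS ⊢
      omega
    by_cases hQ : ∃ d, sep S (.inl d) (.inl (α d)) = 1
    · obtain ⟨d, h⟩ := hQ
      have : ∑ e ∈ {d, α d}, sep S (.inl e) (.inl (α e)) ≤ ∑ e, sep S (.inl e) (.inl (α e)) :=
        sum_le_sum_of_subset (subset_univ _)
      rw [sum_pair (hf d).symm, hα, sep_comm S (.inl (α d)), h] at this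
      obtain ⟨m, hm⟩ := hP
      omega
    · have hQ' : ∀ d, ((.inl d : Nd v) ∈ S ↔ (.inl (α d) : Nd v) ∈ S) := by
        intro d
        by_contra h
        exact hQ ⟨d, by simp only [sep, if_neg h]⟩
      obtain ⟨m, hm⟩ := hP
      have hm0 : m ≠ 0 := by
        rintro rfl
        obtain ⟨d₀, -, h₀⟩ := exists_ne_zero_of_sum_ne_zero
          (show ∑ d, sep S (.inl d) (.inr (.inl (v d))) ≠ 0 by omega)
        have hz : ∀ d, d ≠ d₀ → ((.inl d : Nd v) ∈ S ↔ (.inr (.inl (v d)) : Nd v) ∈ S) := by
          intro d hd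
          have : ∑ e ∈ {d, d₀}, sep S (.inl e) (.inr (.inl (v e))) ≤
              ∑ e, sep S (.inl e) (.inr (.inl (v e))) := sum_le_sum_of_subset (subset_univ _)
          rw [sum_pair hd] at this
          by_contra h
          simp only [sep, if_neg h] at this h₀ hm
          omega
        have := hb (fun u => (.inr (.inl u) : Nd v) ∈ S) d₀ fun d h h' => by
          rw [← hz d h, ← hz (α d) fun e => h' (by rw [← e, hα]), hQ' d]
        rw [← hz _ (hf d₀), ← hQ'] at this
        exact h₀ (by simp only [sep, this, if_true])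
      omega

theorem exists_factor (v : D → V) (α : D → D) (hα : ∀ d, α (α d) = d) (hf : ∀ d, α d ≠ d)
    (hd : ∀ u, dg v u ≤ 4) (h1 : ∀ u, dg v u ≠ 1)
    (hb : ∀ (K : V → Prop) d₀, (∀ d, d ≠ d₀ → d ≠ α d₀ → (K (v d) ↔ K (v (α d)))) →
      (K (v d₀) ↔ K (v (α d₀)))) :
    ∃ F : Finset D, (∀ d, d ∈ F ↔ α d ∈ F) ∧ ∀ u,
      (dg v u = 3 → (F.filter fun d => v d = u).card = 1) ∧
      (dg v u ≠ 3 → (F.filter fun d => v d = u).card = 0 ∨ (F.filter fun d => v d = u).card = 2) := by
  obtain ⟨μ, hμ, hw⟩ := pm_of_weights' (gw v α) 6 (by norm_num) (gw_symm v α hα)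
    (by rintro (d | u | t) <;> simp [gw, (hf _).symm]) (gw_sum v α hd) (gw_odd v α hα hf hd h1 hb)
  have hinj : Function.Injective μ := Function.LeftInverse.injective hμ
  refine ⟨univ.filter fun d => μ (.inl d) ≠ .inl (α d), fun d => ?_, fun u => ?_⟩
  · simp only [mem_filter, mem_univ, true_and, hα, ne_eq, not_iff_not]
    exact ⟨fun h => by rw [← h, hμ], fun h => by rw [← h, hμ]⟩
  have hF : ∀ d, (μ (.inl d) ≠ .inl (α d) ∧ v d = u) ↔
      (μ (.inr (.inl u)) = .inl d ∨ ∃ h : dg v u ≠ 3, μ (.inr (.inr ⟨u, h⟩)) = .inl d) := by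
    intro d
    constructor
    · rintro ⟨h, rfl⟩
      have := hw (.inl d)
      have e := hμ (.inl d)
      rcases hx : μ (.inl d) with d' | u' | t <;> rw [hx] at this e <;> simp only [gw] at this
      · exact absurd (by rw [hx]; congr 1; by_contra c; simp [c] at this) h
      · have : v d = u' := by by_contra c; simp [c] at this
        exact Or.inl (this ▸ e)
      · obtain ⟨u', h'⟩ := t
        have : v d = u' := by by_contra c; simp [c] at this
        subst this
        exact Or.inr ⟨h', e⟩
    · rintro (h | ⟨h', h⟩)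
      · have := hw (.inr (.inl u))
        rw [h] at this
        refine ⟨by rw [← h, hμ]; simp, ?_⟩
        by_contra c; simp [gw, c] at this
      · have := hw (.inr (.inr ⟨u, h'⟩))
        rw [h] at this
        refine ⟨by rw [← h, hμ]; simp, ?_⟩
        by_contra c; simp [gw, c] at this
  rw [filter_filter]
  simp only [hF]
  have hs := hw (.inr (.inl u))
  have es := hμ (.inr (.inl u))
  refine ⟨fun h => ?_, fun h => ?_⟩
  · rcases hx : μ (.inr (.inl u)) with d' | u' | t <;> rw [hx] at hs <;> simp only [gw] at hs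
    · rw [card_eq_one]; exact ⟨d', by ext d; simp [h, eq_comm]⟩
    · omega
    · have : u = t.1 := by by_contra c; simp [c] at hs
      exact absurd (this ▸ h) t.2
  · have ht := hw (.inr (.inr ⟨u, h⟩))
    have et := hμ (.inr (.inr ⟨u, h⟩))
    rcases hx : μ (.inr (.inl u)) with d' | u' | t <;> rw [hx] at hs es <;> simp only [gw] at hs
    · rcases hy : μ (.inr (.inr ⟨u, h⟩)) with d'' | u'' | t'' <;> rw [hy] at ht et <;>
        simp only [gw] at ht
      · right
        rw [card_eq_two]
        refine ⟨d', d'', fun e => ?_, by ext d; simp [h, hy, eq_comm]⟩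
        rw [e, et] at es
        simp at es
      · have : u'' = u := by by_contra c; simp [c] at ht
        rw [this, hx] at et
        simp at et
      · omega
    · omega
    · obtain ⟨u', h'⟩ := t
      have : u = u' := by by_contra c; simp [c] at hs
      subst this
      left
      simp [es]

end Pool.Agent.Lib.IC4
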