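import Pool.Agent.Lib.IC4.Blue
import Pool.Agent.Lib.IC4.EXD

/-! Block EX: a member of the family without hubs. -/

namespace Pool.Agent.Lib.IC4
open Finset

universe u v

theorem stEX : St_EX.{u, v} := by
  intro V E _ _ _ _ p side g
  let v : E × Bool → V := fun d => p d.1 d.2
  let α : E × Bool → E × Bool := fun d => (d.1, !d.2)
  have key : ∀ (w : V) (P : E → Bool),
      ((univ.filter fun d : E × Bool => P d.1 = true).filter fun d => v d = w).card = cnt p P w := by
    intro w P
    refine card_nbij' Prod.fst (fun e => (e, side w)) (fun z hz => ?_) (fun e he => ?_)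
      (fun z hz => ?_) fun e _ => rfl
    · obtain ⟨e, b⟩ := z
      simp only [coe_filter, mem_filter, mem_univ, true_and, Set.mem_ofPred_eq, incS, v] at hz ⊢
      refine ⟨?_, hz.1⟩
      cases b
      exacts [Or.inr hz.2, Or.inl hz.2]
    · simp only [coe_filter, mem_filter, mem_univ, true_and, Set.mem_ofPred_eq, incS, v] at he ⊢
      refine ⟨he.2, ?_⟩
      rcases he.1 with h | h <;> rw [← h, g.hs]
    · simp only [coe_filter, mem_filter, mem_univ, true_and, Set.mem_ofPred_eq, v] at hz
      exact Prod.ext rfl (by rw [← hz.2, g.hs])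
  have hdg : ∀ w, dg v w = deg p w := fun w => by
    have := key w fun _ => true
    simpa [dg, deg, cnt] using this
  obtain ⟨F, h1, h2⟩ := exists_factor v α (fun d => by simp [α]) (fun d => by simp [α, Prod.ext_iff])
    (fun w => hdg w ▸ g.le w)
    (fun w h => by
      obtain ⟨d, hd⟩ := card_pos.1 (show 0 < dg v w by omega)
      have := g.two d.1 d.2
      rw [show p d.1 d.2 = w from (mem_filter.1 hd).2, ← hdg] at this
      omega)
    (fun K d₀ h => by
      classical
      have h' : ∀ f, f ≠ d₀.1 → (K (p f true) ↔ K (p f false)) := fun f hf =>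
        h (f, true) (fun e => hf (congrArg Prod.fst e)) fun e => hf (congrArg Prod.fst e)
      have nb : ∀ b, K (p d₀.1 b) → K (p d₀.1 (!b)) := fun b hb => by
        by_contra c
        obtain ⟨f, hf, k⟩ := g.nb (univ.filter K) d₀.1 b (by simpa using hb) (by simpa using c)
        exact k (by simpa using h' f hf)
      exact ⟨nb _, fun k => by simpa [α, v] using nb _ k⟩)
  refine ⟨fun e => decide ((e, true) ∈ F), fun w => ?_⟩
  have : F = univ.filter fun d : E × Bool => decide ((d.1, true) ∈ F) = true := by
    ext ⟨e, b⟩
    cases b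
    · simpa [α] using h1 (e, false)
    · simp
  rw [← key, ← this, ← hdg]
  exact h2 w

end Pool.Agent.Lib.IC4
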