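import Pool.Agent.Lib.IC4.Basic

/-! The blocks imply the theorem. -/

namespace Pool.Agent.Lib.IC4
open Finset Pool.Agent.Lib.IC34

universe u v

lemma gr_of {V : Type u} {E : Type v} [Fintype E] [DecidableEq V] [DecidableEq E]
    (p : E → Bool → V) (side : V → Bool) (hs : ∀ e b, side (p e b) = b)
    (hd : ∀ w, (incS p w).card ≤ 4) (hb : NoBridge p) : Gr p side := by
  refine ⟨hs, hd, hb, fun e b => ?_⟩
  obtain ⟨f, fe, hf⟩ := hb {p e b} e b (mem_singleton_self _)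
    (fun h => ends_ne hs e e b (mem_singleton.1 h).symm)
  have : f ∈ incS p (p e b) := by
    by_contra k
    rw [mem_incS, not_or] at k
    simp [k.1, k.2] at hf
  exact one_lt_card.2 ⟨f, this, e, self_mem_incS p e b, fe⟩

theorem zcol_of_blocks (hEX : St_EX.{u, v}) (hBAL : St_BAL.{u, v}) (hSEL : St_SEL.{u, v})
    (hPAR : St_PAR.{u, v}) (hMIN : St_MINW.{u, v}) (hTOG : St_TOG.{u, v}) (hCOL : St_COL.{u, v})
    {V : Type u} {E : Type v} [Fintype V] [Fintype E] [DecidableEq V] [DecidableEq E]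
    (p : E → Bool → V) (side : V → Bool) (g : Gr p side) : ∃ c, ZCol p c := by
  classical
  obtain ⟨F0, h0⟩ := hEX V E p side g
  have f0 : Fam p F0 := by
    refine ⟨fun w h => Or.inl ((h0 w).1 h), fun w h => (h0 w).2 h, fun e f b _ h => ?_⟩
    by_cases k : deg p (p e b) = 3
    · have := (h0 _).1 k
      omega
    · have := (h0 _).2 k
      omega
  obtain ⟨⟨F, L⟩, hm, hmin⟩ := exists_min_image
    (univ.filter fun x : (E → Bool) × (E → Bool) => Fam p x.1 ∧ Lab p x.1 x.2)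
    (fun x => TF p x.1 + TL p x.1 x.2)
    ⟨(F0, fun _ => true), mem_filter.2 ⟨mem_univ _, f0, fun _ _ _ => rfl⟩⟩
  obtain ⟨hF, hL⟩ := (mem_filter.1 hm).2
  have hmin' : ∀ F' L', Fam p F' → Lab p F' L' → TF p F + TL p F L ≤ TF p F' + TL p F' L' :=
    fun F' L' a b => hmin (F', L') (mem_filter.2 ⟨mem_univ _, a, b⟩)
  obtain ⟨L1, m1, e1, b1⟩ := hBAL V E p side F L g hF
    ⟨hL, fun L' h => Nat.le_of_add_le_add_left (hmin' F L' hF h)⟩
  obtain ⟨L2, n2, e2⟩ := hSEL V E p side F L1 g hF m1 b1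
  rcases hPAR V E p side F L2 g n2 with ⟨b, hb⟩ | ⟨W, hW, hg⟩
  · exact hCOL V E p side F L2 b g n2 hb
  · obtain ⟨W', a1, a2, a3⟩ := hMIN V E p side F L2 W g n2 hW hg
    obtain ⟨F', L', c1, c2, c3⟩ := hTOG V E p side F L2 W' g n2 a1 a2 a3
    have := hmin' F' L' c1 c2
    omega

theorem final_of_blocks (hEX : St_EX.{u, v}) (hBAL : St_BAL.{u, v}) (hSEL : St_SEL.{u, v})
    (hPAR : St_PAR.{u, v}) (hMIN : St_MINW.{u, v}) (hTOG : St_TOG.{u, v}) (hCOL : St_COL.{u, v})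
    {V : Type u} {E : Type v} [Fintype V] [Fintype E] [DecidableEq V]
    (ends : E → Sym2 V) (side : V → Prop)
    (hb : ∀ e, ∃ x y, ends e = s(x, y) ∧ side x ∧ ¬ side y) (hd : ∀ w, mdeg ends w ≤ 4) :
    ∃ c, IsIntervalColoring ends c :=
  final_of_noBridge 4 (fun s _ _ _ p hs h4 nb =>
    zcol_of_blocks hEX hBAL hSEL hPAR hMIN hTOG hCOL p s (gr_of p s hs h4 nb)) ends side hb hd

end Pool.Agent.Lib.IC4
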