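import Pool.Agent.Lib.IC4.Basic

/-! Single edge flips. -/

namespace Pool.Agent.Lib.IC4
open Finset

universe u v

theorem stLOC48 : St_LOC.{u, v} := by
  classical
  intro V E _ _ _ _ p side F L G M mL e b fe le d3
  have nr : ¬ Rigid p e := fun r => by simp [mL.1 e fe r] at le
  rcases G.deg_end e (!b) with d | d | d
  rotate_left
  · exact absurd ((rigid_iff e b).2 ⟨by omega, by omega⟩) nr
  · exact Or.inl d
  right
  have pe : Pay p F e := ⟨b, fe, d3, Or.inr d⟩
  let J : E → Bool := fun f => decide (f = e) && true
  have hJ : ∀ f, J f = true → Rev p F f := fun f hf => by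
    have : f = e := by simpa [J] using hf
    exact this ▸ ⟨fe, nr⟩
  have h1 := mL.2 _ (mL.1.flip hJ)
  have h2 : npaid p F (fun f => xor (L f) (J f)) < npaid p F L := by
    refine card_lt_card ⟨fun f hf => ?_, fun h => ?_⟩
    · simp only [mem_filter, mem_univ, true_and, Paid] at hf ⊢
      by_cases k : f = e
      · exact k ▸ ⟨pe, le⟩
      · simpa [J, k] using hf
    · have := h (mem_filter.2 ⟨mem_univ e, pe, le⟩)
      simp [Paid, J, le] at this
  have h3 : ∃ w, Viol p F (fun f => xor (L f) (J f)) w ∧ ¬ Viol p F L w := by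
    by_contra k
    push Not at k
    have : nviol p F (fun f => xor (L f) (J f)) ≤ nviol p F L :=
      card_le_card fun w hw => mem_filter.2 ⟨mem_univ _, k w (mem_filter.1 hw).2⟩
    unfold TL at h1
    omega
  obtain ⟨w, ⟨iw, hw⟩, nw⟩ := h3
  have a1 := cnt_flipA (p := p) (fun f hf => (hJ f hf).1) L w
  have a2 := cnt_flipD (p := p) (fun f hf => (hJ f hf).1) L w
  have b1 : cnt p (fun f => J f && L f) w = 0 := by
    simpa [J, le] using cnt_single p L e w
  have b2 : cnt p (fun f => J f && !L f) w = if e ∈ incS p w then 1 else 0 := by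
    simpa [J, le] using cnt_single p (fun f => !L f) e w
  simp only [Viol, iw, true_and, not_or] at nw
  beta_reduce at hw
  by_cases k : e ∈ incS p w
  · rw [if_pos k] at b2
    obtain ⟨c, rfl⟩ := mem_incS'.1 k
    have := cnt_le_deg p F (p e c)
    have hc : c = b := by
      by_contra j
      have : c = !b := by cases c <;> cases b <;> simp at j ⊢
      subst this
      unfold Inner at iw
      omega
    subst hc
    unfold Inner at iw
    exact ⟨d, by omega, by omega⟩
  · rw [if_neg k] at b2
    omega

end Pool.Agent.Lib.IC4
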