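import Pool.Agent.Lib.IC4.Basic

/-! Block LOC: single edge flips. -/

namespace Pool.Agent.Lib.IC4
open Finset

universe u v

theorem stLOC74 : St_LOC.{u, v} := by
  classical
  intro V E _ _ _ _ p side F L g hF hL e b h1 h2 h3
  by_contra hc
  rw [not_or] at hc
  obtain ⟨c1, c2⟩ := hc
  have nr : ¬ Rigid p e := fun k => by simp [hL.1 e h1 k] at h2
  have d2 : deg p (p e (!b)) = 2 := by
    rcases g.deg_end e (!b) with k | k | k
    · exact k
    · exact absurd ((rigid_iff e b).2 ⟨by omega, by omega⟩) nr
    · exact absurd k c1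
  let J : E → Bool := fun f => decide (f = e)
  have hJ : ∀ f, J f = true → Rev p F f := fun f hf => by
    obtain rfl : f = e := by simpa [J] using hf
    exact ⟨h1, nr⟩
  have hA := cnt_flipA (p := p) (fun f hf => (hJ f hf).1) L
  have hD := cnt_flipD (p := p) (fun f hf => (hJ f hf).1) L
  have s1 : ∀ w, cnt p (fun f => J f && L f) w = 0 := fun w => by
    rw [cnt_single p L e w, if_neg (by simp [h2])]
  have s2 : ∀ w, cnt p (fun f => J f && !L f) w = if e ∈ incS p w then 1 else 0 := fun w => by
    rw [cnt_single p (fun f => !L f) e w]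
    simp [h2]
  have v1 : nviol p F (fun f => xor (L f) (J f)) ≤ nviol p F L := by
    refine card_le_card fun w hw => ?_
    simp only [mem_filter, mem_univ, true_and] at hw ⊢
    obtain ⟨i1, i2⟩ := hw
    beta_reduce at i2
    refine ⟨i1, ?_⟩
    have a1 := hA w
    have a2 := hD w
    rw [s1, s2] at a1 a2
    by_cases k : e ∈ incS p w
    · rw [if_pos k] at a1 a2
      obtain ⟨b', rfl⟩ := mem_incS'.1 k
      by_cases kb : b' = b
      · subst kb
        have : cnt p F (p e b') = 3 := by
          rcases i1 with i1 | i1 <;> omega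
        have : cnt p (fun f => F f && !L f) (p e b') ≠ 1 := fun j => c2 ⟨d2, this, j⟩
        omega
      · obtain rfl : b' = !b := by cases b <;> cases b' <;> simp at kb ⊢
        rcases i1 with i1 | i1
        · have := hF.deg_hub i1
          omega
        · omega
    · rw [if_neg k] at a1 a2
      omega
  have v2 : npaid p F (fun f => xor (L f) (J f)) < npaid p F L := by
    refine card_lt_card ⟨fun f hf => ?_, fun k => ?_⟩
    · simp only [mem_filter, mem_univ, true_and] at hf ⊢
      refine ⟨hf.1, ?_⟩
      have := hf.2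
      by_cases k : f = e
      · rw [k, h2]
      · simpa [J, k] using this
    · have : e ∈ univ.filter fun f => Paid p F L f :=
        mem_filter.2 ⟨mem_univ _, ⟨b, h1, h3, Or.inr d2⟩, h2⟩
      have := (mem_filter.1 (k this)).2.2
      simp [J, h2] at this
  have := hL.2 _ (hL.1.flip hJ)
  unfold TL at this
  omega

end Pool.Agent.Lib.IC4
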