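import Mathlib

/-! Two facts on systems of equations over the field with two elements. -/

namespace Pool.Agent.Lib.IC4.Lin64
open Finset

variable {E C : Type*} [Fintype E] [Fintype C] [DecidableEq E]

/-- the linear map of a system of pair constraints -/
def pm (l r : C → E) : (E → ZMod 2) →ₗ[ZMod 2] C → ZMod 2 where
  toFun b c := b (l c) + b (r c)
  map_add' a b := by ext c; simp only [Pi.add_apply]; ring
  map_smul' a b := by ext c; simp only [Pi.smul_apply, smul_eq_mul, RingHom.id_apply]; ring

omit [Fintype E] in
/-- Either all constraints `b (l c) ≠ b (r c)` can be satisfied, or an odd set of constraints covers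
every variable an even number of times. -/
theorem farkas (l r : C → E) : (∃ b : E → Bool, ∀ c, b (l c) ≠ b (r c)) ∨
    ∃ S : Finset C, Odd S.card ∧
      ∀ e, Even ((S.filter fun c ↦ l c = e).card + (S.filter fun c ↦ r c = e).card) := by
  classical
  by_cases h : (fun _ ↦ 1) ∈ LinearMap.range (pm l r)
  · obtain ⟨b, hb⟩ := h
    refine .inl ⟨fun e ↦ decide (b e = 1), fun c ↦ ?_⟩
    have : b (l c) + b (r c) = 1 := congrFun hb c
    beta_reduce
    revert this
    generalize b (l c) = x
    generalize b (r c) = y
    revert x y; decide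
  · obtain ⟨f, f1, f2⟩ := Submodule.exists_dual_map_eq_bot_of_notMem h inferInstance
    have key : ∀ x : C → ZMod 2, f x = ∑ c ∈ univ.filter fun c ↦ f (Pi.single c 1) = 1, x c := by
      intro x
      rw [LinearMap.pi_apply_eq_sum_univ, sum_filter]
      refine sum_congr rfl fun c _ ↦ ?_
      have : (fun j ↦ if c = j then (1 : ZMod 2) else 0) = Pi.single c 1 := by
        ext j; simp [Pi.single_apply, eq_comm]
      rw [this]
      generalize f (Pi.single c 1) = y
      generalize x c = z
      revert y z; decide
    refine .inr ⟨univ.filter fun c ↦ f (Pi.single c 1) = 1, ?_, fun e ↦ ?_⟩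
    · rw [key, sum_const, nsmul_eq_mul, mul_one] at f1
      exact ZMod.natCast_ne_zero_iff_odd.1 f1
    · have h0 : f (pm l r (Pi.single e 1)) = 0 :=
        (Submodule.eq_bot_iff _).1 f2 _ ⟨_, ⟨_, rfl⟩, rfl⟩
      rw [key] at h0
      rw [← ZMod.natCast_eq_zero_iff_even, ← h0, Nat.cast_add, card_filter, card_filter,
        Nat.cast_sum, Nat.cast_sum, ← sum_add_distrib]
      refine sum_congr rfl fun c _ ↦ ?_
      simp [pm, Pi.single_apply]

omit [DecidableEq E] in
/-- With two pairs fewer than points there is a proper nonempty set closed under the pairs. -/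
theorem split (l r : C → E) (h : Fintype.card C + 2 ≤ Fintype.card E) :
    ∃ S : Finset E, S.Nonempty ∧ S ≠ univ ∧ ∀ c, l c ∈ S ↔ r c ∈ S := by
  classical
  have h1 := LinearMap.finrank_range_add_finrank_ker (pm l r)
  have h2 := Submodule.finrank_le (LinearMap.range (pm l r))
  rw [Module.finrank_fintype_fun_eq_card] at h1 h2
  have h3 : ¬ LinearMap.ker (pm l r) ≤ Submodule.span (ZMod 2) {fun _ ↦ 1} := fun h4 ↦ by
    have := (Submodule.finrank_mono h4).trans (finrank_span_le_card _)
    simp only [Set.toFinset_singleton, card_singleton] at this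
    omega
  obtain ⟨b, b1, b2⟩ := SetLike.not_le_iff_exists.1 h3
  have z : ∀ x : ZMod 2, x ≠ 1 → x = 0 := by decide
  refine ⟨univ.filter fun e ↦ b e = 1, ?_, fun h4 ↦ b2 ?_, fun c ↦ ?_⟩
  · by_contra h4
    refine b2 ?_
    have : b = 0 := funext fun e ↦ z _ fun he ↦ h4 ⟨e, by simp [he]⟩
    rw [this]; exact zero_mem _
  · have : b = fun _ ↦ 1 := funext fun e ↦ (mem_filter.1 (h4.ge (mem_univ e))).2
    rw [this]; exact Submodule.subset_span rfl
  · have : b (l c) + b (r c) = 0 := congrFun (LinearMap.mem_ker.1 b1) c
    simp only [mem_filter, mem_univ, true_and]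
    revert this
    generalize b (l c) = x
    generalize b (r c) = y
    revert x y; decide

end Pool.Agent.Lib.IC4.Lin64
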