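import Pool.Agent.Lib.IC4.PAR

/-! Block MINW. -/

set_option linter.unusedSectionVars false

namespace Pool.Agent.Lib.IC4
open Finset

universe u v

open PAR Par64 in
theorem stMINW : St_MINW.{u, v} := by
  intro V E _ _ _ _ p side F L W0 g n a0 g0
  classical
  let c : (E → Bool) → ℕ := fun W ↦ (univ.filter fun e ↦ W e = true).card
  obtain ⟨W, hW, hmin⟩ := exists_min_image
    (univ.filter fun W : E → Bool ↦ Adm p F L W ∧ ∃ z, Gain p F L W z) c
    ⟨W0, mem_filter.2 ⟨mem_univ _, a0, g0⟩⟩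
  obtain ⟨ad, z, hr, g1, g2⟩ := (mem_filter.1 hW).2
  refine ⟨W, ad, ⟨z, hr, g1, g2⟩, fun v hv hcon ↦ ?_⟩
  let S : Finset E := univ.filter fun e ↦ W e = true
  let T : V → Finset E := fun u ↦ (incS p u).filter fun e ↦ W e = true
  have hT4 : ∀ u, (T u).card = 4 → T u = incS p u := fun u h ↦
    eq_of_subset_of_card_le (filter_subset _ _) (h ▸ g.le u)
  have hT2 : ∀ u e, e ∈ T u → (T u).card ≠ 4 → (T u).card = 2 := fun u e he h ↦ by
    have h1 : (T u).card ≤ 4 := (card_le_card (filter_subset _ _)).trans (g.le u)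
    have h2 := card_pos.2 ⟨e, he⟩
    have h3 : (T u).card % 2 = 0 := Nat.even_iff.1 (ad.ev u)
    omega
  let Q : V → E → E → Prop := fun u e f ↦
    e ∈ T u ∧ f ∈ T u ∧ e ≠ f ∧ ((T u).card = 4 → L e = L f)
  have qsy : ∀ u e f, Q u e f → Q u f e := fun u e f h ↦
    ⟨h.2.1, h.1, h.2.2.1.symm, fun k ↦ (h.2.2.2 k).symm⟩
  have qir : ∀ u e, ¬ Q u e e := fun u e h ↦ h.2.2.1 rfl
  have qun : ∀ u e f k, Q u e f → Q u e k → f = k := fun u e f k h h' ↦ by
    by_contra hfk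
    by_cases j : (T u).card = 4
    · exact not_three g n (mem_filter.1 h.1).1 (mem_filter.1 h.2.1).1 (mem_filter.1 h'.2.1).1
        h.2.2.1 h'.2.2.1 hfk (h.2.2.2 j) (h'.2.2.2 j)
    · exact (hT2 u e h.1 j).not_gt
        (two_lt_card_iff.2 ⟨e, f, k, h.1, h.2.1, h'.2.1, h.2.2.1, h'.2.2.1, hfk⟩)
  have qex : ∀ u, ∀ e ∈ T u, ∃ f, Q u e f := fun u e he ↦ by
    by_cases k : (T u).card = 4
    · have h1 := card_filter_add_card_filter_not (s := incS p u) (fun f ↦ L f = L e)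
      have h2 := cnt_le g n u (!L e)
      have h3 : (incS p u).card = 4 := hT4 u k ▸ k
      simp only [← Bool.eq_not] at h1
      obtain ⟨f, hf, hfe⟩ := exists_mem_ne (s := (incS p u).filter fun f ↦ L f = L e)
        (by omega) e
      exact ⟨f, he, hT4 u k ▸ (mem_filter.1 hf).1, hfe.symm, fun _ ↦ (mem_filter.1 hf).2.symm⟩
    · obtain ⟨f, hf, hfe⟩ := exists_mem_ne (s := T u) (by rw [hT2 u e he k]; decide) e
      exact ⟨f, he, hf, hfe.symm, fun j ↦ absurd j k⟩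
  have hST : ∀ (S1 : Finset E) u, (S1.filter fun e ↦ p e (side u) = u) =
      (incS p u).filter fun e ↦ decide (e ∈ S1) = true := fun S1 u ↦ by
    ext e
    simp [mem_inc g.hs, and_comm]
  have hv4 : 4 ≤ (S.filter fun e ↦ p e (side v) = v).card := by
    rw [hST]
    simpa [S, cnt] using hcon.ge
  have hzv : z ≠ v := by
    rintro rfl
    exact absurd (hr.1.symm.trans hv.1) (by decide)
  obtain ⟨y, hy⟩ := card_eq_one.1 g1
  obtain ⟨y', hy'⟩ := card_eq_one.1 g2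
  have m1 := mem_filter.1 (hy ▸ mem_singleton_self y)
  have m2 := mem_filter.1 (hy' ▸ mem_singleton_self y')
  simp only [Bool.and_eq_true] at m1 m2
  have hyy : y ≠ y' := by
    rintro rfl
    exact absurd hr.2.2 (card_pos.2 ⟨y, mem_filter.2 ⟨m1.1, by simp [m1.2.2, m2.2.2]⟩⟩).ne'
  have key : ∀ S1 ⊆ S, (∀ u ≠ v, ∀ e f, Q u e f → (e ∈ S1 ↔ f ∈ S1)) → y ∈ S1 → S1 = S := by
    intro S1 hsub hcl hyW
    have hs1 : ∀ e ∈ S1, W e = true := fun e he ↦ (mem_filter.1 (hsub he)).2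
    have hyW' : y' ∈ S1 := by
      refine (hcl z hzv y y' ⟨mem_filter.2 ⟨m1.1, m1.2.1⟩, mem_filter.2 ⟨m2.1, m2.2.1⟩, hyy,
        fun k ↦ ?_⟩).1 hyW
      have : deg p z = 4 := (congrArg card (hT4 z k)).symm.trans k
      exact absurd (hr.1.symm.trans this) (by decide)
    have one : ∀ (P : E → Bool) x, x ∈ S1 →
        ((incS p z).filter fun e ↦ (W e && P e) = true) = {x} →
        cnt p (fun e ↦ decide (e ∈ S1) && P e) z = 1 := fun P x hx h ↦ by
      have h1 := mem_filter.1 (h ▸ mem_singleton_self x)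
      refine card_eq_one.2 ⟨x, eq_singleton_iff_unique_mem.2
        ⟨mem_filter.2 ⟨h1.1, ?_⟩, fun e he ↦ mem_singleton.1 (h ▸ ?_)⟩⟩
      · simp only [Bool.and_eq_true] at h1
        simp [hx, h1.2.2]
      · simp only [mem_filter, Bool.and_eq_true, decide_eq_true_eq] at he ⊢
        exact ⟨he.1, hs1 e he.2.1, he.2.2⟩
    have hev : ∀ u ≠ v, Even (S1.filter fun e ↦ p e (side u) = u).card := fun u hu ↦ by
      refine even_of_pairs _ (Q u) (qsy u) (qir u) (qun u) fun e he ↦ ?_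
      obtain ⟨h1, h2⟩ := mem_filter.1 he
      obtain ⟨f, hf⟩ := qex u e (mem_filter.2 ⟨(mem_inc g.hs).2 h2, hs1 e h1⟩)
      exact ⟨f, mem_filter.2 ⟨(hcl u hu e f hf).1 h1, (mem_inc g.hs).1 (mem_filter.1 hf.2.1).1⟩, hf⟩
    refine eq_of_subset_of_card_le hsub ((hmin (fun e ↦ decide (e ∈ S1)) (mem_filter.2 ⟨mem_univ _,
      ⟨fun w ↦ ?_, fun w hw hw' e he f hf hl ↦ ?_⟩, z, hr, one L y hyW hy,
      one F y' hyW' hy'⟩)).trans (by simp [c]))
    · rw [cnt, ← hST]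
      by_cases hw : w = v
      · exact hw ▸ even_at p side g.hs S1 v hev
      · exact hev w hw
    · have k3 := ad.eq w hw hw' e he f hf hl
      by_cases hef : e = f
      · rw [hef]
      rw [decide_eq_decide]
      by_cases hWe : W e = true
      · exact hcl w (fun j ↦ hw (j ▸ hv)) e f
          ⟨mem_filter.2 ⟨he, hWe⟩, mem_filter.2 ⟨hf, k3 ▸ hWe⟩, hef, fun _ ↦ hl⟩
      · exact iff_of_false (fun j ↦ hWe (hs1 e j)) fun j ↦ hWe (k3 ▸ hs1 f j)
  have hTS : ∀ u, ∀ e ∈ T u, e ∈ S := fun u e he ↦ mem_filter.2 ⟨mem_univ _, (mem_filter.1 he).2⟩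
  obtain ⟨S1, hsub, ⟨e0, he0⟩, hne, hcl⟩ := split_at p side S v hv4 Q qsy
    (fun u e f h ↦ ⟨(mem_inc g.hs).1 (mem_filter.1 h.1).1, hTS u e h.1⟩) qun
  by_cases hyW : y ∈ S1
  · exact hne (key S1 hsub hcl hyW)
  · have := key (S \ S1) sdiff_subset (fun u hu e f h ↦ by
      simp only [mem_sdiff, hcl u hu e f h, hTS u e h.1, hTS u f h.2.1])
      (mem_sdiff.2 ⟨mem_filter.2 ⟨mem_univ _, m1.2.1⟩, hyW⟩)
    exact (mem_sdiff.1 (this.symm ▸ hsub he0)).2 he0

end Pool.Agent.Lib.IC4
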