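import Pool.Agent.Lib.IC4.Par64

/-! Shrinking the even edge set until it contains no `big` vertex completely. -/

set_option linter.unusedSectionVars false

namespace Pool.Agent.Lib.IC4.Par64
open Finset

variable {V E : Type*} [Fintype V] [Fintype E] [DecidableEq V] [DecidableEq E]

theorem split_at (p : E → Bool → V) (side : V → Bool) (W : Finset E) (v : V)
    (hv : 4 ≤ (W.filter fun e ↦ p e (side v) = v).card) (Q : V → E → E → Prop)
    (hsy : ∀ u e f, Q u e f → Q u f e)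
    (hin : ∀ u e f, Q u e f → p e (side u) = u ∧ e ∈ W)
    (hun : ∀ u e f g, Q u e f → Q u e g → f = g) :
    ∃ W1 ⊆ W, W1.Nonempty ∧ W1 ≠ W ∧ ∀ u ≠ v, ∀ e f, Q u e f → (e ∈ W1 ↔ f ∈ W1) := by
  classical
  let _ : LinearOrder E := LinearOrder.lift' (Fintype.equivFin E) (Equiv.injective _)
  let C := {t : V × E × E // t.1 ≠ v ∧ Q t.1 t.2.1 t.2.2 ∧ t.2.1 < t.2.2}
  let l : C → W := fun c ↦ ⟨c.1.2.1, (hin _ _ _ c.2.2.1).2⟩
  let r : C → W := fun c ↦ ⟨c.1.2.2, (hin _ _ _ (hsy _ _ _ c.2.2.1)).2⟩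
  have hc : Fintype.card C + 2 ≤ Fintype.card W := by
    let A : Finset (E × Bool) := (W.filter fun e ↦ p e (side v) = v) ×ˢ {side v}
    let φ : C × Bool → E × Bool := fun x ↦ (if x.2 then x.1.1.2.1 else x.1.1.2.2, side x.1.1.1)
    have hp : ∀ x, p (φ x).1 (φ x).2 = x.1.1.1 ∧ (φ x).1 ∈ W := by
      rintro ⟨c, _ | _⟩
      · exact hin _ _ _ (hsy _ _ _ c.2.2.1)
      · exact hin _ _ _ c.2.2.1
    have hinj : Function.Injective φ := by
      rintro ⟨⟨⟨u, e, f⟩, hu, hq, hlt⟩, b⟩ ⟨⟨⟨u', e', f'⟩, hu', hq', hlt'⟩, b'⟩ h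
      have h1 := (hp ⟨⟨⟨u, e, f⟩, hu, hq, hlt⟩, b⟩).1
      rw [h, (hp _).1] at h1
      obtain rfl : u' = u := h1
      have h2 := congrArg Prod.fst h
      cases b <;> cases b' <;>
        simp only [φ, Bool.false_eq_true, if_true, if_false] at h2 hq hq' hlt hlt'
      · subst h2
        obtain rfl := hun _ _ _ _ (hsy _ _ _ hq) (hsy _ _ _ hq')
        rfl
      · subst h2
        obtain rfl := hun _ _ _ _ (hsy _ _ _ hq) hq'
        exact absurd hlt (lt_asymm hlt')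
      · subst h2
        obtain rfl := hun _ _ _ _ hq (hsy _ _ _ hq')
        exact absurd hlt (lt_asymm hlt')
      · subst h2
        obtain rfl := hun _ _ _ _ hq hq'
        rfl
    have hsub : univ.image φ ⊆ (W ×ˢ univ) \ A := by
      intro y hy
      obtain ⟨x, -, rfl⟩ := mem_image.1 hy
      refine mem_sdiff.2 ⟨mem_product.2 ⟨(hp x).2, mem_univ _⟩, fun h ↦ ?_⟩
      obtain ⟨h1, h2⟩ := mem_product.1 h
      have h3 := (hp x).1
      rw [mem_singleton.1 h2, (mem_filter.1 h1).2] at h3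
      exact x.1.2.1 h3.symm
    have hA : A ⊆ W ×ˢ univ := product_subset_product (filter_subset _ _) (subset_univ _)
    have h1 := card_le_card hsub
    have h2 := card_le_card hA
    rw [card_image_of_injective _ hinj, card_sdiff_of_subset hA] at h1
    simp only [A, card_univ, Fintype.card_prod, Fintype.card_bool, card_product, card_singleton,
      Fintype.card_coe] at h1 h2 ⊢
    omega
  obtain ⟨S, hne, hnu, hS⟩ := Lin64.split l r hc
  have hm : ∀ x : W, x.1 ∈ S.map (Function.Embedding.subtype _) ↔ x ∈ S := fun x ↦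
    mem_map' (Function.Embedding.subtype _)
  refine ⟨S.map (Function.Embedding.subtype _), fun e he ↦ ?_, hne.map, fun h ↦ hnu ?_, ?_⟩
  · obtain ⟨x, -, rfl⟩ := mem_map.1 he
    exact x.2
  · exact eq_univ_of_forall fun x ↦ (hm x).1 (h.symm ▸ x.2)
  intro u hu e f h
  rcases lt_trichotomy e f with h1 | rfl | h1
  · exact (hm (l ⟨(u, e, f), hu, h, h1⟩)).trans
      ((hS _).trans (hm (r ⟨(u, e, f), hu, h, h1⟩)).symm)
  · rfl
  · exact (hm (r ⟨(u, f, e), hu, hsy _ _ _ h, h1⟩)).trans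
      ((hS _).symm.trans (hm (l ⟨(u, f, e), hu, hsy _ _ _ h, h1⟩)).symm)

theorem even_of_pairs (T : Finset E) (Q : E → E → Prop) (hsy : ∀ e f, Q e f → Q f e)
    (hir : ∀ e, ¬ Q e e) (hun : ∀ e f g, Q e f → Q e g → f = g)
    (hex : ∀ e ∈ T, ∃ f ∈ T, Q e f) : Even T.card := by
  choose g hg hq using hex
  have := sum_involution (s := T) (f := fun _ ↦ (1 : ZMod 2)) g (fun _ _ ↦ by decide)
    (fun a ha _ h ↦ hir a (by simpa only [h] using hq a ha)) hg
    (fun a ha ↦ hun _ _ _ (hq _ (hg a ha)) (hsy _ _ (hq a ha)))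
  rw [sum_const, nsmul_eq_mul, mul_one] at this
  exact (ZMod.natCast_eq_zero_iff_even).1 this

theorem even_at (p : E → Bool → V) (side : V → Bool) (hs : ∀ e b, side (p e b) = b)
    (W : Finset E) (v : V) (h : ∀ u ≠ v, Even (W.filter fun e ↦ p e (side u) = u).card) :
    Even (W.filter fun e ↦ p e (side v) = v).card := by
  have h1 : Even W.card := by
    rw [card_side p side hs W (!side v)]
    refine even_sum _ fun u hu ↦ h u ?_
    rintro rfl
    simp at hu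
  rw [card_side p side hs W (side v), ← add_sum_erase _ _ (a := v) (by simp)] at h1
  exact (Nat.even_add.1 h1).2 (even_sum _ fun u hu ↦ h u (mem_erase.1 hu).1)

/-- PAR + MINW. `R w` = the differ constraints at `w`; `big` = the vertices `ZZZZ`. -/
theorem par_min (p : E → Bool → V) (side : V → Bool) (hs : ∀ e b, side (p e b) = b)
    (R : V → E → E → Prop) (hsy : ∀ w e f, R w e f → R w f e) (hir : ∀ w e, ¬ R w e e)
    (hin : ∀ w e f, R w e f → p e (side w) = w)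
    (hov : ∀ w e f g, R w e f → R w e g → f ≠ g →
      (∀ h, R w e h → h = f ∨ h = g) ∧ (∀ h, R w f h → h = e) ∧ ∀ h, R w g h → h = e)
    (hd : ∀ w, (univ.filter fun e ↦ p e (side w) = w).card ≤ 4)
    (h4 : ∀ w, (univ.filter fun e ↦ p e (side w) = w).card = 4 →
      ∀ e f g, R w e f → R w e g → f = g)
    (big : V → Prop) (hbig : ∀ w, big w → (univ.filter fun e ↦ p e (side w) = w).card = 4) :
    (∃ b : E → Bool, ∀ w e f, R w e f → b e ≠ b f) ∨
    ∃ W : Finset E, (∀ e ∈ W, ∀ b, ∃ f, R (p e b) e f) ∧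
      (∀ w e f, ¬ big w → R w e f → (∀ g, R w e g → g = f) → (∀ g, R w f g → g = e) →
        (e ∈ W ↔ f ∈ W)) ∧
      (∀ w, Even (W.filter fun e ↦ p e (side w) = w).card) ∧
      (∃ w e f g, R w e f ∧ R w e g ∧ f ≠ g ∧ e ∉ W ∧ f ∈ W ∧ g ∈ W) ∧
      ∀ w, big w → ∃ e, p e (side w) = w ∧ e ∉ W := by
  classical
  rcases par p side hs R hsy hir hin hov with h | ⟨W0, a1, a2, a3, a4⟩
  · exact .inl h
  right
  let P : Finset E → Prop := fun W ↦ (∀ e ∈ W, ∀ b, ∃ f, R (p e b) e f) ∧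
      (∀ w e f, ¬ big w → R w e f → (∀ g, R w e g → g = f) → (∀ g, R w f g → g = e) →
        (e ∈ W ↔ f ∈ W)) ∧
      (∀ w, Even (W.filter fun e ↦ p e (side w) = w).card) ∧
      (∃ w e f g, R w e f ∧ R w e g ∧ f ≠ g ∧ e ∉ W ∧ f ∈ W ∧ g ∈ W)
  obtain ⟨W, hW, hmin⟩ := exists_min_image (univ.filter P) card
    ⟨W0, mem_filter.2 ⟨mem_univ _, a1, fun w e f _ ↦ a2 w e f, a3, a4⟩⟩
  obtain ⟨b1, b2, b3, z, x, y, y', r1, r2, hy, hx, hy1, hy2⟩ := (mem_filter.1 hW).2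
  refine ⟨W, b1, b2, b3, ⟨z, x, y, y', r1, r2, hy, hx, hy1, hy2⟩, fun v hv ↦ ?_⟩
  by_contra hcon
  simp only [not_exists, not_and, not_not] at hcon
  let T : V → Finset E := fun u ↦ W.filter fun e ↦ p e (side u) = u
  have hT : ∀ u, T u ⊆ univ.filter fun e ↦ p e (side u) = u := fun u ↦
    filter_subset_filter _ (subset_univ _)
  have hT4 : ∀ u, (T u).card = 4 → T u = univ.filter fun e ↦ p e (side u) = u := fun u h ↦
    eq_of_subset_of_card_le (hT u) (h ▸ hd u)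
  have hT2 : ∀ u e, e ∈ T u → (T u).card ≠ 4 → (T u).card = 2 := fun u e he h ↦ by
    have h1 := (card_le_card (hT u)).trans (hd u)
    have h2 := card_pos.2 ⟨e, he⟩
    have h3 := Nat.even_iff.1 (b3 u)
    change (T u).card % 2 = 0 at h3
    omega
  let Q : V → E → E → Prop := fun u e f ↦
    e ∈ T u ∧ f ∈ T u ∧ e ≠ f ∧ ((T u).card = 4 → R u e f)
  have qsy : ∀ u e f, Q u e f → Q u f e := fun u e f h ↦
    ⟨h.2.1, h.1, h.2.2.1.symm, fun k ↦ hsy _ _ _ (h.2.2.2 k)⟩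
  have qir : ∀ u e, ¬ Q u e e := fun u e h ↦ h.2.2.1 rfl
  have qun : ∀ u e f g, Q u e f → Q u e g → f = g := fun u e f g h h' ↦ by
    by_cases k : (T u).card = 4
    · exact h4 u (hT4 u k ▸ k) e f g (h.2.2.2 k) (h'.2.2.2 k)
    · by_contra hfg
      have := two_lt_card_iff.2 ⟨e, f, g, h.1, h.2.1, h'.2.1, h.2.2.1, h'.2.2.1, hfg⟩
      rw [hT2 u e h.1 k] at this
      exact lt_irrefl _ this
  have qex : ∀ u, ∀ e ∈ T u, ∃ f, Q u e f := fun u e he ↦ by
    by_cases k : (T u).card = 4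
    · obtain ⟨f, hf⟩ := b1 e (mem_filter.1 he).1 (side u)
      rw [(mem_filter.1 he).2] at hf
      refine ⟨f, he, ?_, fun j ↦ hir u e (j ▸ hf), fun _ ↦ hf⟩
      rw [hT4 u k]
      exact mem_filter.2 ⟨mem_univ _, hin _ _ _ (hsy _ _ _ hf)⟩
    · obtain ⟨f, hf, hfe⟩ := exists_mem_ne (s := T u) (by rw [hT2 u e he k]; decide) e
      exact ⟨f, he, hf, hfe.symm, fun j ↦ absurd j k⟩
  have hv4 : 4 ≤ (T v).card := by
    rw [← hbig v hv]
    exact card_le_card fun e he ↦ mem_filter.2 ⟨hcon e (mem_filter.1 he).2, (mem_filter.1 he).2⟩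
  have hzv : z ≠ v := by
    rintro rfl
    exact hx (hcon x (hin _ _ _ r1))
  have key : ∀ W1 ⊆ W, (∀ u ≠ v, ∀ e f, Q u e f → (e ∈ W1 ↔ f ∈ W1)) → y ∈ W1 → W1 = W := by
    intro W1 hsub hcl hyW
    refine eq_of_subset_of_card_le hsub (hmin W1 (mem_filter.2 ⟨mem_univ _,
      fun e he ↦ b1 e (hsub he), fun w e f hw h k1 k2 ↦ ?_, ?_,
      z, x, y, y', r1, r2, hy, fun h ↦ hx (hsub h), hyW, ?_⟩))
    · have hwv : w ≠ v := fun j ↦ hw (j ▸ hv)
      have k3 := b2 w e f hw h k1 k2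
      by_cases he : e ∈ W
      · exact hcl w hwv e f ⟨mem_filter.2 ⟨he, hin _ _ _ h⟩,
          mem_filter.2 ⟨k3.1 he, hin _ _ _ (hsy _ _ _ h)⟩, fun j ↦ hir w e (j ▸ h), fun _ ↦ h⟩
      · exact iff_of_false (fun j ↦ he (hsub j)) fun j ↦ he (k3.2 (hsub j))
    · have hev : ∀ u ≠ v, Even (W1.filter fun e ↦ p e (side u) = u).card := fun u hu ↦ by
        refine even_of_pairs _ (Q u) (qsy u) (qir u) (qun u) fun e he ↦ ?_
        obtain ⟨h1, h2⟩ := mem_filter.1 he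
        obtain ⟨f, hf⟩ := qex u e (mem_filter.2 ⟨hsub h1, h2⟩)
        exact ⟨f, mem_filter.2 ⟨(hcl u hu e f hf).1 h1, (mem_filter.1 hf.2.1).2⟩, hf⟩
      intro w
      by_cases hw : w = v
      · exact hw ▸ even_at p side hs W1 v hev
      · exact hev w hw
    · refine (hcl z hzv y y' ⟨mem_filter.2 ⟨hy1, hin _ _ _ (hsy _ _ _ r1)⟩,
        mem_filter.2 ⟨hy2, hin _ _ _ (hsy _ _ _ r2)⟩, hy, fun k ↦ ?_⟩).1 hyW
      exact absurd (h4 z (hT4 z k ▸ k) x y y' r1 r2) hy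
  obtain ⟨W1, hsub, ⟨e0, he0⟩, hne, hcl⟩ := split_at p side W v hv4 Q qsy
    (fun u e f h ↦ ⟨(mem_filter.1 h.1).2, (mem_filter.1 h.1).1⟩) qun
  by_cases hyW : y ∈ W1
  · exact hne (key W1 hsub hcl hyW)
  · have := key (W \ W1) sdiff_subset (fun u hu e f h ↦ by
      simp only [mem_sdiff, hcl u hu e f h, (mem_filter.1 h.1).1, (mem_filter.1 h.2.1).1])
      (mem_sdiff.2 ⟨hy1, hyW⟩)
    exact (mem_sdiff.1 (this.symm ▸ hsub he0)).2 he0

end Pool.Agent.Lib.IC4.Par64
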