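import Pool.Agent.Lib.IC4.Blue
import Pool.Agent.Lib.IC4.Min64

/-! Block PAR. -/

set_option linter.unusedSectionVars false

namespace Pool.Agent.Lib.IC4
open Finset

universe u v

namespace PAR
variable {V : Type u} {E : Type v} [Fintype V] [Fintype E] [DecidableEq V] [DecidableEq E]
  {p : E → Bool → V} {side : V → Bool} {F L : E → Bool}

lemma mem_inc (hs : ∀ e b, side (p e b) = b) {w : V} {e : E} :
    e ∈ incS p w ↔ p e (side w) = w := by
  simp only [incS, mem_filter, mem_univ, true_and]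
  refine ⟨?_, fun h => ?_⟩
  · rintro (h | h) <;> rw [← h, hs]
  · revert h; cases side w <;> tauto

lemma cnt_split (P Q : E → Bool) (w : V) :
    cnt p P w = cnt p (fun e ↦ P e && Q e) w + cnt p (fun e ↦ P e && !Q e) w := by
  simp only [cnt]
  rw [← card_filter_add_card_filter_not (s := (incS p w).filter fun e ↦ P e = true)
    (fun e ↦ Q e = true), filter_filter, filter_filter]
  simp

lemma deg_split (P : E → Bool) (w : V) : deg p w = cnt p P w + cnt p (fun e ↦ !P e) w := by
  simp only [cnt, deg]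
  rw [← card_filter_add_card_filter_not (s := incS p w) (fun e ↦ P e = true)]
  simp

/-- at most two edges of each label class at a vertex -/
lemma cnt_le (g : Gr p side) (n : Nice p F L) (w : V) (x : Bool) :
    ((incS p w).filter fun e ↦ L e = x).card ≤ 2 := by
  have h1 := deg_split (p := p) F w
  have h2 := cnt_split (p := p) F L w
  have h3 := cnt_split (p := p) (fun e ↦ !F e) L w
  have h4 := cnt_split (p := p) L F w
  have h5 := deg_split (p := p) L w
  have h6 := n.bal w
  have h7 := n.nov w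
  have h8 := n.fam.f3 w
  have h9 := n.fam.f24 w
  have h10 := g.le w
  simp only [Bool.and_comm (L _)] at h4
  simp only [Viol, Inner] at h7
  have : cnt p L w ≤ 2 ∧ cnt p (fun e ↦ !L e) w ≤ 2 := by omega
  cases x
  · simpa [cnt] using this.2
  · exact this.1

lemma not_three (g : Gr p side) (n : Nice p F L) {w : V} {e f k : E} (he : e ∈ incS p w)
    (hf : f ∈ incS p w) (hk : k ∈ incS p w) (h1 : e ≠ f) (h2 : e ≠ k) (h3 : f ≠ k)
    (l1 : L e = L f) (l2 : L e = L k) : False :=
  (cnt_le g n w (L e)).not_gt (two_lt_card_iff.2 ⟨e, f, k, mem_filter.2 ⟨he, rfl⟩,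
    mem_filter.2 ⟨hf, l1.symm⟩, mem_filter.2 ⟨hk, l2.symm⟩, h1, h2, h3⟩)

lemma inc_three {w : V} {e f k : E} (hd : deg p w = 3) (he : e ∈ incS p w)
    (hf : f ∈ incS p w) (hk : k ∈ incS p w) (h1 : e ≠ f) (h2 : e ≠ k) (h3 : f ≠ k) :
    incS p w = {e, f, k} := by
  refine (eq_of_subset_of_card_le (by simp [insert_subset_iff, *]) ?_).symm
  rw [card_eq_three.2 ⟨e, f, k, h1, h2, h3, rfl⟩]
  exact hd.le

lemma cnt_three {w : V} {e f k : E} (h : incS p w = {e, f, k}) (h1 : e ≠ f) (h2 : e ≠ k)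
    (h3 : f ≠ k) (P : E → Bool) : cnt p P w = (P e).toNat + (P f).toNat + (P k).toNat := by
  rw [cnt, card_filter, h, sum_insert (by simp [*]), sum_pair h3]
  cases P e <;> cases P f <;> cases P k <;> rfl

lemma cn_symm {w : V} {e f : E} (h : Cn p F L w e f) : Cn p F L w f e := by
  simp only [Cn] at h ⊢
  refine ⟨h.2.1, h.1, h.2.2.1.symm, ?_⟩
  tauto

lemma cn_lab {w : V} {e f : E} (h : Cn p F L w e f) (h2 : deg p w ≠ 2) (hr : ¬ Root p F L w) :
    L e = L f := by
  obtain ⟨-, -, -, h | h | h⟩ := h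
  · rw [h.1, h.2]
  · rcases h.2.2 with h | h
    · rw [h.1, h.2]
    · exact absurd h h2
  · exact absurd h.1 hr

/-- two constraints on one dart: a root, `e` is its B-edge -/
lemma two_cn (g : Gr p side) (n : Nice p F L) {w : V} {e f k : E} (h1 : Cn p F L w e f)
    (h2 : Cn p F L w e k) (h3 : f ≠ k) : Root p F L w ∧ incS p w = {e, f, k} ∧
      ¬ Cn p F L w f k ∧ (L f).toNat + (L k).toNat = 1 ∧ (F f).toNat + (F k).toNat = 1 := by
  have hd : deg p w ≠ 2 := fun h ↦ h.not_gt
    (two_lt_card_iff.2 ⟨e, f, k, h1.1, h1.2.1, h2.2.1, h1.2.2.1, h2.2.2.1, h3⟩)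
  have hr : Root p F L w := by
    by_contra hr
    exact not_three g n h1.1 h1.2.1 h2.2.1 h1.2.2.1 h2.2.2.1 h3 (cn_lab h1 hd hr) (cn_lab h2 hd hr)
  have hi := inc_three hr.1 h1.1 h1.2.1 h2.2.1 h1.2.2.1 h2.2.2.1 h3
  have c := cnt_three hi h1.2.2.1 h2.2.2.1 h3
  have a1 := hr.2.1
  have a2 := hr.2.2
  have a3 := n.bal w
  rw [c] at a1 a2
  rw [c, c] at a3
  have b : ∀ x y, Cn p F L w x y → L x = L y ∨ (F x = false ∧ F y = false) := by
    rintro x y ⟨-, -, -, h | h | h⟩
    · exact .inl (h.1.trans h.2.symm)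
    · exact .inl (h.2.2.elim (fun h ↦ h.1.trans h.2.symm) fun h ↦ absurd h hd)
    · exact .inr h.2
  have b1 := b _ _ h1
  have b2 := b _ _ h2
  have : ¬ (L f = L k ∨ (F f = false ∧ F k = false)) ∧ (L f).toNat + (L k).toNat = 1 ∧
      (F f).toNat + (F k).toNat = 1 := by
    revert a1 a2 a3 b1 b2
    generalize L e = x1, L f = x2, L k = x3, F e = y1, F f = y2, F k = y3
    revert x1 x2 x3 y1 y2 y3
    decide
  exact ⟨hr, hi, fun h ↦ this.1 (b _ _ h), this.2⟩

lemma hov (g : Gr p side) (n : Nice p F L) (w : V) (e f k : E) (h1 : Cn p F L w e f)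
    (h2 : Cn p F L w e k) (h3 : f ≠ k) : (∀ h, Cn p F L w e h → h = f ∨ h = k) ∧
      (∀ h, Cn p F L w f h → h = e) ∧ ∀ h, Cn p F L w k h → h = e := by
  obtain ⟨-, hi, hn, -⟩ := two_cn g n h1 h2 h3
  have m : ∀ x y, Cn p F L w x y → y = e ∨ y = f ∨ y = k := fun x y h ↦ by
    simpa [hi] using h.2.1
  refine ⟨fun y h ↦ (m _ _ h).resolve_left h.2.2.1.symm, fun y h ↦ ?_, fun y h ↦ ?_⟩
  · rcases m _ _ h with rfl | rfl | rfl
    exacts [rfl, absurd rfl h.2.2.1, absurd h hn]
  · rcases m _ _ h with rfl | rfl | rfl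
    exacts [rfl, absurd (cn_symm h) hn, absurd rfl h.2.2.1]

end PAR

open PAR in
theorem stPAR : St_PAR.{u, v} := by
  intro V E _ _ _ _ p side F L g n
  classical
  rcases Par64.par p side g.hs (Cn p F L) (fun _ _ _ ↦ cn_symm) (fun _ _ h ↦ h.2.2.1 rfl)
    (fun _ _ _ h ↦ (mem_inc g.hs).1 h.1) (hov g n) with
    h | ⟨W, -, a2, a3, w, e, f, k, h1, h2, h3, he, hf, hk⟩
  · exact .inl h
  · have hev : ∀ w, Even (cnt p (fun e ↦ decide (e ∈ W)) w) := fun w ↦ by
      rw [cnt]
      convert a3 w using 2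
      ext e
      simp [mem_inc g.hs, and_comm]
    refine .inr ⟨fun e ↦ decide (e ∈ W), ⟨hev, fun w _ hr e he f hf hl ↦ ?_⟩, w, ?_⟩
    · by_cases hef : e = f
      · rw [hef]
      by_cases hd : deg p w = 2
      · have hi : incS p w = {e, f} := by
          refine (eq_of_subset_of_card_le (by simp [insert_subset_iff, *]) ?_).symm
          rw [card_pair hef]
          exact hd.le
        have := hev w
        rw [cnt, card_filter, hi, sum_pair hef] at this
        revert this
        generalize decide (e ∈ W) = x, decide (f ∈ W) = y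
        revert x y
        decide
      have nd : ∀ e ∈ incS p w, ∀ f ∈ incS p w, e ≠ f → L e = L f → ¬ Dp p F L e := by
        intro e he f hf hef hl hD
        have hw := (mem_inc g.hs).1 he
        have h4 : ∀ b, deg p (p e b) ≠ 4 := fun b ↦ by
          cases b
          exacts [hD.2.2.2, hD.2.2.1]
        have h3 : deg p (p e (side w)) = 3 := by
          have := g.two e (side w)
          have := h4 (side w)
          have := g.le w
          rw [hw] at *
          omega
        rcases n.d3 e _ hD.1 hD.2.1 h3 with h | ⟨-, h5, h6⟩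
        · exact h4 _ h
        rw [hw] at h3 h5 h6
        have hF : F f = true := by
          have : (incS p w).filter (fun e ↦ F e = true) = incS p w :=
            eq_of_subset_of_card_le (filter_subset _ _) (h3.trans h5.symm).le
          rw [← this] at hf
          exact (mem_filter.1 hf).2
        exact h6.not_gt (one_lt_card.2 ⟨e, mem_filter.2 ⟨he, by simp [hD.1, hD.2.1]⟩,
          f, mem_filter.2 ⟨hf, by simp [hF, ← hl, hD.2.1]⟩, hef⟩)
      have hc : Cn p F L w e f := by
        refine ⟨he, hf, hef, ?_⟩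
        cases h : L e
        · exact .inr (.inl ⟨nd e he f hf hef hl, nd f hf e he (Ne.symm hef) hl.symm,
            .inl ⟨rfl, hl ▸ h⟩⟩)
        · exact .inl ⟨rfl, hl ▸ h⟩
      have un : ∀ e f k, Cn p F L w e f → Cn p F L w e k → k = f := fun e f k h h' ↦ by
        by_contra j
        exact hr (two_cn g n h' h j).1
      simpa using a2 w e f hc (fun k ↦ un e f k hc) fun k ↦ un f e k (cn_symm hc)
    · obtain ⟨hr, hi, -, c1, c2⟩ := two_cn g n h1 h2 h3
      have c := cnt_three hi h1.2.2.1 h2.2.2.1 h3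
      exact ⟨hr, by simpa [c, he, hf, hk] using c1, by simpa [c, he, hf, hk] using c2⟩

end Pool.Agent.Lib.IC4
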