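import Pool.Agent.Lib.IC4.Lin64

/-! Parity step: solve the differ constraints, or find an even edge set with a bent pass. -/

set_option linter.unusedSectionVars false

namespace Pool.Agent.Lib.IC4.Par64
open Finset

variable {V E : Type*} [Fintype V] [Fintype E] [DecidableEq V] [DecidableEq E]

/-- double counting on one side -/
theorem card_side (p : E → Bool → V) (side : V → Bool) (hs : ∀ e b, side (p e b) = b)
    (W : Finset E) (b : Bool) :
    W.card = ∑ w ∈ univ.filter (fun w ↦ side w = b),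
      (W.filter fun e ↦ p e (side w) = w).card := by
  rw [card_eq_sum_card_fiberwise (f := fun e ↦ p e b) (t := univ.filter fun w ↦ side w = b)
    (fun e _ ↦ by simp [hs])]
  refine sum_congr rfl fun w hw ↦ ?_
  rw [(mem_filter.1 hw).2]

theorem par_rel (p : E → Bool → V) (side : V → Bool) (hs : ∀ e b, side (p e b) = b)
    (R : V → E → E → Prop) (hsy : ∀ w e f, R w e f → R w f e) (hir : ∀ w e, ¬ R w e e)
    (hin : ∀ w e f, R w e f → p e (side w) = w) :
    (∃ b : E → Bool, ∀ w e f, R w e f → b e ≠ b f) ∨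
    ∃ (N : V → E → Finset E) (W : Finset E), (∀ w e f, f ∈ N w e → R w e f ∧ e ∈ N w f) ∧
      (∀ e b, e ∈ W ↔ Odd (N (p e b) e).card) ∧
      (∀ w, Even (W.filter fun e ↦ p e (side w) = w).card) ∧ ∃ w e, 2 ≤ (N w e).card := by
  classical
  let _ : LinearOrder E := LinearOrder.lift' (Fintype.equivFin E) (Equiv.injective _)
  let C := {t : V × E × E // R t.1 t.2.1 t.2.2 ∧ t.2.1 < t.2.2}
  rcases Lin64.farkas (fun c : C ↦ c.1.2.1) (fun c ↦ c.1.2.2) with ⟨b, hb⟩ | ⟨S, hodd, hS⟩
  · refine .inl ⟨b, fun w e f h ↦ ?_⟩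
    rcases lt_trichotomy e f with h1 | rfl | h1
    · exact hb ⟨(w, e, f), h, h1⟩
    · exact (hir _ _ h).elim
    · exact (hb ⟨(w, f, e), hsy _ _ _ h, h1⟩).symm
  right
  let T : Finset (V × E × E) := S.map (Function.Embedding.subtype _)
  have hT : ∀ t ∈ T, R t.1 t.2.1 t.2.2 ∧ t.2.1 < t.2.2 := fun t ht ↦ by
    obtain ⟨c, -, rfl⟩ := mem_map.1 ht
    exact c.2
  have hTc : T.card = S.card := card_map _
  let nl : V → E → ℕ := fun w e ↦ (T.filter fun t ↦ t.1 = w ∧ t.2.1 = e).card
  let nr : V → E → ℕ := fun w e ↦ (T.filter fun t ↦ t.1 = w ∧ t.2.2 = e).card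
  let N : V → E → Finset E := fun w e ↦ univ.filter fun f ↦ (w, e, f) ∈ T ∨ (w, f, e) ∈ T
  have hN : ∀ w e, (N w e).card = nl w e + nr w e := fun w e ↦ by
    have h1 : (univ.filter fun f ↦ (w, e, f) ∈ T).card = nl w e := by
      refine card_bij (fun f _ ↦ (w, e, f)) (by simp) (by simp) ?_
      rintro ⟨w', e', f⟩ ht
      obtain ⟨ht, rfl, rfl⟩ := by simpa using ht
      exact ⟨f, by simpa using ht, rfl⟩
    have h2 : (univ.filter fun f ↦ (w, f, e) ∈ T).card = nr w e := by
      refine card_bij (fun f _ ↦ (w, f, e)) (by simp) (by simp) ?_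
      rintro ⟨w', f, e'⟩ ht
      obtain ⟨ht, rfl, rfl⟩ := by simpa using ht
      exact ⟨f, by simpa using ht, rfl⟩
    rw [← h1, ← h2, ← card_union_of_disjoint, ← filter_or]
    refine disjoint_filter.2 fun f _ h h' ↦ ?_
    exact lt_asymm (hT _ h).2 (hT _ h').2
  have hend : ∀ e w, p e (side w) = w ↔ (w = p e true ∨ w = p e false) := fun e w ↦ by
    constructor
    · intro h
      cases hw : side w <;> rw [hw] at h <;> simp [h]
    · rintro (rfl | rfl) <;> rw [hs]
  have hne : ∀ e, p e true ≠ p e false := fun e h ↦ by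
    have := congrArg side h
    simp [hs] at this
  have hev : ∀ e, Even ((N (p e true) e).card + (N (p e false) e).card) := fun e ↦ by
    have h1 : (S.filter fun c ↦ c.1.2.1 = e).card = nl (p e true) e + nl (p e false) e := by
      rw [← card_map (Function.Embedding.subtype _), ← card_union_of_disjoint, ← filter_or]
      · congr 1
        ext t
        simp only [T, mem_map, mem_filter, Function.Embedding.coe_subtype]
        constructor
        · rintro ⟨c, ⟨hc, rfl⟩, rfl⟩
          refine ⟨⟨c, hc, rfl⟩, ?_⟩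
          simpa using (hend _ _).1 (hin _ _ _ c.2.1)
        · rintro ⟨⟨c, hc, rfl⟩, h⟩
          exact ⟨c, ⟨hc, by tauto⟩, rfl⟩
      · exact disjoint_filter.2 fun t _ h h' ↦ hne e (h.1.symm.trans h'.1)
    have h2 : (S.filter fun c ↦ c.1.2.2 = e).card = nr (p e true) e + nr (p e false) e := by
      rw [← card_map (Function.Embedding.subtype _), ← card_union_of_disjoint, ← filter_or]
      · congr 1
        ext t
        simp only [T, mem_map, mem_filter, Function.Embedding.coe_subtype]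
        constructor
        · rintro ⟨c, ⟨hc, rfl⟩, rfl⟩
          refine ⟨⟨c, hc, rfl⟩, ?_⟩
          simpa using (hend _ _).1 (hin _ _ _ (hsy _ _ _ c.2.1))
        · rintro ⟨⟨c, hc, rfl⟩, h⟩
          exact ⟨c, ⟨hc, by tauto⟩, rfl⟩
      · exact disjoint_filter.2 fun t _ h h' ↦ hne e (h.1.symm.trans h'.1)
    have := hS e
    rw [h1, h2] at this
    rw [hN, hN]
    simp only [Nat.even_iff] at this ⊢
    omega
  let W : Finset E := univ.filter fun e ↦ Odd (N (p e true) e).card
  have hW : ∀ e b, e ∈ W ↔ Odd (N (p e b) e).card := fun e b ↦ by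
    have := hev e
    cases b
    · simp only [W, mem_filter, mem_univ, true_and, Nat.odd_iff, Nat.even_iff] at this ⊢
      omega
    · simp [W]
  have hsum : ∀ w, ∑ e ∈ univ.filter (fun e ↦ p e (side w) = w), (N w e).card
      = 2 * (T.filter fun t ↦ t.1 = w).card := fun w ↦ by
    simp only [hN, sum_add_distrib, two_mul]
    congr 1
    · rw [card_eq_sum_card_fiberwise (f := fun t : V × E × E ↦ t.2.1)
        (t := univ.filter fun e ↦ p e (side w) = w)]
      · simp only [nl, filter_filter]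
      · intro t ht
        obtain ⟨ht', rfl⟩ := mem_filter.1 (mem_coe.1 ht)
        simpa using hin _ _ _ (hT _ ht').1
    · rw [card_eq_sum_card_fiberwise (f := fun t : V × E × E ↦ t.2.2)
        (t := univ.filter fun e ↦ p e (side w) = w)]
      · simp only [nr, filter_filter]
      · intro t ht
        obtain ⟨ht', rfl⟩ := mem_filter.1 (mem_coe.1 ht)
        simpa using hin _ _ _ (hsy _ _ _ (hT _ ht').1)
  have hWw : ∀ w, (W.filter fun e ↦ p e (side w) = w) =
      (univ.filter fun e ↦ p e (side w) = w).filter fun e ↦ Odd (N w e).card := fun w ↦ by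
    ext e
    simp only [mem_filter, mem_univ, true_and]
    constructor
    · rintro ⟨h1, h2⟩
      exact ⟨h2, h2 ▸ (hW e _).1 h1⟩
    · rintro ⟨h2, h1⟩
      exact ⟨(hW e (side w)).2 (h2.symm ▸ h1), h2⟩
  have hWev : ∀ w, Even (W.filter fun e ↦ p e (side w) = w).card := fun w ↦ by
    rw [hWw, ← even_sum_iff_even_card_odd, hsum]
    exact even_two_mul _
  refine ⟨N, W, fun w e f h ↦ ?_, hW, hWev, ?_⟩
  · simp only [N, mem_filter, mem_univ, true_and] at h ⊢
    exact ⟨h.elim (fun h ↦ (hT _ h).1) fun h ↦ hsy _ _ _ (hT _ h).1, h.symm⟩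
  by_contra hcon
  simp only [not_exists, not_le] at hcon
  have hloc : ∀ w, (W.filter fun e ↦ p e (side w) = w).card
      = 2 * (T.filter fun t ↦ t.1 = w).card := fun w ↦ by
    rw [hWw, ← hsum, card_filter]
    refine sum_congr rfl fun e _ ↦ ?_
    have := hcon w e
    split_ifs with h <;> simp only [Nat.odd_iff] at h <;> omega
  have h1 := card_side p side hs W true
  have h2 := card_side p side hs W false
  have h3 : T.card = ∑ w, (T.filter fun t ↦ t.1 = w).card :=
    card_eq_sum_card_fiberwise (f := fun t : V × E × E ↦ t.1) (fun _ _ ↦ by simp)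
  rw [← sum_filter_add_sum_filter_not univ (fun w ↦ side w = true)] at h3
  simp only [hloc, ← mul_sum] at h1 h2
  simp only [Bool.not_eq_true] at h3
  rw [Nat.odd_iff] at hodd
  omega

/-- Concrete form: the only overlapping constraints are `f - e - g` passes at special vertices. -/
theorem par (p : E → Bool → V) (side : V → Bool) (hs : ∀ e b, side (p e b) = b)
    (R : V → E → E → Prop) (hsy : ∀ w e f, R w e f → R w f e) (hir : ∀ w e, ¬ R w e e)
    (hin : ∀ w e f, R w e f → p e (side w) = w)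
    (hov : ∀ w e f g, R w e f → R w e g → f ≠ g →
      (∀ h, R w e h → h = f ∨ h = g) ∧ (∀ h, R w f h → h = e) ∧ ∀ h, R w g h → h = e) :
    (∃ b : E → Bool, ∀ w e f, R w e f → b e ≠ b f) ∨
    ∃ W : Finset E, (∀ e ∈ W, ∀ b, ∃ f, R (p e b) e f) ∧
      (∀ w e f, R w e f → (∀ g, R w e g → g = f) → (∀ g, R w f g → g = e) → (e ∈ W ↔ f ∈ W)) ∧
      (∀ w, Even (W.filter fun e ↦ p e (side w) = w).card) ∧
      ∃ w e f g, R w e f ∧ R w e g ∧ f ≠ g ∧ e ∉ W ∧ f ∈ W ∧ g ∈ W := by
  rcases par_rel p side hs R hsy hir hin with h | ⟨N, W, hN, hW, hev, w, e, h2⟩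
  · exact .inl h
  have hW' : ∀ w e f, R w e f → (e ∈ W ↔ Odd (N w e).card) := fun w e f h ↦ by
    rw [hW e (side w), hin _ _ _ h]
  have one : ∀ w e f, R w e f → (∀ g, R w e g → g = f) → (e ∈ W ↔ f ∈ N w e) := by
    intro w e f h hu
    rw [hW' _ _ _ h]
    constructor
    · intro ho
      obtain ⟨g, hg⟩ := card_pos.1 ho.pos
      exact hu g (hN _ _ _ hg).1 ▸ hg
    · intro hf
      rw [show N w e = {f} from eq_singleton_iff_unique_mem.2 ⟨hf, fun g hg ↦ hu g (hN _ _ _ hg).1⟩]
      simp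
  refine .inr ⟨W, fun e he b ↦ ?_, fun w e f h h1 h2 ↦ ?_, hev, ?_⟩
  · obtain ⟨f, hf⟩ := card_pos.1 ((hW e b).1 he).pos
    exact ⟨f, (hN _ _ _ hf).1⟩
  · rw [one w e f h h1, one w f e (hsy _ _ _ h) h2]
    exact ⟨fun h ↦ (hN _ _ _ h).2, fun h ↦ (hN _ _ _ h).2⟩
  obtain ⟨f, hf, g, hg, hfg⟩ := one_lt_card.1 h2
  have rf := (hN _ _ _ hf).1
  have rg := (hN _ _ _ hg).1
  obtain ⟨h3, h4, h5⟩ := hov w e f g rf rg hfg
  refine ⟨w, e, f, g, rf, rg, hfg, ?_, (one w f e (hsy _ _ _ rf) h4).2 (hN _ _ _ hf).2,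
    (one w g e (hsy _ _ _ rg) h5).2 (hN _ _ _ hg).2⟩
  have : N w e = {f, g} := by
    ext h
    simp only [mem_insert, mem_singleton]
    exact ⟨fun hh ↦ h3 h (hN _ _ _ hh).1, by rintro (rfl | rfl) <;> assumption⟩
  rw [hW' _ _ _ rf, this, card_pair hfg]
  decide

end Pool.Agent.Lib.IC4.Par64
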