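import Mathlib

/-! Sliding a token along reversible edges: labels without violations and without conflicts. -/

set_option linter.unusedSectionVars false

namespace Pool.Agent.Lib.IC4.Push
open Finset Classical

/-- The abstract data: a bipartite multigraph, inner vertices, labelled edges `F`, reversible edges,
edges that are paid when labelled `true`, and a matching of conflicting paid edges. -/
structure Data (V E : Type*) where
  p : E → Bool → V
  side : V → Bool
  inner : V → Prop
  F : E → Prop
  rev : E → Prop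
  paid : E → Prop
  conf : E → E → Prop
  hs : ∀ e b, side (p e b) = b
  revF : ∀ e, rev e → F e
  two : ∀ v, inner v → ∃ e f, e ≠ f ∧ rev e ∧ rev f ∧ p e (side v) = v ∧ p f (side v) = v
  pd : ∀ e, rev e → paid e → inner (p e true) → inner (p e false) → False
  csymm : ∀ e f, conf e f → conf f e
  cne : ∀ e f, conf e f → e ≠ f
  cfun : ∀ e f g, conf e f → conf e g → f = g
  cpaid : ∀ e f, conf e f → rev e ∧ paid e

variable {V E : Type*} [Fintype V] [Fintype E] (D : Data V E)

namespace Data

/-- the edge `e` is at the vertex `v` -/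
def At (e : E) (v : V) : Prop := D.p e (D.side v) = v

/-- all labelled edges at `v` carry the label `a` -/
def All (x : E → Bool) (v : V) (a : Bool) : Prop := ∀ e, D.F e → D.At e v → x e = a

/-- a violated inner vertex -/
def viol (x : E → Bool) (v : V) : Prop := D.inner v ∧ ∃ a, D.All x v a

/-- number of violations -/
noncomputable def nv (x : E → Bool) : ℕ := (univ.filter (D.viol x)).card

/-- number of paid edges -/
noncomputable def np (x : E → Bool) : ℕ := (univ.filter fun e => D.paid e ∧ x e = true).card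

/-- the two labellings agree off the reversible edges -/
def ok (x y : E → Bool) : Prop := ∀ e, ¬ D.rev e → y e = x e

/-- the edges in an active conflict -/
def CS (x : E → Bool) : Set E := {e | x e = true ∧ ∃ f, D.conf e f ∧ x f = true}

/-- change one label -/
noncomputable def fl (x : E → Bool) (e : E) : E → Bool := Function.update x e (!x e)

theorem fl_self (x : E → Bool) (e : E) : fl x e e = !x e := by simp [fl]

theorem fl_ne (x : E → Bool) {e f : E} (h : f ≠ e) : fl x e f = x f := by simp [fl, h]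

theorem fl_mem (x : E → Bool) {e f : E} {U : Finset E} (he : e ∉ U) (hf : f ∈ U) :
    fl x e f = x f := fl_ne x fun h => he (h ▸ hf)

theorem ok_refl (x : E → Bool) : D.ok x x := fun _ _ => rfl

theorem ok_trans {x y z : E → Bool} (h : D.ok x y) (h' : D.ok y z) : D.ok x z :=
  fun e he => (h' e he).trans (h e he)

theorem ok_fl (x : E → Bool) {e : E} (he : D.rev e) : D.ok x (fl x e) :=
  fun f hf => fl_ne x fun (h : f = e) => hf (h ▸ he)

theorem at_p (e : E) (b : Bool) : D.At e (D.p e b) := by simp [At, D.hs]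

theorem at_cases {e : E} {c v : V} (hc : D.At e c) (hv : D.At e v) :
    v = c ∨ v = D.p e (!D.side c) := by
  unfold At at hc hv
  by_cases h : D.side v = D.side c
  · left; rw [← hv, h, hc]
  · right
    have : D.side v = !D.side c := by
      cases h1 : D.side v <;> cases h2 : D.side c <;> simp_all
    rw [← this, hv]

theorem other_ne (e : E) (c : V) : D.p e (!D.side c) ≠ c := fun h => by
  have := D.hs e (!D.side c)
  rw [h] at this
  revert this
  cases D.side c <;> simp

theorem pd' {e : E} {c : V} (he : D.rev e) (hp : D.paid e) (hc : D.At e c) (hi : D.inner c) :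
    ¬ D.inner (D.p e (!D.side c)) := fun h => by
  unfold At at hc
  cases h2 : D.side c
  · rw [h2] at hc h; exact D.pd e he hp h (hc ▸ hi)
  · rw [h2] at hc h; exact D.pd e he hp (hc ▸ hi) h

theorem viol_fl_of {x : E → Bool} {e : E} {v : V} (h : ¬ D.At e v) :
    D.viol (fl x e) v ↔ D.viol x v := by
  have : ∀ a, D.All (fl x e) v a ↔ D.All x v a := fun a =>
    forall_congr' fun f => forall_congr' fun _ => forall_congr' fun hf => by
      rw [fl_ne x fun (h' : f = e) => h (h' ▸ hf)]
  simp only [viol, this]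

theorem exists_other {c : V} (hi : D.inner c) (U : Finset E)
    (h1 : ∀ e ∈ U, ∀ f ∈ U, D.At e c → D.At f c → e = f) :
    ∃ e, e ∉ U ∧ D.rev e ∧ D.At e c := by
  obtain ⟨e, f, hne, he, hf, ae, af⟩ := D.two c hi
  by_cases hu : e ∈ U
  · exact ⟨f, fun h => hne (h1 e hu f h ae af), hf, af⟩
  · exact ⟨e, hu, he, ae⟩

theorem not_viol_fl {x : E → Bool} {e : E} {c : V} (hc : D.viol x c) (he : D.rev e)
    (ha : D.At e c) : ¬ D.viol (fl x e) c := by
  rintro ⟨_, a', h'⟩
  obtain ⟨hi, a, h⟩ := hc
  obtain ⟨f, hf, rf, af⟩ := D.exists_other hi {e} (by simp)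
  have hfe : f ≠ e := by simpa using hf
  have e1 := h' f (D.revF f rf) af
  have e2 := h' e (D.revF e he) ha
  rw [fl_ne x hfe, h f (D.revF f rf) af] at e1
  rw [fl_self, h e (D.revF e he) ha, ← e1] at e2
  simp at e2

theorem np_fl_le (x : E → Bool) (e : E) : D.np (fl x e) ≤ D.np x + 1 := by
  refine le_trans (card_le_card (t := insert e (univ.filter fun e => D.paid e ∧ x e = true)) ?_)
    (card_insert_le _ _)
  intro f hf
  simp only [mem_filter, mem_univ, true_and, mem_insert] at hf ⊢
  by_cases h : f = e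
  · exact Or.inl h
  · right; rwa [fl_ne x h] at hf

theorem np_fl_eq (x : E → Bool) {e : E} (h : ¬ D.paid e) : D.np (fl x e) = D.np x := by
  unfold np
  congr 1
  ext f
  simp only [mem_filter, mem_univ, true_and]
  by_cases h' : f = e
  · subst h'; simp [h]
  · rw [fl_ne x h']

theorem np_fl_lt (x : E → Bool) {e : E} (h : D.paid e) (hx : x e = true) :
    D.np (fl x e) + 1 = D.np x := by
  unfold np
  have : (univ.filter fun f => D.paid f ∧ x f = true) =
      insert e (univ.filter fun f => D.paid f ∧ fl x e f = true) := by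
    ext f
    simp only [mem_filter, mem_univ, true_and, mem_insert]
    by_cases h' : f = e
    · subst h'; simp [h, hx]
    · rw [fl_ne x h']; simp [h']
  rw [this, card_insert_of_notMem]
  simp [fl_self, hx]

theorem nv_fl_lt {x : E → Bool} {e : E} {c : V} (hc : D.viol x c) (he : D.rev e) (ha : D.At e c)
    (hw : ¬ D.viol (fl x e) (D.p e (!D.side c))) : D.nv (fl x e) + 1 ≤ D.nv x := by
  unfold nv
  have h0 : c ∉ univ.filter (D.viol (fl x e)) := by simpa using D.not_viol_fl hc he ha
  rw [← card_insert_of_notMem h0]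
  refine card_le_card fun v hv => ?_
  simp only [mem_filter, mem_univ, true_and, mem_insert] at hv ⊢
  rcases hv with rfl | hv
  · exact hc
  · by_cases h : D.At e v
    · rcases D.at_cases ha h with rfl | rfl
      · exact hc
      · exact absurd hv hw
    · exact (D.viol_fl_of h).1 hv

theorem nv_fl_le {x : E → Bool} {e : E} {c : V} (hc : D.viol x c) (he : D.rev e) (ha : D.At e c) :
    D.nv (fl x e) ≤ D.nv x := by
  unfold nv
  have h1 : univ.filter (D.viol (fl x e)) ⊆
      insert (D.p e (!D.side c)) ((univ.filter (D.viol x)).erase c) := by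
    intro v hv
    simp only [mem_filter, mem_univ, true_and, mem_insert, mem_erase] at hv ⊢
    by_cases h : D.At e v
    · rcases D.at_cases ha h with rfl | rfl
      · exact absurd hv (D.not_viol_fl hc he ha)
      · exact Or.inl rfl
    · exact Or.inr ⟨fun h' => h (h' ▸ ha), (D.viol_fl_of h).1 hv⟩
  have h2 := card_erase_add_one (s := univ.filter (D.viol x)) (a := c) (by simpa using hc)
  have h3 := (card_le_card h1).trans (card_insert_le _ _)
  omega

theorem slide1 (t : Bool) (n : ℕ) : ∀ (x : E → Bool) (U : Finset E) (c : V),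
    Fintype.card E ≤ U.card + n → D.inner c → D.All x c (xor t (D.side c)) →
    (∀ e ∈ U, ∀ f ∈ U, D.At e c → D.At f c → e = f) →
    (∀ v, v ≠ c → (∃ e ∈ U, D.At e v) → ∃ e ∈ U, D.At e v ∧ D.F e ∧ x e ≠ xor t (D.side v)) →
    ∃ y, D.ok x y ∧ D.nv y + D.np y ≤ D.nv x + D.np x ∧ D.nv y < D.nv x := by
  induction n with
  | zero =>
    intro x U c hn hi _ h1 _
    obtain ⟨e, he, _⟩ := D.exists_other hi U h1
    have := card_le_univ (insert e U)
    rw [card_insert_of_notMem he] at this
    omega
  | succ n ih =>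
    intro x U c hn hi hA h1 h2
    obtain ⟨e, he, re, ae⟩ := D.exists_other hi U h1
    have hc : D.viol x c := ⟨hi, _, hA⟩
    have hxe := hA e (D.revF e re) ae
    by_cases hw : D.viol (fl x e) (D.p e (!D.side c))
    · obtain ⟨iw, a, hwa⟩ := hw
      have aw := D.at_p e (!D.side c)
      have sw := D.hs e (!D.side c)
      have ha : a = xor t (D.side (D.p e (!D.side c))) := by
        rw [← hwa e (D.revF e re) aw, fl_self, hxe, sw]
        cases t <;> cases D.side c <;> rfl
      subst ha
      have hnp : ¬ D.paid e := fun hp => D.pd' re hp ae hi iw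
      have hU : ∀ g ∈ U, ¬ D.At g (D.p e (!D.side c)) := fun g hg ag => by
        obtain ⟨g', hg', a', f', x'⟩ := h2 _ (D.other_ne e c) ⟨g, hg, ag⟩
        have := hwa g' f' a'
        rw [fl_mem x he hg'] at this
        exact x' this
      obtain ⟨y, oy, cy, vy⟩ := ih (fl x e) (insert e U) _
        (by rw [card_insert_of_notMem he]; omega) iw hwa
        (by
          intro g hg g' hg' ag ag'
          rcases mem_insert.1 hg with rfl | hg
          · rcases mem_insert.1 hg' with rfl | hg'
            · rfl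
            · exact absurd ag' (hU _ hg')
          · exact absurd ag (hU _ hg))
        (by
          rintro v hv ⟨g, hg, ag⟩
          by_cases hvc : v = c
          · subst hvc
            refine ⟨e, mem_insert_self _ _, ae, D.revF e re, ?_⟩
            rw [fl_self, hxe]; simp
          · rcases mem_insert.1 hg with rfl | hg
            · rcases D.at_cases ae ag with h | h
              · exact absurd h hvc
              · exact absurd h hv
            · obtain ⟨g', hg', a', f', x'⟩ := h2 v hvc ⟨g, hg, ag⟩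
              refine ⟨g', mem_insert_of_mem hg', a', f', ?_⟩
              rwa [fl_mem x he hg'])
      have := D.nv_fl_le hc re ae
      have := D.np_fl_eq x hnp
      exact ⟨y, D.ok_trans (D.ok_fl x re) oy, by omega, by omega⟩
    · have := D.nv_fl_lt hc re ae hw
      have := D.np_fl_le x e
      exact ⟨fl x e, D.ok_fl x re, by omega, by omega⟩

theorem step1 {x : E → Bool} {c : V} (hc : D.viol x c) :
    ∃ y, D.ok x y ∧ D.nv y + D.np y ≤ D.nv x + D.np x ∧ D.nv y < D.nv x := by
  obtain ⟨hi, a, hA⟩ := hc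
  refine D.slide1 (xor a (D.side c)) (Fintype.card E) x ∅ c (by simp) hi ?_ (by simp) (by simp)
  have : xor (xor a (D.side c)) (D.side c) = a := by cases a <;> cases D.side c <;> rfl
  rwa [this]

/-- `v` is satisfied by the used edges alone -/
def lock (x : E → Bool) (U : Finset E) (v : V) : Prop :=
  ∃ g ∈ U, ∃ h ∈ U, D.At g v ∧ D.At h v ∧ D.F g ∧ D.F h ∧ x g ≠ x h

theorem lock_not_viol {x : E → Bool} {U : Finset E} {v : V} (h : D.lock x U v) : ¬ D.viol x v := by
  rintro ⟨_, a, hA⟩
  obtain ⟨g, _, h, _, ag, ah, fg, fh, hne⟩ := h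
  exact hne ((hA g fg ag).trans (hA h fh ah).symm)

theorem lock_fl {x : E → Bool} {U : Finset E} {v : V} {e : E} (he : e ∉ U) (h : D.lock x U v) :
    D.lock (fl x e) (insert e U) v := by
  obtain ⟨g, hg, h, hh, ag, ah, fg, fh, hne⟩ := h
  refine ⟨g, mem_insert_of_mem hg, h, mem_insert_of_mem hh, ag, ah, fg, fh, ?_⟩
  rwa [fl_mem x he hg, fl_mem x he hh]

/-- the invariant of the second walk, token at the inner vertex `c` -/
structure Inv (m : ℕ) (S : Set E) (x : E → Bool) (U : Finset E) (c : V) : Prop where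
  vc : D.viol x c
  only : ∀ v, D.viol x v → v = c
  cost : D.np x + 1 ≤ m
  arr : ∃ g ∈ U, D.At g c ∧ D.F g
  one : ∀ e ∈ U, ∀ f ∈ U, D.At e c → D.At f c → e = f
  l1 : ∀ v, v ≠ c → D.inner v → (∃ e ∈ U, D.At e v) → D.lock x U v
  l2 : ∀ g h, D.conf g h → g ∈ U → x g = false ∨ (h ∈ U ∧ x h = false)
  cs : D.CS x ⊆ S

theorem nv_zero {x : E → Bool} (h : ∀ v, ¬ D.viol x v) : D.nv x = 0 := by
  simp [nv, h]

theorem pay {m : ℕ} {S : Set E} {x : E → Bool} {U : Finset E} {f : E}
    (hm : ∀ y, D.ok x y → m ≤ D.nv y + D.np y) (h0 : ∀ v, ¬ D.viol x v) (hc : D.np x ≤ m)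
    (rf : D.rev f) (pf : D.paid f) (xf : x f = true) (hf : f ∉ U)
    (l1 : ∀ v, D.inner v → (∃ e ∈ U, D.At e v) → D.lock x U v)
    (l2 : ∀ g h, D.conf g h → g ∈ U → h ≠ f → x g = false ∨ (h ∈ U ∧ x h = false))
    (cs : D.CS (fl x f) ⊆ S) : ∃ c, D.Inv m S (fl x f) (insert f U) c := by
  have e1 := D.np_fl_lt x pf xf
  have e2 := hm _ (D.ok_fl x rf)
  have e3 : ∃ c, D.viol (fl x f) c := by
    by_contra h
    have := D.nv_zero (x := fl x f) (not_exists.1 h)
    omega
  obtain ⟨c, vc⟩ := e3
  have hat : ∀ v, D.viol (fl x f) v → D.At f v := fun v hv => by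
    by_contra h
    exact h0 v ((D.viol_fl_of h).1 hv)
  have ac := hat c vc
  have hin : ∀ v, D.inner v → D.At f v → v = c := fun v iv av => by
    rcases D.at_cases ac av with h | h
    · exact h
    · exact absurd (h ▸ iv) (D.pd' rf pf ac vc.1)
  have hU : ∀ g ∈ U, ¬ D.At g c := fun g hg ag =>
    D.lock_not_viol (D.lock_fl hf (l1 c vc.1 ⟨g, hg, ag⟩)) vc
  have xf' : fl x f f = false := by rw [fl_self, xf]; rfl
  refine ⟨c, vc, fun v hv => hin v hv.1 (hat v hv), by omega,
    ⟨f, mem_insert_self _ _, ac, D.revF f rf⟩, ?_, ?_, ?_, cs⟩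
  · intro g hg g' hg' ag ag'
    rcases mem_insert.1 hg with rfl | hg
    · rcases mem_insert.1 hg' with rfl | hg'
      · rfl
      · exact absurd ag' (hU _ hg')
    · exact absurd ag (hU _ hg)
  · rintro v hv iv ⟨g, hg, ag⟩
    rcases mem_insert.1 hg with rfl | hg
    · exact absurd (hin v iv ag) hv
    · exact D.lock_fl hf (l1 v iv ⟨g, hg, ag⟩)
  · intro g h hgh hg
    rcases mem_insert.1 hg with rfl | hg
    · exact Or.inl xf'
    · by_cases hh : h = f
      · subst hh; exact Or.inr ⟨mem_insert_self _ _, xf'⟩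
      · rcases l2 g h hgh hg hh with k | ⟨k1, k2⟩
        · left; rwa [fl_mem x hf hg]
        · right; exact ⟨mem_insert_of_mem k1, by rwa [fl_ne x hh]⟩

theorem slide2 (m : ℕ) (S : Set E) (n : ℕ) : ∀ (x : E → Bool) (U : Finset E) (c : V),
    Fintype.card E ≤ U.card + n → (∀ y, D.ok x y → m ≤ D.nv y + D.np y) → D.Inv m S x U c →
    ∃ y, D.ok x y ∧ D.np y ≤ m ∧ (∀ v, ¬ D.viol y v) ∧ D.CS y ⊆ S := by
  induction n with
  | zero =>
    intro x U c hn _ I
    obtain ⟨e, he, _⟩ := D.exists_other I.vc.1 U I.one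
    have := card_le_univ (insert e U)
    rw [card_insert_of_notMem he] at this
    omega
  | succ n ih =>
    intro x U c hn hm I
    obtain ⟨e, he, re, ae⟩ := D.exists_other I.vc.1 U I.one
    have oe := D.ok_fl x re
    have hm' : ∀ y, D.ok (fl x e) y → m ≤ D.nv y + D.np y := fun y h => hm y (D.ok_trans oe h)
    have lc : D.lock (fl x e) (insert e U) c := by
      obtain ⟨g, hg, ag, fg⟩ := I.arr
      obtain ⟨_, a, hA⟩ := I.vc
      refine ⟨g, mem_insert_of_mem hg, e, mem_insert_self _ _, ag, ae, fg, D.revF e re, ?_⟩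
      rw [fl_mem x he hg, fl_self, hA g fg ag, hA e (D.revF e re) ae]
      simp
    have honly : ∀ v, D.viol (fl x e) v → v = D.p e (!D.side c) := fun v hv => by
      by_cases h : D.At e v
      · rcases D.at_cases ae h with k | k
        · exact absurd (k ▸ hv) (D.lock_not_viol lc)
        · exact k
      · exact absurd (I.only v ((D.viol_fl_of h).1 hv) ▸ ae) h
    have hl1 : ∀ v, v ≠ D.p e (!D.side c) → D.inner v → (∃ g ∈ insert e U, D.At g v) →
        D.lock (fl x e) (insert e U) v := by
      rintro v hv iv ⟨g, hg, ag⟩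
      by_cases hvc : v = c
      · exact hvc ▸ lc
      · rcases mem_insert.1 hg with rfl | hg
        · rcases D.at_cases ae ag with h | h
          · exact absurd h hvc
          · exact absurd h hv
        · exact D.lock_fl he (I.l1 v hvc iv ⟨g, hg, ag⟩)
    have hl2 : ∀ g h, D.conf g h → g ∈ U →
        fl x e g = false ∨ (h ∈ insert e U ∧ fl x e h = false) := fun g h hgh hg => by
      rcases I.l2 g h hgh hg with k | ⟨k1, k2⟩
      · left; rwa [fl_mem x he hg]
      · right; exact ⟨mem_insert_of_mem k1, by rwa [fl_mem x he k1]⟩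
    have hcs : (∀ f, D.conf e f → x f = false) → D.CS (fl x e) ⊆ S := fun hf g hg => by
      obtain ⟨xg, h, hgh, xh⟩ := hg
      have ge : g ≠ e := by
        rintro rfl
        rw [fl_ne x (D.cne _ _ hgh).symm, hf h hgh] at xh
        simp at xh
      have he' : h ≠ e := by
        rintro rfl
        rw [fl_ne x ge, hf g (D.csymm _ _ hgh)] at xg
        simp at xg
      rw [fl_ne x ge] at xg
      rw [fl_ne x he'] at xh
      exact I.cs ⟨xg, h, hgh, xh⟩
    by_cases hw : D.viol (fl x e) (D.p e (!D.side c))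
    · have hnp : ¬ D.paid e := fun hp => D.pd' re hp ae I.vc.1 hw.1
      have hU : ∀ g ∈ U, ¬ D.At g (D.p e (!D.side c)) := fun g hg ag =>
        D.lock_not_viol (D.lock_fl he (I.l1 _ (D.other_ne e c) hw.1 ⟨g, hg, ag⟩)) hw
      obtain ⟨y, oy, r⟩ := ih (fl x e) (insert e U) (D.p e (!D.side c))
        (by rw [card_insert_of_notMem he]; omega) hm'
        ⟨hw, honly, by rw [D.np_fl_eq x hnp]; exact I.cost,
          ⟨e, mem_insert_self _ _, D.at_p e _, D.revF e re⟩,
          by
            intro g hg g' hg' ag ag'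
            rcases mem_insert.1 hg with rfl | hg
            · rcases mem_insert.1 hg' with rfl | hg'
              · rfl
              · exact absurd ag' (hU _ hg')
            · exact absurd ag (hU _ hg),
          hl1,
          by
            intro g h hgh hg
            rcases mem_insert.1 hg with rfl | hg
            · exact absurd (D.cpaid _ _ hgh).2 hnp
            · exact hl2 g h hgh hg,
          hcs fun f hf => absurd (D.cpaid _ _ hf).2 hnp⟩
      exact ⟨y, D.ok_trans oe oy, r⟩
    · have h0 : ∀ v, ¬ D.viol (fl x e) v := fun v hv => hw (honly v hv ▸ hv)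
      have hc : D.np (fl x e) ≤ m := (D.np_fl_le x e).trans I.cost
      by_cases hf : ∀ f, D.conf e f → x f = false
      · exact ⟨fl x e, oe, hc, h0, hcs hf⟩
      · simp only [not_forall, Bool.not_eq_false] at hf
        obtain ⟨f, hef, xf⟩ := hf
        have fe : f ≠ e := (D.cne _ _ hef).symm
        have hfe := D.csymm _ _ hef
        have fU : f ∉ U := fun h => by
          rcases I.l2 f e hfe h with k | ⟨k, _⟩
          · rw [xf] at k; simp at k
          · exact he k
        have fU' : f ∉ insert e U := by simp [fe, fU]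
        have niw : ¬ D.inner (D.p e (!D.side c)) := D.pd' re (D.cpaid _ _ hef).2 ae I.vc.1
        obtain ⟨c', I'⟩ := D.pay (S := S) hm' h0 hc (D.cpaid _ _ hfe).1 (D.cpaid _ _ hfe).2
          (by rw [fl_ne x fe, xf]) fU'
          (fun v iv hv => hl1 v (fun h => niw (h ▸ iv)) iv hv)
          (by
            intro g h hgh hg hh
            rcases mem_insert.1 hg with rfl | hg
            · exact absurd (D.cfun _ _ _ hgh hef) hh
            · exact hl2 g h hgh hg)
          (by
            rintro g ⟨xg, h, hgh, xh⟩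
            have xf' : fl (fl x e) f f = false := by rw [fl_self, fl_ne x fe, xf]; rfl
            have gf : g ≠ f := by rintro rfl; rw [xf'] at xg; simp at xg
            have hf' : h ≠ f := by rintro rfl; rw [xf'] at xh; simp at xh
            have ge : g ≠ e := by rintro rfl; exact hf' (D.cfun _ _ _ hgh hef)
            have he' : h ≠ e := by rintro rfl; exact gf (D.cfun _ _ _ (D.csymm _ _ hgh) hef)
            rw [fl_ne _ gf, fl_ne x ge] at xg
            rw [fl_ne _ hf', fl_ne x he'] at xh
            exact I.cs ⟨xg, h, hgh, xh⟩)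
        have of := D.ok_trans oe (D.ok_fl (fl x e) (D.cpaid _ _ hfe).1)
        obtain ⟨y, oy, r⟩ := ih _ _ c'
          (by rw [card_insert_of_notMem fU', card_insert_of_notMem he]; omega)
          (fun y h => hm y (D.ok_trans of h)) I'
        exact ⟨y, D.ok_trans of oy, r⟩

theorem step2 {m : ℕ} {x : E → Bool} (hm : ∀ y, D.ok x y → m ≤ D.nv y + D.np y)
    (h0 : ∀ v, ¬ D.viol x v) (hc : D.np x ≤ m) {f : E} (hf : f ∈ D.CS x) :
    ∃ y, D.ok x y ∧ D.np y ≤ m ∧ (∀ v, ¬ D.viol y v) ∧ D.CS y ⊆ D.CS x \ {f} := by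
  obtain ⟨xf, e, hfe, xe⟩ := hf
  obtain ⟨rf, pf⟩ := D.cpaid _ _ hfe
  obtain ⟨c, I⟩ := D.pay (S := D.CS x \ {f}) (U := ∅) hm h0 hc rf pf xf (by simp) (by simp)
    (by simp) (by
      rintro g ⟨xg, h, hgh, xh⟩
      have xf' : fl x f f = false := by rw [fl_self, xf]; rfl
      have gf : g ≠ f := by rintro rfl; rw [xf'] at xg; simp at xg
      have hf' : h ≠ f := by rintro rfl; rw [xf'] at xh; simp at xh
      rw [fl_ne _ gf] at xg
      rw [fl_ne _ hf'] at xh
      exact ⟨⟨xg, h, hgh, xh⟩, gf⟩)
  have of := D.ok_fl x rf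
  obtain ⟨y, oy, r⟩ := D.slide2 m _ (Fintype.card E) _ _ c (by omega)
    (fun y h => hm y (D.ok_trans of h)) I
  exact ⟨y, D.ok_trans of oy, r⟩

/-- Main statement: a labelling of least cost without violations and without conflicts. -/
theorem push (x₀ : E → Bool) : ∃ x, D.ok x₀ x ∧ (∀ y, D.ok x₀ y → D.np x ≤ D.nv y + D.np y) ∧
    (∀ v, ¬ D.viol x v) ∧ (∀ e f, D.conf e f → x e = true → x f = false) ∧
    ∀ e, D.rev e → D.paid e → x e = true → ∃ b, D.inner (D.p e b) := by
  obtain ⟨x1, o1, m1⟩ := Set.exists_min_image {x | D.ok x₀ x} (fun x => D.nv x + D.np x)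
    (Set.toFinite _) ⟨x₀, D.ok_refl _⟩
  obtain ⟨x2, ⟨o2, c2⟩, m2⟩ := Set.exists_min_image
    {x | D.ok x₀ x ∧ D.nv x + D.np x ≤ D.nv x1 + D.np x1} D.nv (Set.toFinite _) ⟨x1, o1, le_rfl⟩
  have v2 : ∀ v, ¬ D.viol x2 v := fun v hv => by
    obtain ⟨y, oy, cy, vy⟩ := D.step1 hv
    have := m2 y ⟨D.ok_trans o2 oy, cy.trans c2⟩
    omega
  obtain ⟨x, ⟨o3, c3, v3⟩, m3⟩ := Set.exists_min_image
    {x | D.ok x₀ x ∧ D.np x ≤ D.nv x1 + D.np x1 ∧ ∀ v, ¬ D.viol x v} (fun x => (D.CS x).ncard)
    (Set.toFinite _) ⟨x2, o2, by omega, v2⟩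
  have hm : ∀ y, D.ok x y → D.nv x1 + D.np x1 ≤ D.nv y + D.np y :=
    fun y h => m1 y (D.ok_trans o3 h)
  refine ⟨x, o3, fun y h => c3.trans (m1 y h), v3, fun e f hef xe => ?_, fun e re pe xe => ?_⟩
  · by_contra h
    have he : e ∈ D.CS x := ⟨xe, f, hef, by simpa using h⟩
    obtain ⟨y, oy, cy, vy, sy⟩ := D.step2 hm v3 c3 he
    have e1 := m3 y ⟨D.ok_trans o3 oy, cy, vy⟩
    have e2 := Set.ncard_le_ncard sy (Set.toFinite _)
    have e3 := Set.ncard_sdiff_singleton_lt_of_mem he (Set.toFinite _)
    omega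
  · by_contra h
    have e1 := D.np_fl_lt x pe xe
    have e2 := hm _ (D.ok_fl x re)
    have e3 : D.nv (fl x e) = 0 := D.nv_zero fun v hv => by
      by_cases k : D.At e v
      · exact h ⟨_, by rw [show D.p e (D.side v) = v from k]; exact hv.1⟩
      · exact v3 v ((D.viol_fl_of k).1 hv)
    omega

end Data

end Pool.Agent.Lib.IC4.Push
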