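import Pool.Agent.Lib.IC4.Blue
import Pool.Agent.Lib.IC4.Push48

/-! The selection step from the token-sliding lemma. -/

set_option linter.unusedSectionVars false

namespace Pool.Agent.Lib.IC4.SEL48
open Finset Pool.Agent.Lib.IC4

universe u v
variable {V : Type u} {E : Type v} [Fintype V] [Fintype E] [DecidableEq V] [DecidableEq E]
  {p : E → Bool → V} {side : V → Bool} {F L : E → Bool}

theorem mem_inc (hs : ∀ e b, side (p e b) = b) {e : E} {w : V} :
    e ∈ incS p w ↔ p e (side w) = w := by
  simp only [incS, mem_filter, mem_univ, true_and]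
  constructor
  · rintro (h | h)
    · rw [← h, hs]
    · rw [← h, hs]
  · intro h
    cases k : side w
    · right; rwa [k] at h
    · left; rwa [k] at h

theorem mem_p (e : E) (b : Bool) : e ∈ incS p (p e b) := by cases b <;> simp [incS]

theorem cnt_le (P : E → Bool) (w : V) : cnt p P w ≤ deg p w := card_filter_le _ _

theorem cnt_one {P : E → Bool} {w : V} (h : cnt p P w ≤ 1) {e f : E} (he : e ∈ incS p w)
    (hf : f ∈ incS p w) (pe : P e = true) (pf : P f = true) : e = f :=
  card_le_one.1 h e (mem_filter.2 ⟨he, pe⟩) f (mem_filter.2 ⟨hf, pf⟩)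

theorem cnt_zero {P : E → Bool} {w : V} : cnt p P w = 0 ↔ ∀ e ∈ incS p w, P e = false := by
  simp [cnt, card_eq_zero, filter_eq_empty_iff]

theorem cnt_split (P Q : E → Bool) (w : V) :
    cnt p (fun e => P e && Q e) w + cnt p (fun e => P e && !Q e) w = cnt p P w := by
  unfold cnt
  rw [← card_filter_add_card_filter_not (s := (incS p w).filter fun e => P e = true)
    (fun e => Q e = true), filter_filter, filter_filter]
  congr 2 <;> ext e <;> simp

theorem cnt_compl (P : E → Bool) (w : V) : cnt p P w + cnt p (fun e => !P e) w = deg p w := by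
  unfold cnt deg
  rw [← card_filter_add_card_filter_not (s := incS p w) (fun e => P e = true)]
  congr 2
  ext e
  simp

theorem rigid_iff {e : E} (b : Bool) :
    Rigid p e ↔ deg p (p e b) = deg p (p e (!b)) ∧ deg p (p e b) ≠ 4 := by
  cases b
  · simp only [Rigid, Bool.not_false]; omega
  · simp only [Rigid, Bool.not_true]

theorem two_rev (G : Gr p side) (M : Fam p F) (w : V) (h : Inner p F w) :
    ∃ e f, e ≠ f ∧ Rev p F e ∧ Rev p F f ∧ p e (side w) = w ∧ p f (side w) = w := by
  classical
  have h1 : 1 < (((incS p w).filter fun e => F e = true).filter fun e => ¬ Rigid p e).card := by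
    have e1 := card_filter_add_card_filter_not (s := (incS p w).filter fun e => F e = true)
      (fun e => Rigid p e)
    have e0 : ((incS p w).filter fun e => F e = true).card = cnt p F w := rfl
    rcases h with h | ⟨h4, h⟩
    · have d3 : deg p w = 3 := by
        by_contra k
        have := M.f24 w k
        omega
      have : (((incS p w).filter fun e => F e = true).filter fun e => Rigid p e).card ≤ 1 := by
        refine card_le_one.2 fun e he f hf => ?_
        simp only [mem_filter, mem_inc G.hs] at he hf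
        obtain ⟨⟨a1, _⟩, a3⟩ := he
        obtain ⟨⟨b1, _⟩, b3⟩ := hf
        rw [rigid_iff (side w), a1] at a3
        rw [rigid_iff (side w), b1] at b3
        exact M.hub e f (side w) (a1.trans b1.symm) (by rwa [a1]) (by omega) (by omega)
      omega
    · have : (((incS p w).filter fun e => F e = true).filter fun e => Rigid p e).card = 0 := by
        refine card_eq_zero.2 (filter_eq_empty_iff.2 fun e he hr => ?_)
        simp only [mem_filter, mem_inc G.hs] at he
        rw [rigid_iff (side w), he.1] at hr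
        exact hr.2 h4
      omega
  obtain ⟨e, he, f, hf, hne⟩ := one_lt_card.1 h1
  simp only [mem_filter, mem_inc G.hs] at he hf
  exact ⟨e, f, hne, ⟨he.1.2, he.2⟩, ⟨hf.1.2, hf.2⟩, he.1.1, hf.1.1⟩

/-- the two candidate root edges at the ends of a B-edge -/
def C1 (p : E → Bool → V) (F L : E → Bool) (e f : E) : Prop :=
  ∃ g b, F g = false ∧ L g = false ∧ p e b = p g b ∧ p f (!b) = p g (!b) ∧
    deg p (p g b) = 3 ∧ cnt p F (p g b) = 1 ∧ deg p (p g (!b)) = 3 ∧ cnt p F (p g (!b)) = 1

/-- two edges from hubs to the same 2-vertex -/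
def C2 (p : E → Bool → V) (F : E → Bool) (e f : E) : Prop :=
  ∃ b, p e b = p f b ∧ deg p (p e b) = 2 ∧ cnt p F (p e (!b)) = 3 ∧ cnt p F (p f (!b)) = 3

/-- conflicts -/
def Cf (p : E → Bool → V) (F L : E → Bool) (e f : E) : Prop :=
  Rev p F e ∧ Rev p F f ∧ Pay p F e ∧ Pay p F f ∧ e ≠ f ∧ (C1 p F L e f ∨ C2 p F e f)

theorem bool_cases (b c : Bool) : c = b ∨ c = !b := by cases b <;> cases c <;> simp

theorem cf_symm {e f : E} (h : Cf p F L e f) : Cf p F L f e := by
  obtain ⟨a1, a2, a3, a4, a5, h⟩ := h
  refine ⟨a2, a1, a4, a3, a5.symm, ?_⟩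
  rcases h with ⟨g, b, h1, h2, h3, h4, h5, h6, h7, h8⟩ | ⟨b, h1, h2, h3, h4⟩
  · left
    refine ⟨g, !b, h1, h2, h4, ?_, h7, h8, ?_, ?_⟩ <;> rwa [Bool.not_not]
  · exact Or.inr ⟨b, h1.symm, h1 ▸ h2, h4, h3⟩

theorem cf_fun (B : Bal p F L) {e f f' : E} (h : Cf p F L e f) (h' : Cf p F L e f') : f = f' := by
  obtain ⟨re, rf, -, -, ef, h⟩ := h
  obtain ⟨-, rf', -, -, ef', h'⟩ := h'
  rcases h with ⟨g, b, h1, h2, h3, h4, h5, h6, h7, h8⟩ | ⟨b, h1, h2, h3, h4⟩
  · rcases h' with ⟨g', b', k1, k2, k3, k4, k5, k6, k7, k8⟩ | ⟨b', k1, k2, k3, k4⟩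
    · rcases bool_cases b b' with rfl | rfl
      · have hg : g = g' := by
          have e1 := B (p g b')
          have e2 := cnt_split (p := p) (fun e => !F e) L (p g b')
          have e3 := cnt_compl (p := p) F (p g b')
          refine cnt_one (P := fun e => !F e && !L e) (w := p g b') (by omega) (mem_p _ _) ?_
            (by simp [h1, h2]) (by simp [k1, k2])
          rw [← h3, k3]; exact mem_p _ _
        subst hg
        refine cnt_one (P := F) (w := p g (!b')) h8.le ?_ ?_ rf.1 rf'.1
        · rw [← h4]; exact mem_p _ _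
        · rw [← k4]; exact mem_p _ _
      · refine absurd ((rigid_iff b).2 ?_) re.2
        rw [h3, k3, h5, k5]
        simp
    · rcases bool_cases b b' with rfl | rfl
      · rw [h3] at k2; omega
      · rw [Bool.not_not, h3] at k3; omega
  · rcases h' with ⟨g', b', k1, k2, k3, k4, k5, k6, k7, k8⟩ | ⟨b', k1, k2, k3, k4⟩
    · rcases bool_cases b b' with rfl | rfl
      · rw [k3] at h2; omega
      · rw [k3] at h3; omega
    · rcases bool_cases b b' with rfl | rfl
      · by_contra hne
        have : ({e, f, f'} : Finset E) ⊆ incS p (p e b') := by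
          intro a ha
          simp only [mem_insert, mem_singleton] at ha
          rcases ha with rfl | rfl | rfl
          · exact mem_p _ _
          · rw [h1]; exact mem_p _ _
          · rw [k1]; exact mem_p _ _
        have e1 := card_le_card this
        rw [card_eq_three.2 ⟨e, f, f', ef, ef', hne, rfl⟩] at e1
        unfold deg at h2
        omega
      · rw [Bool.not_not] at k3
        have := cnt_le (p := p) F (p e b)
        omega

theorem pay_not {e : E} (h : Pay p F e) (h1 : Inner p F (p e true)) (h2 : Inner p F (p e false)) :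
    False := by
  obtain ⟨b, -, k1, k2⟩ := h
  have a : Inner p F (p e b) ∧ Inner p F (p e (!b)) := by cases b <;> simp [h1, h2]
  have := cnt_le (p := p) F (p e (!b))
  obtain ⟨a1, a2⟩ := a
  unfold Inner at a1 a2
  omega

/-- the instance of the abstract data -/
def data (G : Gr p side) (M : Fam p F) (B : Bal p F L) : Push.Data V E where
  p := p
  side := side
  inner := Inner p F
  F := fun e => F e = true
  rev := Rev p F
  paid := Pay p F
  conf := Cf p F L
  hs := G.hs
  revF := fun _ h => h.1
  two := two_rev G M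
  pd := fun _ _ h => pay_not h
  csymm := fun _ _ => cf_symm
  cne := fun _ _ h => h.2.2.2.2.1
  cfun := fun _ _ _ => cf_fun B
  cpaid := fun _ _ h => ⟨h.1, h.2.2.1⟩

theorem viol_iff (G : Gr p side) (M : Fam p F) (B : Bal p F L) (x : E → Bool) (w : V) :
    (data G M B).viol x w ↔ Viol p F (fun e => !x e) w := by
  simp only [Push.Data.viol, Push.Data.All, Push.Data.At, data, Viol, cnt_zero, mem_inc G.hs,
    Bool.exists_bool]
  refine and_congr Iff.rfl ?_
  rw [or_comm]
  refine or_congr ?_ ?_ <;> refine forall_congr' fun e => ?_ <;> cases F e <;> simp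

theorem nv_eq (G : Gr p side) (M : Fam p F) (B : Bal p F L) (x : E → Bool) :
    (data G M B).nv x = nviol p F fun e => !x e := by
  unfold Push.Data.nv nviol
  congr 1
  ext w
  simp only [mem_filter, viol_iff]

theorem np_eq (G : Gr p side) (M : Fam p F) (B : Bal p F L) (x : E → Bool) :
    (data G M B).np x = npaid p F fun e => !x e := by
  unfold Push.Data.np npaid
  congr 1
  ext w
  simp [data, Paid]

theorem root_edge {L' : E → Bool} (G : Gr p side) (hl : Lab p F L') {e : E} {b : Bool}
    (h : Root p F L' (p e b)) : ∃ f, p f b = p e b ∧ Rev p F f ∧ Pay p F f ∧ L' f = false := by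
  obtain ⟨h1, h2, h3⟩ := h
  obtain ⟨f, hf⟩ := card_pos.1 (show 0 < cnt p F (p e b) by omega)
  obtain ⟨a1, a2⟩ := mem_filter.1 hf
  have a3 : L' f = false := by simpa [a2] using cnt_zero.1 h3 f a1
  rw [mem_inc G.hs, G.hs] at a1
  refine ⟨f, a1, ⟨a2, fun r => ?_⟩, ⟨b, a2, by rwa [a1], Or.inl (by rwa [a1])⟩, a3⟩
  rw [hl f a2 r] at a3
  simp at a3

theorem dp_edge {L' : E → Bool} (G : Gr p side) (hl : Lab p F L') (h3 : D3 p F L') {e : E}
    {b : Bool} (h2 : deg p (p e b) = 2) (h : Dp p F L' e) :
    Rev p F e ∧ Pay p F e ∧ cnt p F (p e (!b)) = 3 := by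
  obtain ⟨a1, a2, a3, a4⟩ := h
  have nr : ¬ Rigid p e := fun r => by
    rw [hl e a1 r] at a2
    simp at a2
  have d4 : deg p (p e (!b)) ≠ 4 := by cases b <;> simpa
  have d3 : deg p (p e (!b)) = 3 := by
    have := G.two e (!b)
    have := G.le (p e (!b))
    rw [rigid_iff b] at nr
    omega
  have := h3 e (!b) a1 a2 d3
  rw [Bool.not_not] at this
  exact ⟨⟨a1, nr⟩, ⟨!b, a1, d3, Or.inr (by rwa [Bool.not_not])⟩, by omega⟩

end Pool.Agent.Lib.IC4.SEL48

namespace Pool.Agent.Lib.IC4
open SEL48

universe u v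

theorem stSEL48 (hL : St_LOC.{u, v}) : St_SEL.{u, v} := by
  intro V E _ _ _ _ p side F L G M mL B
  obtain ⟨x, ox, cx, vx, fx, -⟩ := (data G M B).push fun e => !L e
  have hx : ∀ e, ¬ Rev p F e → (!x e) = L e := fun e he => by rw [ox e he]; simp
  have nov : ∀ w, ¬ Viol p F (fun e => !x e) w := fun w h => vx w ((viol_iff G M B x w).2 h)
  have hT : TL p F (fun e => !x e) ≤ TL p F L := by
    have e1 := cx _ ((data G M B).ok_refl _)
    have e2 := (data G M B).nv_zero vx
    rw [nv_eq, np_eq, np_eq] at e1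
    rw [nv_eq] at e2
    simp only [Bool.not_not] at e1
    unfold TL
    change _ ≤ nviol p F L + npaid p F L at e1
    omega
  have lab : Lab p F fun e => !x e := fun e he r => by
    have := hx e fun h => h.2 r
    rw [mL.1 e he r] at this
    exact this
  have d3 : D3 p F fun e => !x e :=
    hL V E p side F _ G M ⟨lab, fun L' h => hT.trans (mL.2 L' h)⟩
  have cf : ∀ e f, Cf p F L e f → (!x e) = false → (!x f) = false → False := fun e f h a b => by
    have := fx e f h (by simpa using a)
    simp [this] at b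
  refine ⟨fun e => !x e, ⟨M, lab, fun w => ?_, nov, d3, fun e fe le r1 r2 => ?_,
    fun e f b h1 h2 de df => ?_⟩, hT⟩
  · have k : ∀ e, F e = false → (!x e) = L e := fun e he => hx e fun h => by
      rw [h.1] at he; simp at he
    have e1 : (fun e => !F e && !x e) = fun e => !F e && L e := funext fun e => by
      cases h : F e
      · rw [k e h]
      · simp
    have e2 : (fun e => !F e && !!x e) = fun e => !F e && !L e := funext fun e => by
      cases h : F e
      · rw [k e h]
      · simp
    show cnt p (fun e => !F e && !x e) w = cnt p (fun e => !F e && !!x e) w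
    rw [e1, e2]
    exact B w
  · obtain ⟨f, a1, a2, a3, a4⟩ := root_edge G lab r1
    obtain ⟨g, b1, b2, b3, b4⟩ := root_edge G lab r2
    have le' : L e = false := by
      rw [← hx e fun h => by rw [h.1] at fe; simp at fe]
      exact le
    refine cf f g ⟨a2, b2, a3, b3, ?_, Or.inl ⟨e, true, fe, le', a1, b1, r1.1, r1.2.1, r2.1,
      r2.2.1⟩⟩ a4 b4
    rintro rfl
    refine a2.2 ⟨?_, ?_⟩
    · rw [a1, b1, r1.1, r2.1]
    · rw [a1, r1.1]; simp
  · by_contra hne
    obtain ⟨a1, a2, a3⟩ := dp_edge G lab d3 h2 de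
    obtain ⟨b1, b2, b3⟩ := dp_edge G lab d3 (h1 ▸ h2) df
    exact cf e f ⟨a1, b1, a2, b2, hne, Or.inr ⟨b, h1, h2, a3, b3⟩⟩ de.2.1 df.2.1

end Pool.Agent.Lib.IC4
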