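import Mathlib

/-! Sliding tokens along reversible edges: a two-valued labelling of the edges of a bipartite
multigraph can be changed, without raising `violations + paid edges`, into one without violations
and without two conflicting paid edges. -/

set_option linter.unusedSectionVars false

namespace Pool.Agent.Lib.IC4.Slide
open Finset

variable {V E : Type*} [Fintype V] [Fintype E] [DecidableEq V] [DecidableEq E]

/-- The data: ends `p`, sides, the edge set `F`, inner nodes, reversible and payable edges, and a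
matching `κ` of conflicts. -/
structure Data (V E : Type*) where
  p : E → Bool → V
  side : V → Bool
  F : E → Prop
  Inn : V → Prop
  Rev : E → Prop
  pay : E → Prop
  κ : E → E → Prop
  hs : ∀ e b, side (p e b) = b
  two : ∀ v, Inn v → ∃ e f, e ≠ f ∧ Rev e ∧ Rev f ∧ p e (side v) = v ∧ p f (side v) = v
  revF : ∀ e, Rev e → F e
  payR : ∀ e, pay e → Rev e
  payI : ∀ e, pay e → ∃ b, ¬ Inn (p e b)
  κsymm : ∀ e f, κ e f → κ f e
  κfun : ∀ e f g, κ e f → κ e g → f = g
  κne : ∀ e f, κ e f → e ≠ f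
  κpay : ∀ e f, κ e f → pay e

namespace Data
variable (S : Data V E)

/-- `e` is an `F`-edge at `v` -/
def At (v : V) (e : E) : Prop := S.F e ∧ S.p e (S.side v) = v

/-- an inner node all of whose `F`-edges have the same label -/
def viol (d : E → Bool) (v : V) : Prop := S.Inn v ∧ ∀ e f, S.At v e → S.At v f → d e = d f

open Classical in
/-- the set of violated nodes -/
noncomputable def vs (d : E → Bool) : Finset V := univ.filter (S.viol d)

open Classical in
/-- the set of paid edges -/
noncomputable def ps (d : E → Bool) : Finset E := univ.filter fun e => S.pay e ∧ d e = true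

open Classical in
/-- the set of paid edges in conflict -/
noncomputable def cs (d : E → Bool) : Finset E :=
  univ.filter fun e => d e = true ∧ ∃ f, S.κ e f ∧ d f = true

/-- the cost -/
noncomputable def T (d : E → Bool) : ℕ := (S.vs d).card + (S.ps d).card

lemma mem_vs {d v} : v ∈ S.vs d ↔ S.viol d v := by simp [vs]
lemma mem_ps {d e} : e ∈ S.ps d ↔ S.pay e ∧ d e = true := by simp [ps]
lemma mem_cs {d e} : e ∈ S.cs d ↔ d e = true ∧ ∃ f, S.κ e f ∧ d f = true := by simp [cs]

/-- flip the label of one edge -/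
def fl (d : E → Bool) (e : E) : E → Bool := fun f => if f = e then !d e else d f

lemma fl_self (d : E → Bool) (e : E) : fl d e e = !d e := by simp [fl]
lemma fl_ne (d : E → Bool) {e f : E} (h : f ≠ e) : fl d e f = d f := by simp [fl, h]

lemma fl_mem (d : E → Bool) {U : Finset E} {q f : E} (hq : q ∉ U) (h : f ∈ U) :
    fl d q f = d f := fl_ne d fun j => hq (j ▸ h)

lemma viol_fl {d : E → Bool} {e : E} {v : V} (h : ¬ S.At v e) :
    S.viol (fl d e) v ↔ S.viol d v := by
  have k : ∀ f, S.At v f → fl d e f = d f := fun f hf => fl_ne d fun j => h (j ▸ hf)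
  refine and_congr_right fun _ => forall₂_congr fun f g => forall₂_congr fun hf hg => ?_
  rw [k f hf, k g hg]

lemma end_cases {e : E} {v m : V} (hm : S.p e (S.side m) = m) (hv : S.p e (S.side v) = v) :
    v = m ∨ v = S.p e (!S.side m) := by
  by_cases h : S.side v = S.side m
  · left; rw [← hv, h, hm]
  · right; rw [← hv]; congr 1; revert h; cases S.side v <;> cases S.side m <;> simp

lemma other {v : V} (hv : S.Inn v) (f0 : E) : ∃ e, e ≠ f0 ∧ S.Rev e ∧ S.At v e := by
  obtain ⟨e, f, hef, he, hf, he', hf'⟩ := S.two v hv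
  by_cases h : e = f0
  · exact ⟨f, fun j => hef (h.trans j.symm), hf, S.revF f hf, hf'⟩
  · exact ⟨e, h, he, S.revF e he, he'⟩

lemma not_viol_fl {d : E → Bool} {e : E} {m : V} (hm : S.viol d m) (he : S.At m e) :
    ¬ S.viol (fl d e) m := by
  obtain ⟨f, hf, -, hf'⟩ := S.other hm.1 e
  intro h
  have h1 := h.2 e f he hf'
  rw [fl_self, fl_ne d hf, hm.2 e f he hf'] at h1
  simp at h1

lemma vs_fl {d : E → Bool} {e : E} {m : V} (hm : S.viol d m) (he : S.At m e) {v : V}
    (hv : S.viol (fl d e) v) : v ∈ (S.vs d).erase m ∨ v = S.p e (!S.side m) := by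
  by_cases h : S.At v e
  · rcases S.end_cases he.2 h.2 with rfl | h
    · exact absurd hv (S.not_viol_fl hm he)
    · exact Or.inr h
  · refine Or.inl (mem_erase.2 ⟨?_, S.mem_vs.2 ((S.viol_fl h).1 hv)⟩)
    rintro rfl
    exact h he

lemma ps_fl (d : E → Bool) (e : E) : S.ps (fl d e) ⊆ insert e (S.ps d) := by
  intro f hf
  by_cases h : f = e
  · simp [h]
  · rw [mem_ps, fl_ne d h] at hf
    exact mem_insert_of_mem (S.mem_ps.2 hf)

lemma ps_fl' (d : E → Bool) {e : E} (he : ¬ S.pay e) : S.ps (fl d e) ⊆ S.ps d := by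
  intro f hf
  rcases mem_insert.1 (S.ps_fl d e hf) with rfl | h
  · exact absurd (S.mem_ps.1 hf).1 he
  · exact h

lemma pay_other {e : E} {m : V} (hp : S.pay e) (hm : S.Inn m) (he : S.At m e) :
    ¬ S.Inn (S.p e (!S.side m)) := by
  obtain ⟨b, hb⟩ := S.payI e hp
  by_cases h : b = S.side m
  · rw [h, he.2] at hb; exact absurd hm hb
  · have : b = !S.side m := by revert h; cases b <;> cases S.side m <;> simp
    rwa [this] at hb

/-- fixing a violated node does not raise the cost -/
lemma T_fl {d : E → Bool} {e : E} {m : V} (hm : S.viol d m) (he : S.At m e) :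
    S.T (fl d e) ≤ S.T d ∧ (S.vs (fl d e)).card ≤ (S.vs d).card ∧
      (¬ S.viol (fl d e) (S.p e (!S.side m)) → (S.vs (fl d e)).card < (S.vs d).card) := by
  have c0 : ((S.vs d).erase m).card + 1 = (S.vs d).card := card_erase_add_one (S.mem_vs.2 hm)
  have c1 : ¬ S.viol (fl d e) (S.p e (!S.side m)) → (S.vs (fl d e)).card < (S.vs d).card :=
    fun h => by
      have : S.vs (fl d e) ⊆ (S.vs d).erase m := fun v hv =>
        (S.vs_fl hm he (S.mem_vs.1 hv)).resolve_right fun j => h (j ▸ S.mem_vs.1 hv)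
      have := card_le_card this
      omega
  have c2 : (S.vs (fl d e)).card ≤ (S.vs d).card := by
    have : S.vs (fl d e) ⊆ insert (S.p e (!S.side m)) ((S.vs d).erase m) := fun v hv =>
      mem_insert.2 (S.vs_fl hm he (S.mem_vs.1 hv)).symm
    have := (card_le_card this).trans (card_insert_le _ _)
    omega
  refine ⟨?_, c2, c1⟩
  unfold T
  by_cases hp : S.pay e
  · have := c1 fun h => S.pay_other hp hm.1 he h.1
    have := (card_le_card (S.ps_fl d e)).trans (card_insert_le _ _)
    omega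
  · have := card_le_card (S.ps_fl' d hp)
    omega

/-- agreement outside the reversible edges -/
def Ag (d d' : E → Bool) : Prop := ∀ e, ¬ S.Rev e → d' e = d e

lemma ag_fl (d : E → Bool) {e : E} (he : S.Rev e) : S.Ag d (fl d e) :=
  fun _ hf => fl_ne d fun j => hf (j ▸ he)

lemma Ag.trans {S : Data V E} {d d' d'' : E → Bool} (h : S.Ag d d') (h' : S.Ag d' d'') :
    S.Ag d d'' := fun e he => (h' e he).trans (h e he)

lemma walk1 (σ : Bool) (k : ℕ) : ∀ (U : Finset V) (d : E → Bool) (m : V) (f0 : E),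
    Uᶜ.card = k → m ∈ U → S.Inn m → (∀ e, S.At m e → d e = xor σ (S.side m)) →
    (∀ u ∈ U, ∀ e, S.At u e → d e ≠ xor σ (S.side u) → S.p e (!S.side u) ∈ U) →
    (∀ e, S.At m e → S.p e (!S.side m) ∈ U → e = f0) →
    ∃ d', S.Ag d d' ∧ S.T d' ≤ S.T d ∧ (S.vs d').card < (S.vs d).card := by
  induction k using Nat.strong_induction_on with
  | _ k ih =>
  intro U d m f0 hk hm hI hl hb hc
  have hv : S.viol d m := ⟨hI, fun e f he hf => (hl e he).trans (hl f hf).symm⟩
  obtain ⟨e, hne, hR, he⟩ := S.other hI f0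
  obtain ⟨t1, t2, t3⟩ := S.T_fl hv he
  set w := S.p e (!S.side m) with hw
  by_cases hvw : S.viol (fl d e) w
  swap
  · exact ⟨_, S.ag_fl d hR, t1, t3 hvw⟩
  have hwU : w ∉ U := fun h => hne (hc e he h)
  have sw : S.side w = !S.side m := S.hs _ _
  have hew : S.At w e := ⟨he.1, by rw [sw]⟩
  have lw : ∀ f, S.At w f → fl d e f = xor σ (S.side w) := fun f hf => by
    rw [hvw.2 f e hf hew, fl_self, hl e he, sw]
    cases σ <;> cases S.side m <;> rfl
  obtain ⟨d', a1, a2, a3⟩ := ih (insert w U)ᶜ.card (by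
    rw [← hk]
    exact card_lt_card ⟨compl_subset_compl.2 (subset_insert _ _), fun h => by
      simpa using h (mem_compl.2 hwU)⟩) (insert w U) (fl d e) w e rfl (mem_insert_self _ _)
    hvw.1 lw (fun u hu f hf hd => by
      rcases mem_insert.1 hu with rfl | hu'
      · exact absurd (lw f hf) hd
      by_cases hfe : f = e
      · subst hfe
        rcases S.end_cases he.2 hf.2 with rfl | h
        · exact mem_insert_self _ _
        · exact absurd (by rw [hw, ← h]; exact hu') hwU
      · rw [fl_ne d hfe] at hd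
        exact mem_insert_of_mem (hb u hu' f hf hd))
    (fun f hf hu => by
      by_contra hfe
      have su : S.side (S.p f (!S.side w)) = !S.side w := S.hs _ _
      rcases mem_insert.1 hu with h | hu
      · rw [h] at su; simp at su
      have := hb _ hu f ⟨hf.1, by rw [su]⟩ (by
        rw [← fl_ne d hfe, lw f hf, su]
        cases σ <;> cases S.side w <;> simp)
      rw [su, Bool.not_not, hf.2] at this
      exact hwU this)
  exact ⟨d', (S.ag_fl d hR).trans a1, a2.trans t1, a3.trans_le t2⟩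

lemma no_viol (n : ℕ) : ∀ d : E → Bool, (S.vs d).card = n →
    ∃ d', S.Ag d d' ∧ S.T d' ≤ S.T d ∧ ∀ v, ¬ S.viol d' v := by
  induction n using Nat.strong_induction_on with
  | _ n ih =>
  intro d hn
  by_cases h : ∃ m, S.viol d m
  swap
  · exact ⟨d, fun _ _ => rfl, le_rfl, fun v hv => h ⟨v, hv⟩⟩
  obtain ⟨m, hm⟩ := h
  obtain ⟨e, -, -, -, -, he, -⟩ := S.two m hm.1
  obtain ⟨e, -, hR, he⟩ := S.other hm.1 e
  have hl : ∀ f, S.At m f → d f = xor (xor (d e) (S.side m)) (S.side m) := fun f hf => by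
    rw [hm.2 f e hf he]; simp
  obtain ⟨d1, a1, a2, a3⟩ := S.walk1 (xor (d e) (S.side m)) _ {m} d m e rfl (mem_singleton_self _)
    hm.1 hl (fun u hu f hf hd => by
      rw [mem_singleton.1 hu] at hf hd
      exact absurd (hl f hf) hd)
    (fun f _ hu => by
      have := S.hs f (!S.side m)
      rw [mem_singleton.1 hu] at this
      simp at this)
  obtain ⟨d2, b1, b2, b3⟩ := ih _ (hn ▸ a3) d1 rfl
  exact ⟨d2, a1.trans b1, b2.trans a2, b3⟩

/-- a node that is satisfied by used edges -/
def Lock (U : Finset E) (d : E → Bool) (u : V) : Prop :=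
  ∃ e ∈ U, ∃ f ∈ U, S.At u e ∧ S.At u f ∧ d e ≠ d f

lemma Lock.fl {S : Data V E} {U : Finset E} {d : E → Bool} {u : V} (h : S.Lock U d u) {q : E}
    (hq : q ∉ U) : S.Lock (insert q U) (fl d q) u := by
  obtain ⟨e, he, f, hf, h1, h2, h3⟩ := h
  refine ⟨e, mem_insert_of_mem he, f, mem_insert_of_mem hf, h1, h2, ?_⟩
  rwa [fl_mem d hq he, fl_mem d hq hf]

lemma Lock.nv {S : Data V E} {U : Finset E} {d : E → Bool} {u : V} (h : S.Lock U d u) :
    ¬ S.viol d u := fun hv => by
  obtain ⟨e, -, f, -, h1, h2, h3⟩ := h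
  exact h3 (hv.2 e f h1 h2)

/-- unpaying a paid edge does not raise the cost -/
lemma T_fl_paid {d : E → Bool} (nv : ∀ v, ¬ S.viol d v) {q : E} (pq : S.pay q)
    (dq : d q = true) : S.T (fl d q) ≤ S.T d := by
  have dq' : fl d q q = false := by rw [fl_self, dq]; rfl
  obtain ⟨b, hb⟩ := S.payI q pq
  have h1 : S.vs (fl d q) ⊆ {S.p q (!b)} := fun v hv => by
    have hv := S.mem_vs.1 hv
    have hvq : S.At v q := by
      by_contra j
      exact nv v ((S.viol_fl j).1 hv)
    rcases S.end_cases (m := S.p q b) (by rw [S.hs]) hvq.2 with rfl | h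
    · exact absurd hv.1 hb
    · rw [S.hs] at h; exact mem_singleton.2 h
  have h2 : S.ps (fl d q) ⊆ (S.ps d).erase q := fun f hf => by
    have : f ≠ q := fun j => by
      have := (S.mem_ps.1 hf).2
      rw [j, dq'] at this
      simp at this
    exact mem_erase.2 ⟨this, (mem_insert.1 (S.ps_fl d q hf)).resolve_left this⟩
  have h3 := card_erase_add_one (S.mem_ps.2 ⟨pq, dq⟩)
  have h4 := card_le_card h1
  have h5 := card_le_card h2
  rw [card_singleton] at h4
  unfold T
  omega

lemma cs_fl (d : E → Bool) (q : E) : ∀ a ∈ S.cs (fl d q), a ∈ S.cs d ∨ a = q ∨ S.κ q a :=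
  fun a ha => by
    obtain ⟨h1, f, h2, h3⟩ := S.mem_cs.1 ha
    by_cases k1 : a = q
    · exact Or.inr (Or.inl k1)
    by_cases k2 : f = q
    · exact Or.inr (Or.inr (k2 ▸ S.κsymm _ _ h2))
    rw [fl_ne d k1] at h1
    rw [fl_ne d k2] at h3
    exact Or.inl (S.mem_cs.2 ⟨h1, f, h2, h3⟩)

lemma walk2 (C : Finset E) (k : ℕ) : ∀ (U : Finset E) (d : E → Bool) (e : E),
    Uᶜ.card = k → e ∈ U →
    (∀ u, S.Inn u → S.Lock U d u ∨ ∀ f ∈ U, S.At u f → f = e) →
    (∀ a b, S.κ a b → (a ∈ U ∧ d a = false) ∨ (b ∈ U ∧ d b = false) ∨ a ∉ U ∨ a = e) →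
    (∀ u, S.viol d u → S.At u e) →
    (∀ a ∈ S.cs d, a ∈ C ∨ a = e ∨ S.κ e a) →
    (S.pay e → d e = true → ∀ u, S.Inn u → S.At u e → S.Lock U d u) →
    (∃ b, S.Inn (S.p e b) → S.Lock U d (S.p e b)) →
    ∃ d', S.Ag d d' ∧ S.T d' ≤ S.T d ∧ (∀ v, ¬ S.viol d' v) ∧ S.cs d' ⊆ C := by
  induction k using Nat.strong_induction_on with
  | _ k ih =>
  intro U d e hk heU i1 i2 i3 i3' i4 i5
  have lt : ∀ q, q ∉ U → (insert q U)ᶜ.card < k := fun q hq => by
    rw [← hk]
    exact card_lt_card ⟨compl_subset_compl.2 (subset_insert _ _), fun h => by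
      simpa using h (mem_compl.2 hq)⟩
  have csfl := S.cs_fl d
  have csC : e ∉ S.cs d → ∀ a ∈ S.cs d, a ∈ C := fun he a ha => by
    rcases i3' a ha with h | rfl | h
    · exact h
    · exact absurd ha he
    · obtain ⟨h1, f, h2, h3⟩ := S.mem_cs.1 ha
      have := S.κfun _ _ _ h2 (S.κsymm _ _ h)
      subst this
      exact absurd (S.mem_cs.2 ⟨h3, a, h, h1⟩) he
  by_cases hA : ∃ u, S.viol d u
  · obtain ⟨u, hu⟩ := hA
    have hue := i3 u hu
    have hU := (i1 u hu.1).resolve_left fun h => h.nv hu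
    obtain ⟨q, hqe, hR, hq⟩ := S.other hu.1 e
    have hqU : q ∉ U := fun h => hqe (hU q h hq)
    have lk : S.Lock (insert q U) (fl d q) u :=
      ⟨e, mem_insert_of_mem heU, q, mem_insert_self _ _, hue, hq, by
        rw [fl_self, fl_ne d hqe.symm, hu.2 e q hue hq]; simp⟩
    have de : S.pay e → d e = false := fun hp => by
      by_contra h
      exact (i4 hp (by simpa using h) u hu.1 hue).nv hu
    have oth : ∀ v, S.Inn v → S.At v e → v ≠ u → S.Lock U d v := fun v hv hve hvu => by
      obtain ⟨b, hb⟩ := i5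
      by_cases h : b = S.side v
      · rw [h, hve.2] at hb; exact hb hv
      · have h' : S.side v ≠ S.side u := fun j => hvu (by rw [← hve.2, j, hue.2])
        have : b = S.side u := by
          revert h h'; cases b <;> cases S.side u <;> cases S.side v <;> simp
        rw [this, hue.2] at hb
        exact absurd hu (hb hu.1).nv
    obtain ⟨d', a1, a2, a3⟩ := ih _ (lt q hqU) (insert q U) (fl d q) q rfl (mem_insert_self _ _)
      (fun v hv => by
        by_cases hvu : v = u
        · exact Or.inl (hvu ▸ lk)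
        rcases i1 v hv with h | h
        · exact Or.inl (h.fl hqU)
        by_cases hve : S.At v e
        · exact Or.inl ((oth v hv hve hvu).fl hqU)
        refine Or.inr fun f hf hvf => (mem_insert.1 hf).resolve_right fun j => hve ?_
        exact h f j hvf ▸ hvf)
      (fun a b hab => by
        by_cases k1 : a = q
        · exact Or.inr (Or.inr (Or.inr k1))
        rcases i2 a b hab with h | h | h | h
        · exact Or.inl ⟨mem_insert_of_mem h.1, by rw [fl_ne d k1]; exact h.2⟩
        · exact Or.inr (Or.inl ⟨mem_insert_of_mem h.1, by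
            rw [fl_mem d hqU h.1]; exact h.2⟩)
        · exact Or.inr (Or.inr (Or.inl fun j => (mem_insert.1 j).elim k1 h))
        · subst h
          exact Or.inl ⟨mem_insert_of_mem heU, by
            rw [fl_ne d k1]; exact de (S.κpay _ _ hab)⟩)
      (fun v hv => by
        by_contra hvq
        have hv' := (S.viol_fl hvq).1 hv
        by_cases hvu : v = u
        · exact hvq (hvu ▸ hq)
        · exact (oth v hv'.1 (i3 v hv') hvu).nv hv')
      (fun a ha => by
        rcases csfl q a ha with h | h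
        · refine Or.inl (csC (fun j => ?_) a h)
          obtain ⟨h1, f, h2, -⟩ := S.mem_cs.1 j
          rw [de (S.κpay _ _ h2)] at h1
          simp at h1
        · exact Or.inr h)
      (fun hp _ v hv hvq => by
        rcases S.end_cases hq.2 hvq.2 with rfl | h
        · exact lk
        · exact absurd (h ▸ hv) (S.pay_other hp hu.1 hq))
      ⟨S.side u, fun _ => by rw [hq.2]; exact lk⟩
    exact ⟨d', (S.ag_fl d hR).trans a1, a2.trans (S.T_fl hu hq).1, a3⟩
  have nv : ∀ v, ¬ S.viol d v := fun v hv => hA ⟨v, hv⟩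
  by_cases hB : e ∈ S.cs d
  swap
  · exact ⟨d, fun _ _ => rfl, le_rfl, nv, csC hB⟩
  obtain ⟨de, q, heq, dq⟩ := S.mem_cs.1 hB
  have hqe := S.κsymm _ _ heq
  have pq := S.κpay _ _ hqe
  have hqU : q ∉ U := fun j => by
    rcases i2 q e hqe with h | h | h | h
    · rw [dq] at h; simp at h
    · rw [de] at h; simp at h
    · exact h j
    · exact S.κne _ _ hqe h
  have dq' : fl d q q = false := by rw [fl_self, dq]; rfl
  obtain ⟨b, hb⟩ := S.payI q pq
  have tq := S.T_fl_paid nv pq dq
  obtain ⟨d', a1, a2, a3⟩ := ih _ (lt q hqU) (insert q U) (fl d q) q rfl (mem_insert_self _ _)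
    (fun v hv => by
      rcases i1 v hv with h | h
      · exact Or.inl (h.fl hqU)
      by_cases hve : S.At v e
      · exact Or.inl ((i4 (S.κpay _ _ heq) de v hv hve).fl hqU)
      refine Or.inr fun f hf hvf => (mem_insert.1 hf).resolve_right fun j => hve ?_
      exact h f j hvf ▸ hvf)
    (fun a c hac => by
      by_cases k1 : a = q
      · exact Or.inr (Or.inr (Or.inr k1))
      rcases i2 a c hac with h | h | h | h
      · exact Or.inl ⟨mem_insert_of_mem h.1, by rw [fl_ne d k1]; exact h.2⟩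
      · exact Or.inr (Or.inl ⟨mem_insert_of_mem h.1, by
          rw [fl_mem d hqU h.1]; exact h.2⟩)
      · exact Or.inr (Or.inr (Or.inl fun j => (mem_insert.1 j).elim k1 h))
      · subst h
        rw [S.κfun _ _ _ hac heq]
        exact Or.inr (Or.inl ⟨mem_insert_self _ _, dq'⟩))
    (fun v hv => by
      by_contra hvq
      exact nv v ((S.viol_fl hvq).1 hv))
    (fun a ha => by
      rcases csfl q a ha with h | h
      · rcases i3' a h with j | j | j
        · exact Or.inl j
        · exact Or.inr (Or.inr (j ▸ hqe))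
        · exact Or.inr (Or.inl (S.κfun _ _ _ j heq))
      · exact Or.inr h)
    (fun _ h => by rw [dq'] at h; simp at h)
    ⟨b, fun h => absurd h hb⟩
  exact ⟨d', (S.ag_fl d (S.payR q pq)).trans a1, a2.trans tq, a3⟩

lemma no_conf (n : ℕ) : ∀ d : E → Bool, (S.cs d).card = n → (∀ v, ¬ S.viol d v) →
    ∃ d', S.Ag d d' ∧ S.T d' ≤ S.T d ∧ (∀ v, ¬ S.viol d' v) ∧ S.cs d' = ∅ := by
  induction n using Nat.strong_induction_on with
  | _ n ih =>
  intro d hn nv
  rcases (S.cs d).eq_empty_or_nonempty with h | ⟨q, hq⟩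
  · exact ⟨d, fun _ _ => rfl, le_rfl, nv, h⟩
  obtain ⟨dq, e, hqe, -⟩ := S.mem_cs.1 hq
  have pq := S.κpay _ _ hqe
  have dq' : fl d q q = false := by rw [fl_self, dq]; rfl
  obtain ⟨b, hb⟩ := S.payI q pq
  obtain ⟨d1, a1, a2, a3, a4⟩ := S.walk2 ((S.cs d).erase q) _ {q} (fl d q) q rfl
    (mem_singleton_self _) (fun _ _ => Or.inr fun f hf _ => mem_singleton.1 hf)
    (fun a _ _ => Or.inr (Or.inr (by simpa using em' (a = q))))
    (fun v hv => by
      by_contra hvq
      exact nv v ((S.viol_fl hvq).1 hv))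
    (fun a ha => by
      by_cases k : a = q
      · exact Or.inr (Or.inl k)
      · exact (S.cs_fl d q a ha).imp_left fun h => mem_erase.2 ⟨k, h⟩)
    (fun _ h => by rw [dq'] at h; simp at h) ⟨b, fun h => absurd h hb⟩
  obtain ⟨d2, b1, b2, b3⟩ := ih _ (hn ▸ (card_le_card a4).trans_lt (card_erase_lt_of_mem hq))
    d1 rfl a3
  exact ⟨d2, ((S.ag_fl d (S.payR q pq)).trans a1).trans b1,
    b2.trans (a2.trans (S.T_fl_paid nv pq dq)), b3⟩

/-- Main statement: labels without violation and without conflict, at no extra cost. -/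
theorem slide (d : E → Bool) : ∃ d', (∀ e, ¬ S.Rev e → d' e = d e) ∧ S.T d' ≤ S.T d ∧
    (∀ v, ¬ S.viol d' v) ∧ ∀ e f, S.κ e f → ¬ (d' e = true ∧ d' f = true) := by
  obtain ⟨d1, a1, a2, a3⟩ := S.no_viol _ d rfl
  obtain ⟨d2, b1, b2, b3, b4⟩ := S.no_conf _ d1 rfl a3
  refine ⟨d2, a1.trans b1, b2.trans a2, b3, fun e f h k => ?_⟩
  have : e ∈ S.cs d2 := S.mem_cs.2 ⟨k.1, f, h, k.2⟩
  rw [b4] at this
  simp at this

end Data
end Pool.Agent.Lib.IC4.Slide
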