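import Pool.Agent.Lib.IC4.Blue
import Pool.Agent.Lib.IC4.Slide81

/-! The normal form of the labels, from the token slide. -/

set_option linter.unusedSectionVars false

universe u v

namespace Pool.Agent.Lib.IC4
namespace SEL81
open Finset

variable {V : Type u} {E : Type v} [Fintype V] [Fintype E] [DecidableEq V] [DecidableEq E]
  {p : E → Bool → V} {side : V → Bool} {F L : E → Bool}

lemma mem_inc (g : Gr p side) {w : V} {e : E} : e ∈ incS p w ↔ p e (side w) = w := by
  simp only [incS, mem_filter, mem_univ, true_and]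
  refine ⟨?_, fun h => ?_⟩
  · rintro (h | h) <;> rw [← h, g.hs]
  · revert h; cases side w <;> tauto

lemma inc_end (e : E) (b : Bool) : e ∈ incS p (p e b) := by cases b <;> simp [incS]

lemma inc_of {e : E} {b : Bool} {w : V} (h : p e b = w) : e ∈ incS p w := h ▸ inc_end e b

lemma rigid_of {e : E} {b : Bool} (h : deg p (p e b) = deg p (p e (!b)))
    (h4 : deg p (p e b) ≠ 4) : Rigid p e := by
  cases b
  · exact ⟨h.symm, h ▸ h4⟩
  · exact ⟨h, h4⟩

lemma rigid_to {e : E} (h : Rigid p e) (b : Bool) :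
    deg p (p e b) = deg p (p e (!b)) ∧ deg p (p e b) ≠ 4 := by
  cases b
  · exact ⟨h.1.symm, h.1 ▸ h.2⟩
  · exact h

lemma cnt_le (P : E → Bool) (w : V) : cnt p P w ≤ deg p w := card_filter_le _ _

lemma cnt_one {P : E → Bool} {w : V} (h : cnt p P w ≤ 1) {e f : E} (he : e ∈ incS p w)
    (hf : f ∈ incS p w) (he' : P e = true) (hf' : P f = true) : e = f :=
  card_le_one.1 h e (mem_filter.2 ⟨he, he'⟩) f (mem_filter.2 ⟨hf, hf'⟩)

lemma cnt_split (P Q : E → Bool) (w : V) :
    cnt p (fun e => P e && Q e) w + cnt p (fun e => P e && !Q e) w = cnt p P w := by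
  unfold cnt
  rw [← card_filter_add_card_filter_not (s := (incS p w).filter fun e => P e = true)
    (fun e => Q e = true), filter_filter, filter_filter]
  simp

lemma cnt_compl (P : E → Bool) (w : V) : cnt p P w + cnt p (fun e => !P e) w = deg p w := by
  unfold cnt deg
  rw [← card_filter_add_card_filter_not (s := incS p w) (fun e => P e = true)]
  simp

lemma hub_deg (hF : Fam p F) {w : V} (h : cnt p F w = 3) : deg p w = 3 := by
  by_contra k
  have := hF.f24 w k
  omega

lemma two_rev (g : Gr p side) (hF : Fam p F) (w : V) (h : Inner p F w) :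
    ∃ e f, e ≠ f ∧ Rev p F e ∧ Rev p F f ∧ p e (side w) = w ∧ p f (side w) = w := by
  classical
  have key : 1 < (((incS p w).filter fun e => F e = true).filter fun e => ¬ Rigid p e).card := by
    have h0 := card_filter_add_card_filter_not (s := (incS p w).filter fun e => F e = true)
      (fun e => Rigid p e)
    rcases h with h | ⟨h4, h⟩
    · have h3 := hub_deg hF h
      have : (((incS p w).filter fun e => F e = true).filter fun e => Rigid p e).card ≤ 1 := by
        refine card_le_one.2 fun e he f hf => ?_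
        simp only [mem_filter, mem_inc g] at he hf
        have k1 := (rigid_to he.2 (side w)).1
        have k2 := (rigid_to hf.2 (side w)).1
        rw [he.1.1] at k1
        rw [hf.1.1] at k2
        exact hF.hub e f (side w) (he.1.1.trans hf.1.1.symm) (by rw [he.1.1]; exact h)
          (by omega) (by omega)
      unfold cnt at h
      omega
    · have : (((incS p w).filter fun e => F e = true).filter fun e => Rigid p e).card = 0 := by
        refine card_eq_zero.2 (filter_eq_empty_iff.2 fun e he k => ?_)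
        simp only [mem_filter, mem_inc g] at he
        have k1 := (rigid_to k (side w)).2
        rw [he.1] at k1
        exact k1 h4
      unfold cnt at h
      omega
  obtain ⟨e, he, f, hf, hef⟩ := one_lt_card.1 key
  simp only [mem_filter, mem_inc g] at he hf
  exact ⟨e, f, hef, ⟨he.1.2, he.2⟩, ⟨hf.1.2, hf.2⟩, he.1.1, hf.1.1⟩

/-- two candidate roots joined by a B-edge -/
def K1 (p : E → Bool → V) (F L : E → Bool) (e f : E) : Prop :=
  ∃ z b, F z = false ∧ L z = false ∧ (∀ c, deg p (p z c) = 3 ∧ cnt p F (p z c) = 1) ∧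
    p e b = p z b ∧ p f (!b) = p z (!b)

/-- the two edges of a 2-vertex between two hubs -/
def K2 (p : E → Bool → V) (F : E → Bool) (e f : E) : Prop :=
  ∃ b, p e b = p f b ∧ deg p (p e b) = 2 ∧ cnt p F (p e (!b)) = 3 ∧ cnt p F (p f (!b)) = 3

lemma bool_eq_or (b c : Bool) : c = b ∨ c = !b := by cases b <;> cases c <;> simp

/-- the data for the token slide -/
def data (g : Gr p side) (hF : Fam p F) (hB : Bal p F L) : Slide.Data V E where
  p := p
  side := side
  F e := F e = true
  Inn := Inner p F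
  Rev := Rev p F
  pay e := Pay p F e ∧ Rev p F e
  κ e f := e ≠ f ∧ (Pay p F e ∧ Rev p F e) ∧ (Pay p F f ∧ Rev p F f) ∧ (K1 p F L e f ∨ K2 p F e f)
  hs := g.hs
  two := two_rev g hF
  revF _ h := h.1
  payR _ h := h.2
  payI e h := by
    obtain ⟨⟨b, -, h3, h | h⟩, -⟩ := h
    · exact ⟨b, by rintro (k | k) <;> omega⟩
    · exact ⟨!b, by
        have := cnt_le (p := p) F (p e (!b))
        rintro (k | k) <;> omega⟩
  κsymm e f h := by
    refine ⟨h.1.symm, h.2.2.1, h.2.1, h.2.2.2.imp ?_ ?_⟩
    · rintro ⟨z, b, h1, h2, h3, h4, h5⟩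
      exact ⟨z, !b, h1, h2, h3, h5, by simpa using h4⟩
    · rintro ⟨b, h1, h2, h3, h4⟩
      exact ⟨b, h1.symm, h1 ▸ h2, h4, h3⟩
  κfun e f f' h h' := by
    obtain ⟨n1, ⟨-, -, r⟩, ⟨-, r1, -⟩, h⟩ := h
    obtain ⟨n2, -, ⟨-, r2, -⟩, h'⟩ := h'
    have mix : ∀ f f', K1 p F L e f → K2 p F e f' → False := by
      rintro f f' ⟨z, b, -, -, h3, h4, -⟩ ⟨c, -, k2, k3, -⟩
      have := h3 b
      rw [← h4] at this
      rcases bool_eq_or b c with rfl | rfl
      · omega
      · rw [Bool.not_not] at k3; omega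
    rcases h with h | h <;> rcases h' with h' | h'
    · obtain ⟨z, b, h1, h2, h3, h4, h5⟩ := h
      obtain ⟨z', c, k1, k2, k3, k4, k5⟩ := h'
      have a1 := h3 b
      have a2 := k3 c
      rw [← h4] at a1
      rw [← k4] at a2
      rcases bool_eq_or b c with rfl | rfl
      · have b1 := cnt_compl (p := p) F (p e c)
        have b2 := cnt_split (p := p) (fun e => !F e) L (p e c)
        have b3 := hB (p e c)
        have : z = z' := cnt_one (P := fun e => !F e && !L e) (w := p e c) (by omega)
          (inc_of h4.symm) (inc_of k4.symm) (by simp [h1, h2]) (by simp [k1, k2])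
        subst this
        exact cnt_one (P := F) (h3 (!c)).2.le (inc_of h5) (inc_of k5) r1 r2
      · exact absurd (rigid_of (b := b) (by omega) (by omega)) r
    · exact (mix _ _ h h').elim
    · exact (mix _ _ h' h).elim
    · obtain ⟨b, h1, h2, -⟩ := h
      obtain ⟨c, k1, k2, -⟩ := h'
      rcases bool_eq_or b c with rfl | rfl
      · by_contra ne
        have : 2 < deg p (p e c) := two_lt_card_iff.2 ⟨e, f, f', inc_end _ _, inc_of h1.symm,
          inc_of k1.symm, n1, n2, ne⟩
        omega
      · exact absurd (rigid_of (b := b) (by omega) (by omega)) r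
  κne _ _ h := h.1
  κpay _ _ h := h.2.1

lemma viol_iff (g : Gr p side) (hF : Fam p F) (hB : Bal p F L) (M : E → Bool) (w : V) :
    (data g hF hB).viol (fun e => !M e) w ↔ Viol p F M w := by
  refine and_congr_right fun hw => ?_
  simp only [Slide.Data.At, data, cnt, card_eq_zero, filter_eq_empty_iff, mem_inc g]
  constructor
  · intro h
    obtain ⟨e, -, -, he, -, he', -⟩ := two_rev g hF w hw
    cases k : M e
    · left
      intro f hf
      by_cases j : F f = true
      · have := h e f ⟨he.1, he'⟩ ⟨j, hf⟩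
        simpa [k, j] using this
      · simp [j]
    · right
      intro f hf
      by_cases j : F f = true
      · have := h e f ⟨he.1, he'⟩ ⟨j, hf⟩
        simpa [k, j] using this
      · simp [j]
  · rintro (h | h) e f he hf
    · have a := h he.2
      have b := h hf.2
      simp [he.1, hf.1] at a b
      rw [a, b]
    · have a := h he.2
      have b := h hf.2
      simp [he.1, hf.1] at a b
      rw [a, b]

lemma T_eq (g : Gr p side) (hF : Fam p F) (hB : Bal p F L) {M : E → Bool} (hM : Lab p F M) :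
    (data g hF hB).T (fun e => !M e) = nviol p F M + npaid p F M := by
  unfold Slide.Data.T nviol npaid
  congr 2
  · ext w
    rw [Slide.Data.mem_vs, viol_iff]
    simp
  · ext e
    rw [Slide.Data.mem_ps]
    simp only [data, mem_filter, mem_univ, true_and, Paid, Bool.not_eq_true']
    refine ⟨fun h => ⟨h.1.1, h.2⟩, fun h => ⟨⟨h.1, ?_⟩, h.2⟩⟩
    obtain ⟨b, h1, -⟩ := h.1
    exact ⟨h1, fun k => by simpa [h.2] using hM e h1 k⟩

end SEL81
open SEL81

theorem stSEL81 (hL : St_LOC.{u, v}) : St_SEL.{u, v} := by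
  intro V E _ _ _ _ p side F L g hF hM hB
  classical
  obtain ⟨d, a1, a2, a3, a4⟩ := (data g hF hB).slide fun e => !L e
  obtain ⟨M, rfl⟩ : ∃ M : E → Bool, d = fun e => !M e := ⟨fun e => !d e, by simp⟩
  have ag : ∀ e, ¬ Rev p F e → M e = L e := fun e he => by simpa using a1 e he
  have lab : Lab p F M := fun e h1 h2 => by rw [ag e fun k => k.2 h2]; exact hM.1 e h1 h2
  have nov : ∀ w, ¬ Viol p F M w := fun w hw => a3 w ((viol_iff g hF hB M w).2 hw)
  have n0 : nviol p F M = 0 := by
    unfold nviol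
    exact Finset.card_eq_zero.2 (Finset.filter_eq_empty_iff.2 fun w _ => nov w)
  rw [T_eq g hF hB lab, T_eq g hF hB hM.1] at a2
  have le : TL p F M ≤ TL p F L := by unfold TL; omega
  have d3 : D3 p F M := hL V E p side F M g hF ⟨lab, fun L' h => le.trans (hM.2 L' h)⟩
  have off : ∀ e, F e = false → M e = L e := fun e he => ag e fun k => by simpa [he] using k.1
  have rev : ∀ e, F e = true → M e = false → Rev p F e := fun e h1 h2 =>
    ⟨h1, fun k => by simpa [h2] using lab e h1 k⟩
  refine ⟨M, ⟨hF, lab, fun w => ?_, nov, d3, fun z h1 h2 r1 r2 => ?_,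
    fun e f b h1 h2 he hf => ?_⟩, le⟩
  · have := hB w
    unfold cnt at this ⊢
    convert this using 2 <;> refine Finset.filter_congr fun e _ => ?_ <;>
      cases k : F e <;> simp [off e, k]
  · have ex : ∀ c, Root p F M (p z c) → ∃ e, p e c = p z c ∧ F e = true ∧ M e = false := by
      intro c r
      have := cnt_split (p := p) F M (p z c)
      obtain ⟨e, he⟩ := Finset.card_pos.1
        (show 0 < cnt p (fun e => F e && !M e) (p z c) by have := r.2.1; have := r.2.2; omega)
      simp only [Finset.mem_filter, mem_inc g, g.hs, Bool.and_eq_true, Bool.not_eq_true'] at he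
      exact ⟨e, he⟩
    obtain ⟨e, e1, e2, e3⟩ := ex true r1
    obtain ⟨f, f1, f2, f3⟩ := ex false r2
    have re := rev e e2 e3
    refine a4 e f ⟨?_, ⟨⟨true, e2, e1 ▸ r1.1, Or.inl (e1 ▸ r1.2.1)⟩, re⟩,
      ⟨⟨false, f2, f1 ▸ r2.1, Or.inl (f1 ▸ r2.2.1)⟩, rev f f2 f3⟩, Or.inl ⟨z, true, h1,
        off z h1 ▸ h2, fun c => ?_, e1, f1⟩⟩ ⟨by simp [e3], by simp [f3]⟩
    · rintro rfl
      exact re.2 ⟨by rw [e1, f1, r1.1, r2.1], by rw [e1, r1.1]; omega⟩
    · cases c
      exacts [⟨r2.1, r2.2.1⟩, ⟨r1.1, r1.2.1⟩]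
  · by_contra ne
    have hub : ∀ e, Dp p F M e → deg p (p e b) = 2 →
        (Pay p F e ∧ Rev p F e) ∧ cnt p F (p e (!b)) = 3 := by
      intro e he h2
      have re := rev e he.1 he.2.1
      have t1 := g.two e (!b)
      have t2 := g.le (p e (!b))
      have t3 : deg p (p e (!b)) ≠ 4 := by cases b; exacts [he.2.2.1, he.2.2.2]
      have t4 : deg p (p e (!b)) ≠ 2 := fun k => re.2 (rigid_of (b := b) (by omega) (by omega))
      have t5 : deg p (p e (!b)) = 3 := by omega
      have := d3 e (!b) he.1 he.2.1 t5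
      rw [Bool.not_not] at this
      exact ⟨⟨⟨!b, he.1, t5, Or.inr (by simpa using h2)⟩, re⟩, by omega⟩
    obtain ⟨e1, e2⟩ := hub e he h2
    obtain ⟨f1, f2⟩ := hub f hf (h1 ▸ h2)
    exact a4 e f ⟨ne, e1, f1, Or.inr ⟨b, h1, h2, e2, f2⟩⟩ ⟨by simp [he.2.1], by simp [hf.2.1]⟩

end Pool.Agent.Lib.IC4
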