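import Pool.Agent.Lib.IC4.Blue

/-! Block TOG: toggling along an admissible set with a gain lowers the potential. -/

set_option linter.unusedSectionVars false

namespace Pool.Agent.Lib.IC4.TOG
open Finset Pool.Agent.Lib.IC4

universe u v
variable {V : Type u} {E : Type v} [Fintype V] [Fintype E] [DecidableEq V] [DecidableEq E]

theorem cnt_sum (p : E → Bool → V) (P : E → Bool) (w : V) :
    cnt p P w = ∑ e ∈ incS p w, (P e).toNat := by
  unfold cnt
  rw [card_filter]
  refine sum_congr rfl fun e _ => ?_
  cases P e <;> simp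

theorem deg_sum (p : E → Bool → V) (w : V) : deg p w = ∑ _e ∈ incS p w, 1 := by
  unfold deg
  simp

theorem cnt_le (p : E → Bool → V) (P : E → Bool) (w : V) : cnt p P w ≤ deg p w :=
  card_filter_le _ _

theorem cnt_mono (p : E → Bool → V) (P Q : E → Bool) (w : V)
    (h : ∀ e ∈ incS p w, P e = true → Q e = true) : cnt p P w ≤ cnt p Q w := by
  unfold cnt
  refine card_le_card fun e he => ?_
  rw [mem_filter] at he ⊢
  exact ⟨he.1, h e he.1 he.2⟩

theorem cnt_congr (p : E → Bool → V) (P Q : E → Bool) (w : V)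
    (h : ∀ e ∈ incS p w, P e = Q e) : cnt p P w = cnt p Q w :=
  le_antisymm (cnt_mono p P Q w fun e he h1 => h e he ▸ h1)
    (cnt_mono p Q P w fun e he h1 => (h e he).symm ▸ h1)

theorem exists_of_cnt (p : E → Bool → V) (P : E → Bool) (w : V) (h : cnt p P w ≠ 0) :
    ∃ e ∈ incS p w, P e = true := by
  obtain ⟨e, he⟩ := card_ne_zero.mp h
  rw [mem_filter] at he
  exact ⟨e, he.1, he.2⟩

theorem all_of_cnt (p : E → Bool → V) (P : E → Bool) (w : V) (h : cnt p P w = deg p w) :
    ∀ e ∈ incS p w, P e = true := by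
  have := (card_filter_eq_iff (s := incS p w) (p := fun e => P e = true)).mp h
  exact this

theorem cnt_zero (p : E → Bool → V) (P : E → Bool) (w : V)
    (h : ∀ e ∈ incS p w, P e = false) : cnt p P w = 0 := by
  by_contra h0
  obtain ⟨e, he, h1⟩ := exists_of_cnt p P w h0
  rw [h e he] at h1
  exact Bool.false_ne_true h1

theorem cnt_xor (p : E → Bool → V) (F W : E → Bool) (w : V) :
    cnt p (fun e => xor (F e) (W e)) w + 2 * cnt p (fun e => F e && W e) w =
      cnt p F w + cnt p W w := by
  simp only [cnt_sum]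
  rw [mul_sum, ← sum_add_distrib, ← sum_add_distrib]
  refine sum_congr rfl fun e _ => ?_
  cases F e <;> cases W e <;> simp

theorem cnt_split (p : E → Bool → V) (F L : E → Bool) (w : V) :
    cnt p F w + cnt p (fun e => !F e && L e) w + cnt p (fun e => !F e && !L e) w = deg p w := by
  simp only [cnt_sum, deg_sum]
  rw [← sum_add_distrib, ← sum_add_distrib]
  refine sum_congr rfl fun e _ => ?_
  cases F e <;> cases L e <;> simp

theorem mem_inc {p : E → Bool → V} {side : V → Bool} (hs : ∀ e b, side (p e b) = b) (e : E)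
    (w : V) : e ∈ incS p w ↔ p e (side w) = w := by
  unfold incS
  rw [mem_filter]
  constructor
  · rintro ⟨_, h | h⟩
    · rw [← h, hs]
    · rw [← h, hs]
  · intro h
    refine ⟨mem_univ _, ?_⟩
    cases hw : side w
    · rw [hw] at h
      exact Or.inr h
    · rw [hw] at h
      exact Or.inl h

theorem self_mem (p : E → Bool → V) (e : E) (b : Bool) : e ∈ incS p (p e b) := by
  unfold incS
  rw [mem_filter]
  cases b
  · exact ⟨mem_univ _, Or.inr rfl⟩
  · exact ⟨mem_univ _, Or.inl rfl⟩

theorem enum3 (p : E → Bool → V) (w : V) (h : deg p w = 3) (a b c : E) (ha : a ∈ incS p w)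
    (hb : b ∈ incS p w) (hc : c ∈ incS p w) (hab : a ≠ b) (hac : a ≠ c) (hbc : b ≠ c) :
    (∀ e ∈ incS p w, e = a ∨ e = b ∨ e = c) ∧
      ∀ P : E → Bool, cnt p P w = (P a).toNat + (P b).toNat + (P c).toNat := by
  have hS : ({a, b, c} : Finset E) = incS p w := by
    apply eq_of_subset_of_card_le
    · intro e he
      simp only [mem_insert, mem_singleton] at he
      rcases he with rfl | rfl | rfl <;> assumption
    · rw [card_eq_three.mpr ⟨a, b, c, hab, hac, hbc, rfl⟩]
      exact h.le
  refine ⟨fun e he => ?_, fun P => ?_⟩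
  · rw [← hS] at he
    simpa using he
  · rw [cnt_sum, ← hS, sum_insert (by simp [hab, hac]), sum_insert (by simp [hbc]), sum_singleton,
      add_assoc]

theorem enum4 (p : E → Bool → V) (w : V) (h : deg p w = 4) (a b c d : E) (ha : a ∈ incS p w)
    (hb : b ∈ incS p w) (hc : c ∈ incS p w) (hd : d ∈ incS p w) (hab : a ≠ b) (hac : a ≠ c)
    (had : a ≠ d) (hbc : b ≠ c) (hbd : b ≠ d) (hcd : c ≠ d) (P : E → Bool) :
    cnt p P w = (P a).toNat + (P b).toNat + (P c).toNat + (P d).toNat := by
  have hS : ({a, b, c, d} : Finset E) = incS p w := by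
    apply eq_of_subset_of_card_le
    · intro e he
      simp only [mem_insert, mem_singleton] at he
      rcases he with rfl | rfl | rfl | rfl <;> assumption
    · rw [card_eq_four.mpr ⟨a, b, c, d, hab, hac, had, hbc, hbd, hcd, rfl⟩]
      exact h.le
  rw [cnt_sum, ← hS, sum_insert (by simp [hab, hac, had]), sum_insert (by simp [hbc, hbd]),
    sum_insert (by simp [hcd]), sum_singleton, add_assoc, add_assoc]

/-- a 3-vertex with one edge `a` of `F` has a B-edge `b` and a C-edge `c` -/
theorem typ3 (p : E → Bool → V) (F L : E → Bool) (hb : Bal p F L) (w : V) (h : deg p w = 3)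
    (h1 : cnt p F w = 1) : ∃ a ∈ incS p w, ∃ b ∈ incS p w, ∃ c ∈ incS p w, F a = true ∧
      F b = false ∧ L b = false ∧ F c = false ∧ L c = true ∧
      (∀ e ∈ incS p w, e = a ∨ e = b ∨ e = c) ∧
      ∀ P : E → Bool, cnt p P w = (P a).toNat + (P b).toNat + (P c).toNat := by
  have h2 := cnt_split p F L w
  have h3 := hb w
  obtain ⟨a, ha, ha1⟩ := exists_of_cnt p F w (by omega)
  obtain ⟨b, hb, hb1⟩ := exists_of_cnt p (fun e => !F e && !L e) w (by omega)
  obtain ⟨c, hc, hc1⟩ := exists_of_cnt p (fun e => !F e && L e) w (by omega)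
  simp only [Bool.and_eq_true, Bool.not_eq_true'] at hb1 hc1
  have := enum3 p w h a b c ha hb hc (by rintro rfl; simp_all) (by rintro rfl; simp_all)
    (by rintro rfl; simp_all)
  exact ⟨a, ha, b, hb, c, hc, ha1, hb1.1, hb1.2, hc1.1, hc1.2, this.1, this.2⟩

/-- a 4-vertex with two edges of `F` has the type ABCD -/
theorem typ4 (p : E → Bool → V) (F L : E → Bool) (hb : Bal p F L) (w : V) (hv : ¬ Viol p F L w)
    (h : deg p w = 4) (h1 : cnt p F w = 2) : ∃ a ∈ incS p w, ∃ b ∈ incS p w, ∃ c ∈ incS p w,
      ∃ d ∈ incS p w, F a = true ∧ L a = true ∧ F b = false ∧ L b = false ∧ F c = false ∧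
      L c = true ∧ F d = true ∧ L d = false ∧
      ∀ P : E → Bool, cnt p P w = (P a).toNat + (P b).toNat + (P c).toNat + (P d).toNat := by
  have h2 := cnt_split p F L w
  have h3 := hb w
  have hi : Inner p F w := Or.inr ⟨h, h1⟩
  obtain ⟨a, ha, ha1⟩ := exists_of_cnt p (fun e => F e && L e) w fun h0 => hv ⟨hi, Or.inl h0⟩
  obtain ⟨d, hd, hd1⟩ := exists_of_cnt p (fun e => F e && !L e) w fun h0 => hv ⟨hi, Or.inr h0⟩
  obtain ⟨b, hb, hb1⟩ := exists_of_cnt p (fun e => !F e && !L e) w (by omega)
  obtain ⟨c, hc, hc1⟩ := exists_of_cnt p (fun e => !F e && L e) w (by omega)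
  simp only [Bool.and_eq_true, Bool.not_eq_true'] at ha1 hb1 hc1 hd1
  exact ⟨a, ha, b, hb, c, hc, d, hd, ha1.1, ha1.2, hb1.1, hb1.2, hc1.1, hc1.2, hd1.1, hd1.2,
    enum4 p w h a b c d ha hb hc hd (by rintro rfl; simp_all) (by rintro rfl; simp_all)
      (by rintro rfl; simp_all) (by rintro rfl; simp_all) (by rintro rfl; simp_all)
      (by rintro rfl; simp_all)⟩

/-- the payments at `w` -/
def pc (p : E → Bool → V) (side : V → Bool) (F L : E → Bool) (w : V) : ℕ :=
  cnt p (fun e => F e && !L e &&
    decide (deg p w = 3 ∧ (cnt p F w = 1 ∨ deg p (p e (!side w)) = 2))) w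

open Classical in
/-- the cost of the vertex `w` -/
noncomputable def cost (p : E → Bool → V) (side : V → Bool) (F L : E → Bool) (w : V) : ℕ :=
  (if cnt p F w = 3 then 1 else 0) + 2 * (if Z4 p F w then 1 else 0) +
    (2 * (if Viol p F L w then 1 else 0) + pc p side F L w)

theorem npaid_eq {p : E → Bool → V} {side : V → Bool} (hs : ∀ e b, side (p e b) = b)
    (F L : E → Bool) (hl : Lab p F L) : npaid p F L = ∑ w, pc p side F L w := by
  classical
  have h1 : ∀ w, pc p side F L w = ∑ e, ∑ b : Bool,
      if p e b = w ∧ PayD p F e b ∧ L e = false then 1 else 0 := by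
    intro w
    unfold pc
    rw [cnt_sum]
    have : incS p w = univ.filter fun e => p e (side w) = w := by
      ext e
      rw [mem_inc hs, mem_filter]
      simp
    rw [this, sum_filter]
    refine sum_congr rfl fun e _ => ?_
    have h2 : ∀ b, p e b = w → b = side w := fun b hb => by rw [← hb, hs]
    rw [sum_eq_single (side w)]
    · by_cases hw : p e (side w) = w
      · unfold PayD
        rw [hw]
        cases F e <;> cases L e <;> simp
        split_ifs with h3
        · simp [h3]
        · simpa using h3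
      · simp [hw]
    · intro b _ hb
      rw [if_neg]
      exact fun h => hb (h2 b h.1)
    · simp
  simp only [h1]
  rw [sum_comm]
  unfold npaid
  rw [card_filter]
  refine sum_congr rfl fun e _ => ?_
  rw [sum_comm]
  have h3 : ∀ b : Bool, (∑ w, if p e b = w ∧ PayD p F e b ∧ L e = false then 1 else 0) =
      if PayD p F e b ∧ L e = false then 1 else 0 := by
    intro b
    rw [sum_eq_single (p e b)]
    · simp
    · intro w _ hw
      rw [if_neg]
      exact fun h => hw h.1.symm
    · simp
  simp only [h3, Fintype.sum_bool]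
  by_cases hL : L e = false
  · by_cases ht : PayD p F e true
    · have hf : ¬ PayD p F e false := by
        intro hf
        have := hl e ht.1 ⟨ht.2.1.trans hf.2.1.symm, by rw [ht.2.1]; omega⟩
        rw [hL] at this
        exact Bool.false_ne_true this
      rw [if_pos ⟨⟨true, ht⟩, hL⟩, if_pos ⟨ht, hL⟩, if_neg fun h => hf h.1]
    · by_cases hf : PayD p F e false
      · rw [if_pos ⟨⟨false, hf⟩, hL⟩, if_neg fun h => ht h.1, if_pos ⟨hf, hL⟩]
      · rw [if_neg, if_neg fun h => ht h.1, if_neg fun h => hf h.1]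
        rintro ⟨⟨b, hb⟩, _⟩
        cases b
        · exact hf hb
        · exact ht hb
  · rw [if_neg fun h => hL h.2, if_neg fun h => hL h.2, if_neg fun h => hL h.2]

theorem T_eq {p : E → Bool → V} {side : V → Bool} (hs : ∀ e b, side (p e b) = b)
    (F L : E → Bool) (hl : Lab p F L) : TF p F + TL p F L = ∑ w, cost p side F L w := by
  classical
  unfold TF TL nviol cost
  rw [npaid_eq hs F L hl, sum_add_distrib, sum_add_distrib, sum_add_distrib, ← mul_sum, ← mul_sum,
    card_filter, card_filter, card_filter]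

theorem pc_le (p : E → Bool → V) (side : V → Bool) (F L : E → Bool) (w : V) :
    pc p side F L w ≤ cnt p (fun e => F e && !L e) w :=
  cnt_mono p _ _ w fun e _ h => by
    rw [Bool.and_eq_true] at h
    exact h.1

theorem pc_le' (p : E → Bool → V) (side : V → Bool) (F L : E → Bool) (w : V) :
    pc p side F L w ≤ cnt p F w :=
  cnt_mono p _ _ w fun e _ h => by
    rw [Bool.and_eq_true, Bool.and_eq_true] at h
    exact h.1.1

theorem pc_zero (p : E → Bool → V) (side : V → Bool) (F L : E → Bool) (w : V)
    (h : deg p w ≠ 3) : pc p side F L w = 0 :=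
  cnt_zero p _ w fun e _ => by simp [h]

/-- the new family member -/
def nF (F W : E → Bool) : E → Bool := fun e => xor (F e) (W e)

/-- the new labels -/
def nL (p : E → Bool → V) (F L W : E → Bool) : E → Bool := fun e =>
  L e || (W e && !F e && decide (deg p (p e true) ≠ 4 ∧ deg p (p e false) ≠ 4))

variable {p : E → Bool → V} {side : V → Bool} {F L W : E → Bool}

/-- a B-edge of `W` at a 3-vertex makes it a root -/
theorem root_of_B (hn : Nice p F L) (ha : Adm p F L W) (w : V) (h : deg p w = 3) (e : E)
    (he : e ∈ incS p w) (hF : F e = false) (hL : L e = false) (hW : W e = true) :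
    Root p F L w := by
  by_contra hr
  have h1 : cnt p F w = 1 := by
    rcases hn.fam.f3 w h with h1 | h1
    · exact h1
    · have := all_of_cnt p F w (h1.trans h.symm) e he
      rw [hF] at this
      exact absurd this Bool.false_ne_true
  obtain ⟨a, ha', b, hb, c, hc, hFa, hFb, hLb, hFc, hLc, hall, hP⟩ := typ3 p F L hn.bal w h h1
  have hLa : L a = true := by
    by_contra hLa
    apply hr
    refine ⟨h, h1, ?_⟩
    rw [hP]
    have hLa' : L a = false := by simpa using hLa
    simp [hFb, hFc, hLa']
  have hac := ha.eq w (fun hz => by have := hz.1; omega) hr a ha' c hc (hLa.trans hLc.symm)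
  have hev := ha.ev w
  rw [hP, hac] at hev
  have heb : e = b := by
    rcases hall e he with rfl | rfl | rfl
    · simp_all
    · rfl
    · simp_all
  subst heb
  rw [hW] at hev
  revert hev
  cases W c <;> decide

theorem cnt4 (hn : Nice p F L) (ha : Adm p F L W) (w : V) (h : deg p w = 4)
    (h2 : cnt p F w = 2) : cnt p (nF F W) w = 2 ∧ ¬ Viol p (nF F W) (nL p F L W) w := by
  obtain ⟨a, ha', b, hb, c, hc, d, hd, hFa, hLa, hFb, hLb, hFc, hLc, hFd, hLd, hP⟩ :=
    typ4 p F L hn.bal w (hn.nov w) h h2
  have hz : ¬ Z4 p F w := fun hz => by have := hz.2; omega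
  have hr : ¬ Root p F L w := fun hr => by have := hr.1; omega
  have hac := ha.eq w hz hr a ha' c hc (hLa.trans hLc.symm)
  have hbd := ha.eq w hz hr b hb d hd (hLb.trans hLd.symm)
  have hb4 : ¬ (deg p (p b true) ≠ 4 ∧ deg p (p b false) ≠ 4) := by
    unfold incS at hb
    rw [mem_filter] at hb
    rcases hb.2 with h3 | h3
    · rw [h3]
      exact fun h4 => h4.1 h
    · rw [h3]
      exact fun h4 => h4.2 h
  refine ⟨?_, ?_⟩
  · rw [hP]
    simp only [nF, hFa, hFb, hFc, hFd, hac, hbd]
    cases W c <;> cases W d <;> rfl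
  · rintro ⟨_, h5 | h5⟩
    · rw [hP] at h5
      simp only [nF, nL, hFa, hFb, hFc, hFd, hLa, hLb, hLc, hLd, hac, hbd, hb4] at h5
      revert h5
      cases W c <;> cases W d <;> simp
    · rw [hP] at h5
      simp only [nF, nL, hFa, hFb, hFc, hFd, hLa, hLb, hLc, hLd, hac, hbd, hb4] at h5
      revert h5
      cases W c <;> cases W d <;> simp

theorem f3' (hn : Nice p F L) (ha : Adm p F L W) (w : V) (h : deg p w = 3) :
    cnt p (nF F W) w = 1 ∨ cnt p (nF F W) w = 3 := by
  have h1 := cnt_xor p F W w
  have h2 := cnt_le p (nF F W) w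
  have h3 := hn.fam.f3 w h
  obtain ⟨k, hk⟩ := ha.ev w
  change cnt p (nF F W) w + _ = _ at h1
  omega

theorem f24' (hg : Gr p side) (hn : Nice p F L) (ha : Adm p F L W)
    (hz : ∀ w, Z4 p F w → cnt p W w ≠ 4) (w : V) (h : deg p w ≠ 3) :
    cnt p (nF F W) w = 0 ∨ cnt p (nF F W) w = 2 := by
  have h1 := cnt_xor p F W w
  have h2 := cnt_le p (nF F W) w
  have h3 := hn.fam.f24 w h
  have h4 := hg.le w
  have h5 := cnt_le p W w
  obtain ⟨k, hk⟩ := ha.ev w
  change cnt p (nF F W) w + _ = _ at h1
  by_cases h6 : deg p w = 4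
  · rcases h3 with h3 | h3
    · have := hz w ⟨h6, h3⟩
      omega
    · exact Or.inr (cnt4 hn ha w h6 h3).1
  · omega

/-- a new hub: a root passed by its B-edge and its C-edge -/
theorem newhub (hg : Gr p side) (hn : Nice p F L) (ha : Adm p F L W) (w : V) (h : deg p w = 3)
    (h1 : cnt p F w = 1) (h3 : cnt p (nF F W) w = 3) :
    ∃ a ∈ incS p w, ∃ b ∈ incS p w, ∃ c ∈ incS p w, F a = true ∧ L a = false ∧ W a = false ∧
      F b = false ∧ L b = false ∧ W b = true ∧ F c = false ∧ L c = true ∧ W c = true ∧
      deg p (p a (!side w)) = 4 ∧ deg p (p b (!side w)) ≠ 3 ∧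
      (∀ e ∈ incS p w, e = a ∨ e = b ∨ e = c) ∧
      ∀ P : E → Bool, cnt p P w = (P a).toNat + (P b).toNat + (P c).toNat := by
  obtain ⟨a, ha', b, hb, c, hc, hFa, hFb, hLb, hFc, hLc, hall, hP⟩ := typ3 p F L hn.bal w h h1
  have h4 := all_of_cnt p (nF F W) w (h3.trans h.symm)
  have hWa : W a = false := by simpa [nF, hFa] using h4 a ha'
  have hWb : W b = true := by simpa [nF, hFb] using h4 b hb
  have hWc : W c = true := by simpa [nF, hFc] using h4 c hc
  have hr := root_of_B hn ha w h b hb hFb hLb hWb
  have hLa : L a = false := by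
    have := hr.2.2
    rw [hP] at this
    simpa [hFa, hFb, hFc] using this
  have hpa := (mem_inc hg.hs a w).mp ha'
  have hpb := (mem_inc hg.hs b w).mp hb
  refine ⟨a, ha', b, hb, c, hc, hFa, hLa, hWa, hFb, hLb, hWb, hFc, hLc, hWc, ?_, ?_, hall, hP⟩
  · rcases hn.d3 a (side w) hFa hLa (by rw [hpa]; exact h) with h5 | h5
    · exact h5
    · have := h5.2.1
      rw [hpa] at this
      omega
  · intro h5
    have hr2 := root_of_B hn ha _ h5 b (self_mem p b _) hFb hLb hWb
    rw [← hpb] at hr
    cases hw : side w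
    · rw [hw] at hr hr2
      exact hn.rr b hFb hLb hr2 hr
    · rw [hw] at hr hr2
      exact hn.rr b hFb hLb hr hr2

theorem fam' (hg : Gr p side) (hn : Nice p F L) (ha : Adm p F L W)
    (hz : ∀ w, Z4 p F w → cnt p W w ≠ 4) : Fam p (nF F W) := by
  refine ⟨f3' hn ha, f24' hg hn ha hz, fun e f b hef h3 he hf => ?_⟩
  have h : deg p (p e b) = 3 := by
    by_contra h
    have := f24' hg hn ha hz _ h
    omega
  rcases hn.fam.f3 _ h with h1 | h1
  · obtain ⟨a, _, b', _, c, _, _, _, _, _, _, _, _, _, _, ha4, hb3, hall, _⟩ :=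
      newhub hg hn ha _ h h1 h3
    rw [hg.hs] at ha4 hb3
    have h5 : ∀ x ∈ incS p (p e b), deg p (p x (!b)) = 3 → x = c := by
      intro x hx hx3
      rcases hall x hx with rfl | rfl | rfl
      · omega
      · exact absurd hx3 hb3
      · rfl
    rw [h5 e (self_mem p e b) he, h5 f (hef ▸ self_mem p f b) hf]
  · exact hn.fam.hub e f b hef h1 he hf

theorem lab' (hn : Nice p F L) : Lab p (nF F W) (nL p F L W) := by
  intro e hF hr
  unfold nF at hF
  unfold nL
  cases hW : W e
  · rw [hW] at hF
    rw [hn.lab e (by simpa using hF) hr]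
    rfl
  · rw [hW] at hF
    have h1 : F e = false := by simpa using hF
    have h2 : deg p (p e true) ≠ 4 ∧ deg p (p e false) ≠ 4 := ⟨hr.2, hr.1 ▸ hr.2⟩
    simp [h1, h2]

theorem cost_same (w : V) (h : ∀ e ∈ incS p w, W e = false) :
    cost p side (nF F W) (nL p F L W) w = cost p side F L w := by
  have hF : ∀ e ∈ incS p w, nF F W e = F e := fun e he => by simp [nF, h e he]
  have hL : ∀ e ∈ incS p w, nL p F L W e = L e := fun e he => by simp [nL, h e he]
  have h1 : cnt p (nF F W) w = cnt p F w := cnt_congr p _ _ w hF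
  have h2 : cnt p (fun e => nF F W e && nL p F L W e) w = cnt p (fun e => F e && L e) w :=
    cnt_congr p _ _ w fun e he => by rw [hF e he, hL e he]
  have h3 : cnt p (fun e => nF F W e && !nL p F L W e) w = cnt p (fun e => F e && !L e) w :=
    cnt_congr p _ _ w fun e he => by rw [hF e he, hL e he]
  have h4 : pc p side (nF F W) (nL p F L W) w = pc p side F L w := by
    unfold pc
    rw [h1]
    exact cnt_congr p _ _ w fun e he => by rw [hF e he, hL e he]
  unfold cost Z4 Viol Inner
  rw [h1, h2, h3, h4]

/-- the cost of a 3-vertex with one edge of the family member -/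
theorem cost_one (F L : E → Bool) (w : V) (h : deg p w = 3) (h1 : cnt p F w = 1) :
    cost p side F L w = pc p side F L w := by
  unfold cost
  rw [if_neg (by omega), if_neg (fun hz => by have := hz.1; omega), if_neg]
  · simp
  · rintro ⟨h2 | h2, _⟩
    · omega
    · omega

theorem pc_one (F L : E → Bool) (w : V) (h : deg p w = 3) (h1 : cnt p F w = 1) :
    pc p side F L w = cnt p (fun e => F e && !L e) w :=
  cnt_congr p _ _ w fun e _ => by simp [h, h1]

theorem cost_le (hg : Gr p side) (hn : Nice p F L) (ha : Adm p F L W)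
    (hz : ∀ w, Z4 p F w → cnt p W w ≠ 4) (w : V) :
    cost p side (nF F W) (nL p F L W) w ≤ cost p side F L w := by
  by_cases h : deg p w = 3
  · rcases f3' hn ha w h with h1' | h3'
    · rw [cost_one _ _ w h h1']
      rcases hn.fam.f3 w h with h1 | h3
      · rw [cost_one _ _ w h h1, pc_one _ _ w h h1, pc_one _ _ w h h1']
        obtain ⟨a, ha', b, hb, c, hc, hFa, hFb, hLb, hFc, hLc, _, hP⟩ :=
          typ3 p F L hn.bal w h h1
        cases hLa : L a
        · have h5 : cnt p (fun e => nF F W e && !nL p F L W e) w ≤ cnt p (nF F W) w :=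
            cnt_mono p _ _ w fun e _ h6 => by
              rw [Bool.and_eq_true] at h6
              exact h6.1
          have h6 : cnt p (fun e => F e && !L e) w = 1 := by
            rw [hP]
            simp [hFa, hFb, hFc, hLa]
          omega
        · have hWb : W b = false := by
            by_contra hWb
            have hr := root_of_B hn ha w h b hb hFb hLb (by simpa using hWb)
            have := hr.2.2
            rw [hP] at this
            simp [hFa, hLa] at this
          rw [hP]
          simp [nF, nL, hFb, hLa, hLc, hWb]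
      · have h5 := pc_le' p side (nF F W) (nL p F L W) w
        unfold cost
        rw [if_pos h3]
        omega
    · rcases hn.fam.f3 w h with h1 | h3
      · obtain ⟨a, ha', b, hb, c, hc, hFa, hLa, hWa, hFb, hLb, hWb, hFc, hLc, hWc, ha4, hb3, _,
          hP⟩ := newhub hg hn ha w h h1 h3'
        have hpb := (mem_inc hg.hs b w).mp hb
        have h6 : cost p side F L w = 1 := by
          rw [cost_one _ _ w h h1, pc_one _ _ w h h1, hP]
          simp [hFa, hFb, hFc, hLa]
        have h7 : ¬ Viol p (nF F W) (nL p F L W) w := by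
          rintro ⟨_, h5 | h5⟩
          · rw [hP] at h5
            simp [nF, nL, hFc, hLc, hWc] at h5
          · rw [hP] at h5
            simp [nF, nL, hFa, hLa, hWa] at h5
        have h8 : pc p side (nF F W) (nL p F L W) w = 0 := by
          unfold pc
          rw [hP, h3']
          have h9 : deg p (p b (!side w)) = 2 →
              deg p (p b true) ≠ 4 ∧ deg p (p b false) ≠ 4 := by
            intro h9
            have h10 : deg p (p b (side w)) = 3 := by rw [hpb]; exact h
            revert h9 h10
            cases side w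
            · simp only [Bool.not_false]
              omega
            · simp only [Bool.not_true]
              omega
          by_cases h10 : deg p (p b (!side w)) = 2
          · simp [nF, nL, ha4, hLc, hWb, hFb, h9 h10]
          · simp [nF, nL, ha4, hLc, h10]
        rw [h6]
        unfold cost
        rw [if_pos h3', if_neg (fun hz => by have := hz.1; omega), if_neg h7, h8]
      · refine (cost_same w fun e he => ?_).le
        have h5 := all_of_cnt p F w (h3.trans h.symm) e he
        have h6 := all_of_cnt p (nF F W) w (h3'.trans h.symm) e he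
        simpa [nF, h5] using h6
  · have h2 := f24' hg hn ha hz w h
    have h3 : cost p side (nF F W) (nL p F L W) w = 2 * (open Classical in
        (if Z4 p (nF F W) w then 1 else 0) +
          (if Viol p (nF F W) (nL p F L W) w then 1 else 0)) := by
      unfold cost
      rw [if_neg (by omega), pc_zero p side _ _ w h]
      omega
    rw [h3]
    by_cases h4 : deg p w = 4
    · rcases hn.fam.f24 w h with h5 | h5
      · have h6 : 2 ≤ cost p side F L w := by
          unfold cost
          rw [if_pos (show Z4 p F w from ⟨h4, h5⟩)]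
          omega
        split_ifs with h7 h8
        · exfalso
          have := h7.2
          rcases h8.1 with h9 | h9
          · omega
          · omega
        · omega
        · omega
        · omega
      · have h6 := cnt4 hn ha w h4 h5
        rw [if_neg (fun hz => by have := hz.2; omega), if_neg h6.2]
        omega
    · rw [if_neg (fun hz => h4 hz.1), if_neg]
      · omega
      · rintro ⟨h5 | h5, _⟩
        · omega
        · exact h4 h5.1

theorem cost_lt (hn : Nice p F L) (ha : Adm p F L W) (w : V) (hw : Gain p F L W w) :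
    cost p side (nF F W) (nL p F L W) w < cost p side F L w := by
  obtain ⟨⟨h, h1, h2⟩, h3, h4⟩ := hw
  obtain ⟨a, _, b, _, c, _, hFa, hFb, hLb, hFc, hLc, _, hP⟩ := typ3 p F L hn.bal w h h1
  have hev := ha.ev w
  rw [hP] at h2 h3 h4 hev
  have hLa : L a = false := by simpa [hFa, hFb, hFc] using h2
  have hWa : W a = true := by simpa [hFa, hFb, hFc] using h4
  have hWc : W c = true := by simpa [hLa, hLb, hLc] using h3
  have hWb : W b = false := by
    rw [hWa, hWc] at hev
    revert hev
    cases W b <;> decide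
  have h1' : cnt p (nF F W) w = 1 := by
    rw [hP]
    simp [nF, hFa, hFb, hFc, hWa, hWb, hWc]
  rw [cost_one _ _ w h h1, cost_one _ _ w h h1', pc_one _ _ w h h1, pc_one _ _ w h h1', hP, hP]
  simp [nF, nL, hFa, hFb, hFc, hLa, hLc, hWa, hWb]

end Pool.Agent.Lib.IC4.TOG

namespace Pool.Agent.Lib.IC4
open Finset

universe u v

theorem stTOG : St_TOG.{u, v} := by
  intro V E _ _ _ _ p side F L W hg hn ha hgain hz
  obtain ⟨g, hg'⟩ := hgain
  refine ⟨TOG.nF F W, TOG.nL p F L W, TOG.fam' hg hn ha hz, TOG.lab' hn, ?_⟩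
  rw [TOG.T_eq hg.hs _ _ (TOG.lab' hn), TOG.T_eq hg.hs _ _ hn.lab]
  exact sum_lt_sum (fun w _ => TOG.cost_le hg hn ha hz w) ⟨g, mem_univ _, TOG.cost_lt hn ha g hg'⟩

end Pool.Agent.Lib.IC4
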