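import Pool.Agent.Lib.IC4.Blue

/-! Block TOG: toggling along an admissible set lowers the potential. -/

set_option linter.unusedSectionVars false

namespace Pool.Agent.Lib.IC4
open Finset

universe u v

namespace TOG2
variable {V : Type u} {E : Type v} [Fintype V] [Fintype E] [DecidableEq V] [DecidableEq E]
  {p : E → Bool → V} {side : V → Bool}

theorem mem_inc (hs : ∀ e b, side (p e b) = b) {w : V} {e : E} :
    e ∈ incS p w ↔ p e (side w) = w := by
  simp only [incS, mem_filter, mem_univ, true_and]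
  refine ⟨?_, fun h => ?_⟩
  · rintro (h | h) <;> rw [← h, hs]
  · revert h; cases side w <;> tauto

theorem cnt_sum (P : E → Bool) (w : V) : cnt p P w = ∑ e ∈ incS p w, (P e).toNat := by
  rw [cnt, card_filter]
  exact sum_congr rfl fun e _ => by cases P e <;> rfl

theorem sum_cnt (hs : ∀ e b, side (p e b) = b) (Q : V → E → Bool) :
    ∑ w, cnt p (Q w) w = ∑ e, ((Q (p e true) e).toNat + (Q (p e false) e).toNat) := by
  simp only [cnt_sum, incS, sum_filter]
  rw [sum_comm]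
  refine sum_congr rfl fun e _ => ?_
  have hne : p e true ≠ p e false := fun h => by simpa [hs] using congrArg side h
  rw [← sum_filter, show (univ.filter fun w => p e true = w ∨ p e false = w) =
    {p e true, p e false} by ext w; simp [eq_comm], sum_pair hne]

/-- payment of `e` at the vertex `w` -/
def pb (p : E → Bool → V) (side : V → Bool) (F L : E → Bool) (w : V) (e : E) : Bool :=
  F e && !L e && (decide (deg p w = 3) &&
    (decide (cnt p F w = 1) || decide (deg p (p e (!side w)) = 2)))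

open Classical in
/-- the cost at one vertex -/
noncomputable def vc (p : E → Bool → V) (side : V → Bool) (F L : E → Bool) (w : V) : ℕ :=
  (if cnt p F w = 3 then 1 else 0) + 2 * (if Z4 p F w then 1 else 0) +
    2 * (if Viol p F L w then 1 else 0) + cnt p (pb p side F L w) w

theorem pb_iff (hs : ∀ e b, side (p e b) = b) (F L : E → Bool) (e : E) (b : Bool) :
    pb p side F L (p e b) e = true ↔ PayD p F e b ∧ L e = false := by
  simp only [pb, PayD, hs, Bool.and_eq_true, Bool.or_eq_true, decide_eq_true_eq,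
    Bool.not_eq_true']
  tauto

theorem sum_vc (hs : ∀ e b, side (p e b) = b) (F L : E → Bool) :
    ∑ w, vc p side F L w + npaid p F L = TF p F + TL p F L +
      ∑ e, ((pb p side F L (p e true) e).toNat + (pb p side F L (p e false) e).toNat) := by
  simp only [vc, sum_add_distrib, ← mul_sum, TF, TL, nviol, card_filter]
  rw [sum_cnt hs, sum_add_distrib]
  ring

theorem le_sum (hs : ∀ e b, side (p e b) = b) (F L : E → Bool) :
    TF p F + TL p F L ≤ ∑ w, vc p side F L w := by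
  classical
  have h := sum_vc hs F L
  have : npaid p F L ≤
      ∑ e, ((pb p side F L (p e true) e).toNat + (pb p side F L (p e false) e).toNat) := by
    rw [npaid, card_filter]
    refine sum_le_sum fun e _ => ?_
    split_ifs with k
    · obtain ⟨⟨b, k1⟩, k2⟩ := k
      have := (pb_iff hs F L e b).2 ⟨k1, k2⟩
      cases b <;> simp [this]
    · omega
  omega

theorem sum_le (hs : ∀ e b, side (p e b) = b) (F L : E → Bool) (hl : Lab p F L) :
    ∑ w, vc p side F L w ≤ TF p F + TL p F L := by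
  classical
  have h := sum_vc hs F L
  have : ∑ e, ((pb p side F L (p e true) e).toNat + (pb p side F L (p e false) e).toNat) ≤
      npaid p F L := by
    rw [npaid, card_filter]
    refine sum_le_sum fun e _ => ?_
    have k1 := pb_iff hs F L e true
    have k2 := pb_iff hs F L e false
    cases h1 : pb p side F L (p e true) e <;> cases h2 : pb p side F L (p e false) e
    · simp
    · rw [if_pos ⟨⟨_, (k2.1 h2).1⟩, (k2.1 h2).2⟩]; simp
    · rw [if_pos ⟨⟨_, (k1.1 h1).1⟩, (k1.1 h1).2⟩]; simp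
    · obtain ⟨⟨a1, a2, -⟩, a3⟩ := k1.1 h1
      obtain ⟨⟨-, a4, -⟩, -⟩ := k2.1 h2
      have := hl e a1 ⟨by omega, by omega⟩
      simp [a3] at this
  omega

/-- sum of three bits -/
def n3 (a b c : Bool) : ℕ := a.toNat + (b.toNat + c.toNat)

/-- cost at a 3-vertex; `t` marks the edges whose other end has degree two -/
def c3 (f1 f2 f3 l1 l2 l3 t1 t2 t3 : Bool) : ℕ :=
  (if n3 f1 f2 f3 = 3 then 1 else 0) +
    2 * (if n3 f1 f2 f3 = 3 ∧ (n3 (f1 && l1) (f2 && l2) (f3 && l3) = 0 ∨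
      n3 (f1 && !l1) (f2 && !l2) (f3 && !l3) = 0) then 1 else 0) +
    n3 (f1 && !l1 && (decide (n3 f1 f2 f3 = 1) || t1))
      (f2 && !l2 && (decide (n3 f1 f2 f3 = 1) || t2))
      (f3 && !l3 && (decide (n3 f1 f2 f3 = 1) || t3))

/-- the hypotheses at a 3-vertex that do not mention neighbours -/
def H3 (f1 f2 f3 l1 l2 l3 w1 w2 w3 : Bool) : Prop :=
  (n3 f1 f2 f3 = 1 ∨ n3 f1 f2 f3 = 3) ∧
  n3 (!f1 && l1) (!f2 && l2) (!f3 && l3) = n3 (!f1 && !l1) (!f2 && !l2) (!f3 && !l3) ∧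
  ¬ (n3 f1 f2 f3 = 3 ∧ (n3 (f1 && l1) (f2 && l2) (f3 && l3) = 0 ∨
      n3 (f1 && !l1) (f2 && !l2) (f3 && !l3) = 0)) ∧
  n3 w1 w2 w3 % 2 = 0 ∧
  (¬ (n3 f1 f2 f3 = 1 ∧ n3 (f1 && l1) (f2 && l2) (f3 && l3) = 0) →
    (l1 = l2 → w1 = w2) ∧ (l1 = l3 → w1 = w3) ∧ (l2 = l3 → w2 = w3))

instance (f1 f2 f3 l1 l2 l3 w1 w2 w3 : Bool) : Decidable (H3 f1 f2 f3 l1 l2 l3 w1 w2 w3) := by
  unfold H3; infer_instance

theorem root3 : ∀ f1 f2 f3 l1 l2 l3 w1 w2 w3 : Bool, H3 f1 f2 f3 l1 l2 l3 w1 w2 w3 →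
    ((!f1 && !l1 && w1) || (!f2 && !l2 && w2) || (!f3 && !l3 && w3)) = true →
    n3 f1 f2 f3 = 1 ∧ n3 (f1 && l1) (f2 && l2) (f3 && l3) = 0 := by decide +kernel

/-- what is known about one edge at a 3-vertex; `t`, `q`: the other end has degree two, four -/
def K3 (n d : ℕ) (f l w t q : Bool) : Prop :=
  (t && q) = false ∧ ((f && !l) = true → q = true ∨ (t = true ∧ n = 3 ∧ d = 1)) ∧
    ((!f && !l && w) = true → (t || q) = true)

instance (n d : ℕ) (f l w t q : Bool) : Decidable (K3 n d f l w t q) := by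
  unfold K3; infer_instance

theorem tog3 : ∀ f1 f2 f3 l1 l2 l3 w1 w2 w3 : Bool, H3 f1 f2 f3 l1 l2 l3 w1 w2 w3 →
    ∀ t1 q1, K3 (n3 f1 f2 f3) (n3 (f1 && !l1) (f2 && !l2) (f3 && !l3)) f1 l1 w1 t1 q1 →
    ∀ t2 q2, K3 (n3 f1 f2 f3) (n3 (f1 && !l1) (f2 && !l2) (f3 && !l3)) f2 l2 w2 t2 q2 →
    ∀ t3 q3, K3 (n3 f1 f2 f3) (n3 (f1 && !l1) (f2 && !l2) (f3 && !l3)) f3 l3 w3 t3 q3 →
    (n3 f1 f2 f3 = 3 → n3 (!(t1 || q1)) (!(t2 || q2)) (!(t3 || q3)) ≤ 1) →
    (n3 (xor f1 w1) (xor f2 w2) (xor f3 w3) = 1 ∨ n3 (xor f1 w1) (xor f2 w2) (xor f3 w3) = 3) ∧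
    (n3 (xor f1 w1) (xor f2 w2) (xor f3 w3) = 3 →
      n3 (!(t1 || q1)) (!(t2 || q2)) (!(t3 || q3)) ≤ 1) ∧
    c3 (xor f1 w1) (xor f2 w2) (xor f3 w3) (l1 || (!f1 && !q1)) (l2 || (!f2 && !q2))
      (l3 || (!f3 && !q3)) t1 t2 t3 +
      (if (n3 f1 f2 f3 = 1 ∧ n3 (f1 && l1) (f2 && l2) (f3 && l3) = 0) ∧
        n3 (w1 && l1) (w2 && l2) (w3 && l3) = 1 ∧ n3 (w1 && f1) (w2 && f2) (w3 && f3) = 1
        then 1 else 0) ≤ c3 f1 f2 f3 l1 l2 l3 t1 t2 t3 := by decide +kernel

/-- sum of four bits -/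
def n4 (a b c d : Bool) : ℕ := a.toNat + (b.toNat + (c.toNat + d.toNat))

/-- cost at a 4-vertex -/
def c4 (f1 f2 f3 f4 l1 l2 l3 l4 : Bool) : ℕ :=
  (if n4 f1 f2 f3 f4 = 0 then 1 else 0) +
    (if n4 f1 f2 f3 f4 = 2 ∧ (n4 (f1 && l1) (f2 && l2) (f3 && l3) (f4 && l4) = 0 ∨
      n4 (f1 && !l1) (f2 && !l2) (f3 && !l3) (f4 && !l4) = 0) then 1 else 0)

/-- edges with the same label are in or out together -/
def P4 (l1 l2 l3 l4 w1 w2 w3 w4 : Bool) : Prop :=
  (l1 = l2 → w1 = w2) ∧ (l1 = l3 → w1 = w3) ∧ (l1 = l4 → w1 = w4) ∧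
    (l2 = l3 → w2 = w3) ∧ (l2 = l4 → w2 = w4) ∧ (l3 = l4 → w3 = w4)

instance (l1 l2 l3 l4 w1 w2 w3 w4 : Bool) : Decidable (P4 l1 l2 l3 l4 w1 w2 w3 w4) := by
  unfold P4; infer_instance

theorem tog4 : ∀ f1 f2 f3 f4 : Bool, (n4 f1 f2 f3 f4 = 0 ∨ n4 f1 f2 f3 f4 = 2) →
    ∀ l1 l2 l3 l4 : Bool, n4 (!f1 && l1) (!f2 && l2) (!f3 && l3) (!f4 && l4) =
      n4 (!f1 && !l1) (!f2 && !l2) (!f3 && !l3) (!f4 && !l4) →
    ¬ (n4 f1 f2 f3 f4 = 2 ∧ (n4 (f1 && l1) (f2 && l2) (f3 && l3) (f4 && l4) = 0 ∨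
      n4 (f1 && !l1) (f2 && !l2) (f3 && !l3) (f4 && !l4) = 0)) →
    ∀ w1 w2 w3 w4 : Bool, n4 w1 w2 w3 w4 % 2 = 0 → (n4 f1 f2 f3 f4 = 0 → n4 w1 w2 w3 w4 ≠ 4) →
    (n4 f1 f2 f3 f4 ≠ 0 → P4 l1 l2 l3 l4 w1 w2 w3 w4) →
    (n4 (xor f1 w1) (xor f2 w2) (xor f3 w3) (xor f4 w4) = 0 ∨
      n4 (xor f1 w1) (xor f2 w2) (xor f3 w3) (xor f4 w4) = 2) ∧
    c4 (xor f1 w1) (xor f2 w2) (xor f3 w3) (xor f4 w4) l1 l2 l3 l4 ≤
      c4 f1 f2 f3 f4 l1 l2 l3 l4 := by
  intro f1 f2 f3 f4 h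
  cases f1 <;> cases f2 <;> cases f3 <;> cases f4 <;> first | (exfalso; revert h; decide) | decide +kernel

theorem inc3 {w : V} (h : deg p w = 3) : ∃ a b c, a ≠ b ∧ a ≠ c ∧ b ≠ c ∧ incS p w = {a, b, c} ∧
    ∀ P, cnt p P w = n3 (P a) (P b) (P c) := by
  obtain ⟨a, b, c, h1, h2, h3, e⟩ := card_eq_three.1 h
  refine ⟨a, b, c, h1, h2, h3, e, fun P => ?_⟩
  rw [cnt_sum, e, sum_insert (by simp [h1, h2]), sum_pair h3, n3]

theorem inc4 {w : V} (h : deg p w = 4) : ∃ a b c d, incS p w = {a, b, c, d} ∧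
    ∀ P, cnt p P w = n4 (P a) (P b) (P c) (P d) := by
  obtain ⟨a, t, ha, e, ht⟩ := card_eq_succ.1 h
  obtain ⟨b, c, d, h1, h2, h3, rfl⟩ := card_eq_three.1 ht
  refine ⟨a, b, c, d, e.symm, fun P => ?_⟩
  rw [cnt_sum, ← e, sum_insert ha, sum_insert (by simp [h1, h2]), sum_pair h3, n4]

variable {F L W : E → Bool}

theorem h3 (N : Nice p F L) (A : Adm p F L W) {w : V} (h : deg p w = 3) {a b c : E}
    (e : incS p w = {a, b, c}) (k : ∀ P, cnt p P w = n3 (P a) (P b) (P c)) :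
    H3 (F a) (F b) (F c) (L a) (L b) (L c) (W a) (W b) (W c) := by
  have a1 := N.fam.f3 w h
  have a2 := N.bal w
  have a3 := N.nov w
  have a4 := Nat.even_iff.1 (A.ev w)
  have a5 := A.eq w (fun z => by have := z.1; omega)
  simp only [Viol, Inner, Root, k, h, e, true_and] at a1 a2 a3 a4 a5
  refine ⟨a1, a2, fun z => a3 ⟨Or.inl z.1, z.2⟩, a4, fun z => ?_⟩
  exact ⟨a5 z a (by simp) b (by simp), a5 z a (by simp) c (by simp), a5 z b (by simp) c (by simp)⟩

theorem root_of_B (N : Nice p F L) (A : Adm p F L W) {e : E} {b : Bool} (h : deg p (p e b) = 3)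
    (h1 : F e = false) (h2 : L e = false) (h4 : W e = true) : Root p F L (p e b) := by
  obtain ⟨x, y, z, -, -, -, q, k⟩ := inc3 h
  have := root3 _ _ _ _ _ _ _ _ _ (h3 N A h q k) (by
    have m : e ∈ incS p (p e b) := by cases b <;> simp [incS]
    simp only [q, mem_insert, mem_singleton] at m
    rcases m with rfl | rfl | rfl <;> simp [h1, h2, h4])
  exact ⟨h, by rw [k]; exact this.1, by rw [k]; exact this.2⟩

/-- the new labels -/
def nl (p : E → Bool → V) (F L : E → Bool) (e : E) : Bool :=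
  L e || (!F e && !(decide (deg p (p e true) = 4) || decide (deg p (p e false) = 4)))

theorem nl_at {e : E} (b : Bool) : nl p F L e =
    (L e || (!F e && !(decide (deg p (p e b) = 4) || decide (deg p (p e (!b)) = 4)))) := by
  cases b <;> simp [nl, Bool.or_comm]

theorem k3 (g : Gr p side) (N : Nice p F L) (A : Adm p F L W) {w : V} (h : deg p w = 3) {e : E}
    (he : e ∈ incS p w) : K3 (cnt p F w) (cnt p (fun f => F f && !L f) w) (F e) (L e) (W e)
      (decide (deg p (p e (!side w)) = 2)) (decide (deg p (p e (!side w)) = 4)) := by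
  have m := (mem_inc g.hs).1 he
  refine ⟨by simp; omega, fun z => ?_, fun z => ?_⟩
  · simp only [Bool.and_eq_true, Bool.not_eq_true'] at z
    have := N.d3 e (side w) z.1 z.2 (by rw [m, h])
    simpa [m] using this
  · simp only [Bool.and_eq_true, Bool.not_eq_true'] at z
    have j1 := g.two e (!side w)
    have j2 := g.le (p e (!side w))
    by_contra c
    simp only [Bool.or_eq_true, decide_eq_true_eq] at c
    have r1 := root_of_B N A (b := side w) (by rw [m, h]) z.1.1 z.1.2 z.2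
    have r2 := root_of_B N A (e := e) (b := !side w) (by omega) z.1.1 z.1.2 z.2
    revert r1 r2
    cases side w
    exacts [fun r1 r2 => N.rr e z.1.1 z.1.2 r2 r1, fun r1 r2 => N.rr e z.1.1 z.1.2 r1 r2]

theorem hub_iff (g : Gr p side) {w : V} :
    cnt p (fun e => !(decide (deg p (p e (!side w)) = 2) || decide (deg p (p e (!side w)) = 4))) w
      ≤ 1 ↔ ∀ e ∈ incS p w, ∀ f ∈ incS p w, deg p (p e (!side w)) = 3 →
        deg p (p f (!side w)) = 3 → e = f := by
  have : ∀ e, ((!(decide (deg p (p e (!side w)) = 2) || decide (deg p (p e (!side w)) = 4))) = true)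
      ↔ deg p (p e (!side w)) = 3 := fun e => by
    have j1 := g.two e (!side w)
    have j2 := g.le (p e (!side w))
    simp; omega
  simp only [cnt, card_le_one, mem_filter, this]
  exact ⟨fun h e he f hf a b => h e ⟨he, a⟩ f ⟨hf, b⟩, fun h e he f hf => h e he.1 f hf.1 he.2 hf.2⟩

open Classical in
theorem loc3 (g : Gr p side) (N : Nice p F L) (A : Adm p F L W) {w : V} (h : deg p w = 3) :
    (cnt p (fun e => xor (F e) (W e)) w = 1 ∨ cnt p (fun e => xor (F e) (W e)) w = 3) ∧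
    (cnt p (fun e => xor (F e) (W e)) w = 3 → ∀ e ∈ incS p w, ∀ f ∈ incS p w,
      deg p (p e (!side w)) = 3 → deg p (p f (!side w)) = 3 → e = f) ∧
    vc p side (fun e => xor (F e) (W e)) (nl p F L) w + (if Gain p F L W w then 1 else 0) ≤
      vc p side F L w := by
  obtain ⟨a, b, c, -, -, -, q, k⟩ := inc3 h
  have ka := k3 g N A h (e := a) (by simp [q])
  have kb := k3 g N A h (e := b) (by simp [q])
  have kc := k3 g N A h (e := c) (by simp [q])
  have hh : cnt p F w = 3 → _ := fun z => (hub_iff g (w := w)).2 fun e he f hf j1 j2 =>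
    N.fam.hub e f (side w) (by rw [(mem_inc g.hs).1 he, (mem_inc g.hs).1 hf])
      (by rw [(mem_inc g.hs).1 he, z]) j1 j2
  rw [← hub_iff g]
  have nl' : ∀ e ∈ incS p w, nl p F L e =
      (L e || (!F e && !decide (deg p (p e (!side w)) = 4))) := fun e he => by
    rw [nl_at (side w), (mem_inc g.hs).1 he, h]; simp
  simp only [k] at ka kb kc hh
  have := tog3 _ _ _ _ _ _ _ _ _ (h3 N A h q k) _ _ ka _ _ kb _ _ kc hh
  simp only [vc, Z4, Viol, Inner, Gain, Root, k, h, pb, nl' a (by simp [q]), nl' b (by simp [q]),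
    nl' c (by simp [q]), true_and, decide_true, Bool.true_and, false_and, or_false, if_false,
    Nat.reduceEqDiff, mul_zero, add_zero]
  simp only [c3, and_assoc] at this
  simp only [and_assoc]
  convert this

theorem loc4 (g : Gr p side) (N : Nice p F L) (A : Adm p F L W)
    (hz : ∀ w, Z4 p F w → cnt p W w ≠ 4) {w : V} (h : deg p w = 4) :
    (cnt p (fun e => xor (F e) (W e)) w = 0 ∨ cnt p (fun e => xor (F e) (W e)) w = 2) ∧
    vc p side (fun e => xor (F e) (W e)) (nl p F L) w ≤ vc p side F L w := by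
  obtain ⟨a, b, c, d, q, k⟩ := inc4 h
  have a1 := N.fam.f24 w (by omega)
  have a2 := N.bal w
  have a3 := N.nov w
  have a4 := Nat.even_iff.1 (A.ev w)
  have a5 := fun z => A.eq w z (fun z => by have := z.1; omega)
  have a6 := hz w
  have nl' : ∀ e ∈ incS p w, nl p F L e = L e := fun e he => by
    rw [nl_at (side w), (mem_inc g.hs).1 he, h]; simp
  simp only [Viol, Inner, Z4, k, h, q, true_and] at a1 a2 a3 a4 a5 a6
  have := tog4 _ _ _ _ a1 _ _ _ _ a2 (fun z => a3 ⟨Or.inr z.1, z.2⟩) _ _ _ _ a4 a6 fun z =>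
    ⟨a5 z a (by simp) b (by simp), a5 z a (by simp) c (by simp), a5 z a (by simp) d (by simp),
      a5 z b (by simp) c (by simp), a5 z b (by simp) d (by simp), a5 z c (by simp) d (by simp)⟩
  refine ⟨by rw [k]; exact this.1, ?_⟩
  obtain ⟨t1, t2⟩ := this
  simp only [vc, Z4, Viol, Inner, k, h, pb, nl' a (by simp [q]), nl' b (by simp [q]),
    nl' c (by simp [q]), nl' d (by simp [q]), true_and, Nat.reduceEqDiff, decide_false,
    Bool.false_and, Bool.and_false]
  simp only [c4] at t2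
  have z1 : ¬ n4 (F a) (F b) (F c) (F d) = 3 := by omega
  have z2 : ¬ n4 (F a ^^ W a) (F b ^^ W b) (F c ^^ W c) (F d ^^ W d) = 3 := by omega
  simp only [z1, z2, false_or, if_false]
  split_ifs at t2 ⊢ <;> omega

theorem loc2 (N : Nice p F L) (A : Adm p F L W) {w : V} (h : deg p w ≤ 2) :
    (cnt p (fun e => xor (F e) (W e)) w = 0 ∨ cnt p (fun e => xor (F e) (W e)) w = 2) ∧
    vc p side (fun e => xor (F e) (W e)) (nl p F L) w = 0 := by
  have le : ∀ P, cnt p P w ≤ 2 := fun P => (card_filter_le _ _).trans h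
  have a1 := N.fam.f24 w (by omega)
  have a4 := Nat.even_iff.1 (A.ev w)
  have : cnt p (fun e => xor (F e) (W e)) w + 2 * cnt p (fun e => F e && W e) w =
      cnt p F w + cnt p W w := by
    simp only [cnt_sum, mul_sum, ← sum_add_distrib]
    exact sum_congr rfl fun e _ => by cases F e <;> cases W e <;> rfl
  have l1 := le fun e => xor (F e) (W e)
  refine ⟨by omega, ?_⟩
  have z1 : ¬ cnt p (fun e => xor (F e) (W e)) w = 3 := by omega
  have z2 : ¬ deg p w = 4 := by omega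
  have z3 : ¬ deg p w = 3 := by omega
  simp [vc, Z4, Viol, Inner, z1, z2, cnt_sum (pb _ _ _ _ _), pb, z3]

end TOG2

theorem stTOG2 : St_TOG.{u, v} := by
  classical
  intro V E _ _ _ _ p side F L W g N A ⟨x, hx⟩ hz
  refine ⟨fun e => xor (F e) (W e), TOG2.nl p F L, ⟨fun w h => (TOG2.loc3 g N A h).1, fun w h => ?_,
    fun e f b h1 h2 h3 h4 => ?_⟩, fun e h1 h2 => ?_, ?_⟩
  · by_cases k : deg p w = 4
    · exact (TOG2.loc4 g N A hz k).1
    · exact (TOG2.loc2 (side := side) N A (by have := g.le w; omega)).1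
  · have k : deg p (p e b) = 3 := by
      by_contra k
      by_cases k' : deg p (p e b) = 4
      · have := (TOG2.loc4 g N A hz k').1; omega
      · have := (TOG2.loc2 (side := side) N A (w := p e b) (by have := g.le (p e b); omega)).1
        omega
    refine (TOG2.loc3 g N A k).2.1 h2 e ((TOG2.mem_inc g.hs).2 ?_) f ((TOG2.mem_inc g.hs).2 ?_) ?_ ?_
      <;> rw [g.hs]
    exacts [h1.symm, h3, h4]
  · cases k : F e
    · have := h2.1
      have := h2.2
      simp [TOG2.nl, k]; omega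
    · simp [TOG2.nl, N.lab e k h2]
  · refine lt_of_le_of_lt (TOG2.le_sum g.hs _ _) (lt_of_lt_of_le ?_ (TOG2.sum_le g.hs F L N.lab))
    refine sum_lt_sum (fun w _ => ?_) ⟨x, mem_univ _, ?_⟩
    · by_cases k : deg p w = 3
      · exact le_trans (Nat.le_add_right _ _) (TOG2.loc3 g N A k).2.2
      by_cases k' : deg p w = 4
      · exact (TOG2.loc4 g N A hz k').2
      · rw [(TOG2.loc2 N A (by have := g.le w; omega)).2]; omega
    · have := (TOG2.loc3 g N A hx.1.1).2.2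
      rw [if_pos hx] at this
      omega

end Pool.Agent.Lib.IC4
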