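import Mathlib

/-! A weighted graph in which every node has total weight `k` and every odd set has cut weight at
least `k` has a perfect matching (from Tutte's theorem). -/

namespace Pool.Agent.Lib.IC4
open Finset

theorem pm_of_weights {N : Type*} [Fintype N] [DecidableEq N] (w : N → N → ℕ) (k : ℕ)
    (hk : 0 < k) (hs : ∀ a b, w a b = w b a) (h0 : ∀ a, w a a = 0)
    (hd : ∀ a, ∑ b, w a b = k)
    (hc : ∀ S : Finset N, Odd S.card → k ≤ ∑ a ∈ S, ∑ b ∈ Sᶜ, w a b) :
    ∃ μ : N → N, (∀ a, μ (μ a) = a) ∧ ∀ a, 0 < w a (μ a) := by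
  classical
  let G : SimpleGraph N :=
    { Adj := fun a b => 0 < w a b
      symm := ⟨fun a b h => by rwa [hs]⟩
      loopless := ⟨fun a h => by simp [h0] at h⟩ }
  have key : ∃ M : G.Subgraph, M.IsPerfectMatching := by
    rw [SimpleGraph.tutte]
    intro u hu
    unfold SimpleGraph.IsTutteViolator at hu
    set H := ((⊤ : G.Subgraph).deleteVerts u).coe with hH
    let S : H.ConnectedComponent → Finset N := fun c =>
      univ.filter fun a => a ∈ Subtype.val '' c.supp
    have hS : ∀ c a, a ∈ S c ↔ ∃ h : a ∈ ((⊤ : G.Subgraph).deleteVerts u).verts,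
        H.connectedComponentMk ⟨a, h⟩ = c := by
      intro c a
      simp only [S, mem_filter, mem_univ, true_and, Set.mem_image,
        SimpleGraph.ConnectedComponent.mem_supp_iff]
      constructor
      · rintro ⟨⟨b, hb⟩, h1, rfl⟩; exact ⟨hb, h1⟩
      · rintro ⟨h, h1⟩; exact ⟨⟨a, h⟩, h1, rfl⟩
    have hcard : ∀ c, (S c).card = c.supp.ncard := by
      intro c
      rw [← Set.ncard_image_of_injective c.supp Subtype.val_injective, ← Set.ncard_coe_finset]
      congr 1; ext a; simp [S]
    let U : Finset N := univ.filter fun a => a ∈ u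
    have hU : U.card = u.ncard := by
      rw [← Set.ncard_coe_finset]; congr 1; ext a; simp [U]
    have h1 : ∀ c, Odd c.supp.ncard → k ≤ ∑ a ∈ S c, ∑ b ∈ U, w a b := by
      intro c hc'
      refine (hc (S c) (by rwa [hcard])).trans (sum_le_sum fun a ha => ?_)
      refine sum_le_sum_of_ne_zero fun b hb hw => ?_
      simp only [U, mem_filter, mem_univ, true_and]
      by_contra hbu
      obtain ⟨h, hac⟩ := (hS c a).1 ha
      have hb' : b ∈ ((⊤ : G.Subgraph).deleteVerts u).verts := by simp [hbu]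
      refine (mem_compl.1 hb) ((hS c b).2 ⟨hb', ?_⟩)
      rw [← hac]
      refine (SimpleGraph.ConnectedComponent.connectedComponentMk_eq_of_adj ?_).symm
      simp only [hH, SimpleGraph.Subgraph.coe_adj, SimpleGraph.Subgraph.deleteVerts_adj]
      simp only [SimpleGraph.Subgraph.deleteVerts_verts, SimpleGraph.Subgraph.verts_top,
        Set.mem_sdiff, Set.mem_univ, true_and] at h
      exact ⟨trivial, h, trivial, hbu, Nat.pos_of_ne_zero hw⟩
    have : Fintype H.ConnectedComponent := Fintype.ofFinite _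
    let O : Finset H.ConnectedComponent := univ.filter fun c => Odd c.supp.ncard
    have hO : O.card = H.oddComponents.ncard := by
      rw [← Set.ncard_coe_finset]; congr 1; ext a; simp [O]
    have hdisj : (O : Set H.ConnectedComponent).PairwiseDisjoint S := by
      intro c _ c' _ hne
      refine disjoint_left.2 fun a ha ha' => hne ?_
      obtain ⟨h, h1⟩ := (hS c a).1 ha
      obtain ⟨h', h2⟩ := (hS c' a).1 ha'
      rw [← h1, ← h2]
    have h2 : O.card * k ≤ U.card * k := by
      calc O.card * k = ∑ _c ∈ O, k := by simp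
        _ ≤ ∑ c ∈ O, ∑ a ∈ S c, ∑ b ∈ U, w a b :=
          sum_le_sum fun c hc' => h1 c (by simpa [O] using hc')
        _ = ∑ a ∈ O.biUnion S, ∑ b ∈ U, w a b := (sum_biUnion hdisj).symm
        _ ≤ ∑ a, ∑ b ∈ U, w a b := sum_le_sum_of_subset (subset_univ _)
        _ = ∑ b ∈ U, ∑ a, w b a := by rw [sum_comm]; simp only [hs]
        _ = U.card * k := by simp [hd]
    have := Nat.le_of_mul_le_mul_right h2 hk
    omega
  obtain ⟨M, hM⟩ := key
  rw [SimpleGraph.Subgraph.isPerfectMatching_iff] at hM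
  choose μ hμ hu using hM
  exact ⟨μ, fun a => (hu _ _ (hμ a).symm).symm, fun a => M.adj_sub (hμ a)⟩


/-- `1` if `S` separates `a` from `b` -/
def sep {N : Type*} [DecidableEq N] (S : Finset N) (a b : N) : ℕ := if (a ∈ S ↔ b ∈ S) then 0 else 1

theorem pm_of_weights' {N : Type*} [Fintype N] [DecidableEq N] (w : N → N → ℕ) (k : ℕ)
    (hk : 0 < k) (hs : ∀ a b, w a b = w b a) (h0 : ∀ a, w a a = 0)
    (hd : ∀ a, ∑ b, w a b = k)
    (hc : ∀ S : Finset N, Odd S.card → 2 * k ≤ ∑ a, ∑ b, w a b * sep S a b) :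
    ∃ μ : N → N, (∀ a, μ (μ a) = a) ∧ ∀ a, 0 < w a (μ a) := by
  refine pm_of_weights w k hk hs h0 hd fun S hS => ?_
  have h := hc S hS
  have e1 : ∑ a ∈ S, ∑ b, w a b * sep S a b = ∑ a ∈ S, ∑ b ∈ Sᶜ, w a b := by
    refine sum_congr rfl fun a ha => ?_
    rw [← sum_add_sum_compl S, sum_eq_zero, zero_add]
    · exact sum_congr rfl fun b hb => by simp [sep, ha, mem_compl.1 hb]
    · intro b hb; simp [sep, ha, hb]
  have e2 : ∑ a ∈ Sᶜ, ∑ b, w a b * sep S a b = ∑ a ∈ S, ∑ b ∈ Sᶜ, w a b := by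
    rw [sum_comm (s := S)]
    refine sum_congr rfl fun a ha => ?_
    rw [← sum_add_sum_compl S, sum_eq_zero (s := Sᶜ), add_zero]
    · exact sum_congr rfl fun b hb => by simp [sep, mem_compl.1 ha, hb, hs a b]
    · intro b hb; simp [sep, mem_compl.1 ha, mem_compl.1 hb]
  rw [← sum_add_sum_compl S, e1, e2] at h
  omega

end Pool.Agent.Lib.IC4
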